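import Pool.Agent.Helper80.Green.Defs

/-!
GR-12: bounded power sums over exponents coprime to `q`.
-/

universe u v

open scoped TensorProduct

namespace Pool.Agent.H80Green

namespace AnA

open Filter Topology

/-- simultaneous recurrence on the torus -/
theorem recur {ι : Type} [Fintype ι] (u : ι → ℂ) (hu : ∀ i, ‖u i‖ = 1) (q M : ℕ) (hq : 0 < q)
    {δ : ℝ} (hδ : 0 < δ) : ∃ N : ℕ, M ≤ N ∧ q ∣ N ∧ ∀ i, ‖u i ^ N - 1‖ < δ := by
  set L : ℕ := q * (M + 1) with hL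
  have hLM : M ≤ L := by nlinarith
  set x : ℕ → (ι → ℂ) := fun j i => u i ^ (j * L) with hx
  have hb : Bornology.IsBounded (Metric.closedBall (0 : ι → ℂ) 1) := Metric.isBounded_closedBall
  have hx1 : ∀ j, x j ∈ Metric.closedBall (0 : ι → ℂ) 1 := by
    intro j
    rw [mem_closedBall_zero_iff, pi_norm_le_iff_of_nonneg zero_le_one]
    intro i
    simp [hx, hu]
  obtain ⟨a, _, φ, hφ, ha⟩ := tendsto_subseq_of_bounded hb hx1
  have hc := ha.cauchySeq
  rw [Metric.cauchySeq_iff'] at hc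
  obtain ⟨n, hn⟩ := hc δ hδ
  have h1 := hn (n + 1) (Nat.le_succ n)
  have hlt : φ n < φ (n + 1) := hφ (Nat.lt_succ_self n)
  refine ⟨(φ (n + 1) - φ n) * L, ?_, ?_, fun i => ?_⟩
  · have : 1 ≤ φ (n + 1) - φ n := by omega
    calc M ≤ 1 * L := by omega
      _ ≤ _ := Nat.mul_le_mul_right L this
  · exact Dvd.dvd.mul_left (Dvd.intro _ rfl) _
  · have h2 : dist (x (φ (n + 1)) i) (x (φ n) i) < δ :=
      lt_of_le_of_lt (dist_le_pi_dist _ _ i) h1
    have h3 : x (φ (n + 1)) i - x (φ n) i =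
        u i ^ (φ n * L) * (u i ^ ((φ (n + 1) - φ n) * L) - 1) := by
      simp only [hx]
      rw [mul_sub, mul_one, ← pow_add, ← Nat.add_mul]
      congr 3
      omega
    rw [dist_eq_norm, h3, norm_mul, norm_pow, hu, one_pow, one_mul] at h2
    exact h2

/-- the terms of largest modulus have vanishing power sums -/
theorem key {ι : Type} (t : ι → ℂ) (A : Finset ι) (q : ℕ) (hq : 0 < q) (C : ℝ)
    (h1 : ∀ n : ℕ, n.Coprime q → ‖∑ i ∈ A, t i ^ n‖ ≤ C) (R : ℝ) (hR : 1 < R)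
    (hmax : ∀ i ∈ A, ‖t i‖ ≤ R) (n : ℤ) (hn : IsCoprime n (q : ℤ)) :
    ∑ i ∈ A.filter (fun i => ‖t i‖ = R), t i ^ n = 0 := by
  classical
  set S := A.filter (fun i => ‖t i‖ = R) with hS
  have hR0 : 0 < R := by linarith
  -- the next modulus
  obtain ⟨R', hR'1, hR'R, hR'⟩ : ∃ R' : ℝ, 1 ≤ R' ∧ R' < R ∧ ∀ i ∈ A \ S, ‖t i‖ ≤ R' := by
    rcases (A \ S).eq_empty_or_nonempty with h | h
    · exact ⟨1, le_rfl, hR, by simp [h]⟩
    · obtain ⟨j, hj, hj'⟩ := (A \ S).exists_max_image (fun i => ‖t i‖) h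
      refine ⟨max 1 ‖t j‖, le_max_left _ _, max_lt hR ?_, fun i hi => (hj' i hi).trans
        (le_max_right _ _)⟩
      rw [Finset.mem_sdiff] at hj
      refine lt_of_le_of_ne (hmax j hj.1) fun h' => hj.2 ?_
      rw [hS, Finset.mem_filter]
      exact ⟨hj.1, h'⟩
  have hC0 : 0 ≤ C := (norm_nonneg _).trans (h1 1 (Nat.coprime_one_left q))
  -- bound for the normalised power sums
  have hb : ∀ m : ℕ, m.Coprime q →
      ‖∑ i ∈ S, (t i / (R : ℂ)) ^ m‖ ≤ (C + A.card) * (R' / R) ^ m := by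
    intro m hm
    have e1 : ∑ i ∈ S, (t i / (R : ℂ)) ^ m = (∑ i ∈ S, t i ^ m) / (R : ℂ) ^ m := by
      rw [Finset.sum_div]
      exact Finset.sum_congr rfl fun i _ => div_pow _ _ _
    have e2 : ∑ i ∈ S, t i ^ m = ∑ i ∈ A, t i ^ m - ∑ i ∈ A \ S, t i ^ m := by
      have := Finset.sum_sdiff (f := fun i => t i ^ m) (Finset.filter_subset
        (fun i => ‖t i‖ = R) A)
      rw [← this]
      ring
    have e3 : ‖∑ i ∈ A \ S, t i ^ m‖ ≤ A.card * R' ^ m := by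
      calc ‖∑ i ∈ A \ S, t i ^ m‖ ≤ ∑ i ∈ A \ S, ‖t i ^ m‖ := norm_sum_le _ _
        _ ≤ ∑ i ∈ A \ S, R' ^ m := Finset.sum_le_sum fun i hi => by
            rw [norm_pow]
            exact pow_le_pow_left₀ (norm_nonneg _) (hR' i hi) m
        _ = (A \ S).card * R' ^ m := by rw [Finset.sum_const, nsmul_eq_mul]
        _ ≤ A.card * R' ^ m := by
            have : ((A \ S).card : ℝ) ≤ A.card := by
              exact_mod_cast Finset.card_le_card Finset.sdiff_subset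
            exact mul_le_mul_of_nonneg_right this (by positivity)
    have e4 : ‖∑ i ∈ S, t i ^ m‖ ≤ (C + A.card) * R' ^ m := by
      rw [e2]
      have h5 : 1 ≤ R' ^ m := one_le_pow₀ hR'1
      calc ‖∑ i ∈ A, t i ^ m - ∑ i ∈ A \ S, t i ^ m‖
          ≤ ‖∑ i ∈ A, t i ^ m‖ + ‖∑ i ∈ A \ S, t i ^ m‖ := norm_sub_le _ _
        _ ≤ C + A.card * R' ^ m := add_le_add (h1 m hm) e3
        _ ≤ C * R' ^ m + A.card * R' ^ m := by nlinarith
        _ = _ := by ring
    rw [e1, norm_div, norm_pow, Complex.norm_real, Real.norm_of_nonneg hR0.le, div_pow,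
      ← mul_div_assoc]
    exact div_le_div_of_nonneg_right e4 (by positivity)
  -- the normalised power sums vanish
  have hu : ∀ i ∈ S, ‖t i / (R : ℂ)‖ = 1 := by
    intro i hi
    rw [hS, Finset.mem_filter] at hi
    rw [norm_div, Complex.norm_real, Real.norm_of_nonneg hR0.le, hi.2, div_self hR0.ne']
  have hzero : ∑ i ∈ S, (t i / (R : ℂ)) ^ n = 0 := by
    rw [← norm_le_zero_iff]
    refine le_of_forall_pos_le_add fun ε hε => ?_
    rw [zero_add]
    -- large exponents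
    have hlim : Tendsto (fun m : ℕ => (C + A.card) * (R' / R) ^ m) atTop (𝓝 0) := by
      have := (tendsto_pow_atTop_nhds_zero_of_lt_one (by positivity)
        ((div_lt_one hR0).2 hR'R)).const_mul (C + A.card)
      simpa using this
    obtain ⟨K, hK⟩ := (hlim.eventually (gt_mem_nhds (half_pos hε))).exists_forall_of_atTop
    obtain ⟨N, hN1, hN2, hN3⟩ := recur (fun i : S => t i / (R : ℂ)) (fun i => hu i i.2) q
      (K + n.natAbs) hq (δ := ε / (2 * (S.card + 1))) (by positivity)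
    obtain ⟨m, hm⟩ : ∃ m : ℕ, (m : ℤ) = n + N := ⟨(n + N).toNat, by omega⟩
    have hmK : K ≤ m := by omega
    have hmq : m.Coprime q := by
      rw [← Nat.isCoprime_iff_coprime, hm]
      obtain ⟨l, rfl⟩ := hN2
      push_cast
      exact hn.add_mul_left_left l
    have e1 : ∑ i ∈ S, (t i / (R : ℂ)) ^ n = ∑ i ∈ S, (t i / (R : ℂ)) ^ m -
        ∑ i ∈ S, (t i / (R : ℂ)) ^ n * ((t i / (R : ℂ)) ^ N - 1) := by
      rw [← Finset.sum_sub_distrib]
      refine Finset.sum_congr rfl fun i hi => ?_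
      have hne : t i / (R : ℂ) ≠ 0 := by
        rw [← norm_pos_iff, hu i hi]
        exact one_pos
      have : (t i / (R : ℂ)) ^ m = (t i / (R : ℂ)) ^ n * (t i / (R : ℂ)) ^ N := by
        rw [← zpow_natCast, ← zpow_natCast, ← zpow_add₀ hne, hm]
      rw [this]
      ring
    have e2 : ‖∑ i ∈ S, (t i / (R : ℂ)) ^ n * ((t i / (R : ℂ)) ^ N - 1)‖ ≤ ε / 2 := by
      calc _ ≤ ∑ i ∈ S, ‖(t i / (R : ℂ)) ^ n * ((t i / (R : ℂ)) ^ N - 1)‖ := norm_sum_le _ _
        _ ≤ ∑ i ∈ S, ε / (2 * (S.card + 1)) := Finset.sum_le_sum fun i hi => by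
            rw [norm_mul, norm_zpow, hu i hi, one_zpow, one_mul]
            exact (hN3 ⟨i, hi⟩).le
        _ = S.card * (ε / (2 * (S.card + 1))) := by rw [Finset.sum_const, nsmul_eq_mul]
        _ ≤ ε / 2 := by
            rw [mul_div_assoc', div_le_div_iff₀ (by positivity) (by positivity)]
            nlinarith
    rw [e1]
    calc _ ≤ ‖∑ i ∈ S, (t i / (R : ℂ)) ^ m‖ +
          ‖∑ i ∈ S, (t i / (R : ℂ)) ^ n * ((t i / (R : ℂ)) ^ N - 1)‖ := norm_sub_le _ _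
      _ ≤ ε / 2 + ε / 2 := add_le_add ((hb m hmq).trans (hK m hmK).le) e2
      _ = ε := by ring
  have e3 : ∑ i ∈ S, t i ^ n = (R : ℂ) ^ n * ∑ i ∈ S, (t i / (R : ℂ)) ^ n := by
    rw [Finset.mul_sum]
    refine Finset.sum_congr rfl fun i _ => ?_
    have : (R : ℂ) ≠ 0 := by exact_mod_cast hR0.ne'
    rw [← mul_zpow, mul_div_cancel₀ _ this]
  rw [e3, hzero, mul_zero]

theorem aux {ι : Type} (t : ι → ℂ) (ht : ∀ i, t i ≠ 0) (q : ℕ) (hq : 0 < q) (C : ℝ)
    (A : Finset ι) : (∀ n : ℕ, n.Coprime q → ‖∑ i ∈ A, t i ^ n‖ ≤ C) →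
    (∀ n : ℕ, n.Coprime q → ‖∑ i ∈ A, (t i)⁻¹ ^ n‖ ≤ C) →
    ∑ i ∈ A, (t i)⁻¹ = (starRingEnd ℂ) (∑ i ∈ A, t i) := by
  classical
  induction A using Finset.strongInduction with
  | H A ih =>
    intro h1 h2
    -- reduction
    have red : ∀ S ⊆ A, S.Nonempty → (∀ n : ℤ, IsCoprime n (q : ℤ) → ∑ i ∈ S, t i ^ n = 0) →
        ∑ i ∈ A, (t i)⁻¹ = (starRingEnd ℂ) (∑ i ∈ A, t i) := by
      intro S hSA hne hS
      have hsub : A \ S ⊂ A := by
        refine Finset.ssubset_iff_subset_ne.2 ⟨Finset.sdiff_subset, fun h => ?_⟩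
        obtain ⟨i, hi⟩ := hne
        have := hSA hi
        rw [← h, Finset.mem_sdiff] at this
        exact this.2 hi
      have e : ∀ n : ℤ, IsCoprime n (q : ℤ) → ∑ i ∈ A \ S, t i ^ n = ∑ i ∈ A, t i ^ n := by
        intro n hn
        rw [← Finset.sum_sdiff hSA, hS n hn, add_zero]
      have e1 : ∀ n : ℕ, n.Coprime q → ∑ i ∈ A \ S, t i ^ n = ∑ i ∈ A, t i ^ n := by
        intro n hn
        have := e n (Nat.isCoprime_iff_coprime.2 hn)
        simpa using this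
      have e2 : ∀ n : ℕ, n.Coprime q →
          ∑ i ∈ A \ S, (t i)⁻¹ ^ n = ∑ i ∈ A, (t i)⁻¹ ^ n := by
        intro n hn
        have := e (-n) ((Nat.isCoprime_iff_coprime.2 hn).neg_left)
        simpa using this
      have k1 := e1 1 (Nat.coprime_one_left q)
      have k2 := e2 1 (Nat.coprime_one_left q)
      simp only [pow_one] at k1 k2
      rw [← k1, ← k2]
      exact ih _ hsub (fun n hn => by rw [e1 n hn]; exact h1 n hn)
        (fun n hn => by rw [e2 n hn]; exact h2 n hn)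
    by_cases hall : ∀ i ∈ A, ‖t i‖ = 1
    · rw [map_sum]
      refine Finset.sum_congr rfl fun i hi => ?_
      rw [Complex.inv_def, Complex.normSq_eq_norm_sq, hall i hi]
      simp
    · push Not at hall
      obtain ⟨i, hi, hi1⟩ := hall
      rcases lt_or_gt_of_ne hi1 with hlt | hgt
      · obtain ⟨j, hj, hj'⟩ := A.exists_max_image (fun i => ‖(t i)⁻¹‖) ⟨i, hi⟩
        have hR : 1 < ‖(t j)⁻¹‖ := by
          refine lt_of_lt_of_le ?_ (hj' i hi)
          rw [norm_inv]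
          exact (one_lt_inv₀ (norm_pos_iff.2 (ht i))).2 hlt
        refine red (A.filter fun i => ‖(t i)⁻¹‖ = ‖(t j)⁻¹‖) (Finset.filter_subset _ _)
          ⟨j, Finset.mem_filter.2 ⟨hj, rfl⟩⟩ fun n hn => ?_
        have := key (fun i => (t i)⁻¹) A q hq C h2 ‖(t j)⁻¹‖ hR hj' (-n) hn.neg_left
        simpa using this
      · obtain ⟨j, hj, hj'⟩ := A.exists_max_image (fun i => ‖t i‖) ⟨i, hi⟩
        have hR : 1 < ‖t j‖ := lt_of_lt_of_le hgt (hj' i hi)
        refine red (A.filter fun i => ‖t i‖ = ‖t j‖) (Finset.filter_subset _ _)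
          ⟨j, Finset.mem_filter.2 ⟨hj, rfl⟩⟩ fun n hn => ?_
        exact key t A q hq C h1 ‖t j‖ hR hj' n hn

end AnA

theorem powerSum_conj {ι : Type} [Fintype ι] (t : ι → ℂ) (ht : ∀ i, t i ≠ 0) (q : ℕ)
    (hq : 0 < q) (C : ℝ) (h1 : ∀ n : ℕ, n.Coprime q → ‖∑ i, t i ^ n‖ ≤ C)
    (h2 : ∀ n : ℕ, n.Coprime q → ‖∑ i, (t i)⁻¹ ^ n‖ ≤ C) :
    ∑ i, (t i)⁻¹ = (starRingEnd ℂ) (∑ i, t i) :=
  AnA.aux t ht q hq C Finset.univ h1 h2

end Pool.Agent.H80Green
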