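import Mathlib

/-! GR-13: power sums with finitely many values: only roots of unity contribute -/

universe u v

namespace Pool.Agent.H80Green

open Finset in
theorem anc_group_sum {ι : Type} [Fintype ι] (v c : ι → ℂ) (hv : ∀ i, v i ≠ 0) (F : Set ℂ)
    (hF : F.Finite) (h : ∀ j : ℕ, ∑ i, c i * v i ^ j ∈ F) (i₀ : ι)
    (hi₀ : ∀ m : ℕ, 0 < m → v i₀ ^ m ≠ 1) : ∑ i with v i = v i₀, c i = 0 := by
  classical
  set V : Finset ℂ := univ.image v with hV
  let e : Fin V.card ≃ V := V.equivFin.symm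
  set g : Fin V.card → ℂ := fun a => ∑ i with v i = (e a : ℂ), c i with hg
  have hw : ∀ j : ℕ, ∑ i, c i * v i ^ j = ∑ a, g a * (e a : ℂ) ^ j := by
    intro j
    have h1 : ∑ i, c i * v i ^ j = ∑ y ∈ V, ∑ i with v i = y, c i * v i ^ j :=
      (Finset.sum_fiberwise_of_maps_to (fun i _ => mem_image_of_mem v (mem_univ i)) _).symm
    have h2 : ∀ y ∈ V, ∑ i with v i = y, c i * v i ^ j = (∑ i with v i = y, c i) * y ^ j := by
      intro y _
      rw [Finset.sum_mul]
      refine Finset.sum_congr rfl fun i hi => ?_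
      rw [(mem_filter.mp hi).2]
    rw [h1, Finset.sum_congr rfl h2, ← Finset.sum_coe_sort V]
    exact (Equiv.sum_comp e fun y : V => (∑ i with v i = (y : ℂ), c i) * (y : ℂ) ^ j).symm
  have hfin : Finite F := hF
  obtain ⟨j, j', hne, heq⟩ := Finite.exists_ne_map_eq_of_infinite
    (fun j : ℕ => fun l : Fin V.card => (⟨_, h (j + l)⟩ : F))
  wlog hlt : j < j' generalizing j j'
  · exact this j' j hne.symm heq.symm (lt_of_le_of_ne (not_lt.mp hlt) hne.symm)
  have h3 : ∀ l : Fin V.card, ∑ a, g a * ((e a : ℂ) ^ j' - (e a : ℂ) ^ j) * (e a : ℂ) ^ (l : ℕ) = 0 := by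
    intro l
    have h4 := congrArg Subtype.val (congrFun heq l)
    simp only [hw] at h4
    have h5 : ∀ a, g a * ((e a : ℂ) ^ j' - (e a : ℂ) ^ j) * (e a : ℂ) ^ (l : ℕ) =
        g a * (e a : ℂ) ^ (j' + l) - g a * (e a : ℂ) ^ (j + l) := by
      intro a
      rw [pow_add, pow_add]
      ring
    rw [Finset.sum_congr rfl fun a _ => h5 a, Finset.sum_sub_distrib, h4, sub_self]
  have hinj : Function.Injective fun a : Fin V.card => (e a : ℂ) :=
    Subtype.val_injective.comp e.injective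
  have h6 := Matrix.eq_zero_of_forall_pow_sum_mul_pow_eq_zero hinj h3
  have hmem : v i₀ ∈ V := mem_image_of_mem v (mem_univ i₀)
  have h7 := congrFun h6 (e.symm ⟨v i₀, hmem⟩)
  simp only [Pi.zero_apply, mul_eq_zero, hg, Equiv.apply_symm_apply] at h7
  rcases h7 with h7 | h7
  · exact h7
  · exfalso
    refine hi₀ (j' - j) (by omega) ?_
    have h8 : v i₀ ^ j' = v i₀ ^ j := sub_eq_zero.mp h7
    have h9 : v i₀ ^ (j' - j) * v i₀ ^ j = 1 * v i₀ ^ j := by
      rw [← pow_add, Nat.sub_add_cancel hlt.le, one_mul, h8]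
    exact mul_right_cancel₀ (pow_ne_zero _ (hv i₀)) h9

open Finset in
theorem anc_sum_zero {ι : Type} [Fintype ι] (v d : ι → ℂ) (R : ι → Prop) [DecidablePred R]
    (hR : ∀ i j, v i = v j → (R i ↔ R j))
    (h : ∀ i, ¬ R i → ∑ j with v j = v i, d j = 0) : ∑ i, d i = ∑ i with R i, d i := by
  classical
  rw [← Finset.sum_filter_add_sum_filter_not univ R d]
  suffices ∑ i with ¬ R i, d i = 0 by rw [this, add_zero]
  rw [← Finset.sum_fiberwise_of_maps_to (g := v) (t := (univ.filter fun i => ¬ R i).image v)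
    (fun i hi => mem_image_of_mem v hi)]
  refine Finset.sum_eq_zero fun y hy => ?_
  obtain ⟨i, hi, rfl⟩ := mem_image.mp hy
  have hi' := (mem_filter.mp hi).2
  rw [← h i hi']
  refine Finset.sum_congr ?_ fun _ _ => rfl
  ext j
  simp only [mem_filter, mem_univ, true_and]
  constructor
  · exact fun h => h.2
  · exact fun h => ⟨fun hj => hi' ((hR j i h).mp hj), h⟩

/-- GR-13 -/
theorem powerSum_finite {ι : Type} [Fintype ι] (t : ι → ℂ) (ht : ∀ i, t i ≠ 0) (q : ℕ)
    (hq : 0 < q) (F : Set ℂ) (hF : F.Finite)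
    (h : ∀ n : ℕ, n.Coprime q → ∑ i, t i ^ n ∈ F) :
    ∃ S : Finset ι, (∀ i ∈ S, ∃ m : ℕ, 0 < m ∧ t i ^ m = 1) ∧
      ∑ i, t i = ∑ i ∈ S, t i ∧ ∑ i, (t i)⁻¹ = ∑ i ∈ S, (t i)⁻¹ := by
  classical
  set R : ι → Prop := fun i => ∃ m : ℕ, 0 < m ∧ (t i ^ q) ^ m = 1 with hRdef
  have hR : ∀ i j, t i ^ q = t j ^ q → (R i ↔ R j) := by
    intro i j hij
    simp only [hRdef, hij]
  have hv : ∀ i, t i ^ q ≠ 0 := fun i => pow_ne_zero _ (ht i)
  refine ⟨Finset.univ.filter R, fun i hi => ?_, ?_, ?_⟩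
  · obtain ⟨m, hm, h1⟩ := (Finset.mem_filter.mp hi).2
    exact ⟨q * m, Nat.mul_pos hq hm, by rw [pow_mul]; exact h1⟩
  · refine anc_sum_zero (fun i => t i ^ q) t R hR fun i hi => ?_
    refine anc_group_sum (fun i => t i ^ q) t hv F hF (fun j => ?_) i fun m hm h1 =>
      hi ⟨m, hm, h1⟩
    have h2 := h (1 + q * j) (by simp)
    have h3 : ∑ i, t i ^ (1 + q * j) = ∑ i, t i * (t i ^ q) ^ j :=
      Finset.sum_congr rfl fun i _ => by rw [pow_add, pow_one, pow_mul]
    rwa [h3] at h2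
  · refine anc_sum_zero (fun i => t i ^ q) (fun i => (t i)⁻¹) R hR fun i hi => ?_
    have h1 : ∑ j with t j ^ q = t i ^ q, t j ^ (q - 1) = 0 := by
      refine anc_group_sum (fun i => t i ^ q) (fun i => t i ^ (q - 1)) hv F hF (fun j => ?_) i
        fun m hm h1 => hi ⟨m, hm, h1⟩
      have hcop : Nat.Coprime (q - 1 + q * j) q := by
        rw [Nat.coprime_add_mul_left_left]
        have : Nat.Coprime (q - 1) (q - 1 + 1) := by simp
        rwa [Nat.sub_add_cancel hq] at this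
      have h2 := h _ hcop
      have h3 : ∑ i, t i ^ (q - 1 + q * j) = ∑ i, t i ^ (q - 1) * (t i ^ q) ^ j :=
        Finset.sum_congr rfl fun i _ => by rw [pow_add, pow_mul]
      rwa [h3] at h2
    have h2 : ∑ j with t j ^ q = t i ^ q, (t j)⁻¹ =
        (t i ^ q)⁻¹ * ∑ j with t j ^ q = t i ^ q, t j ^ (q - 1) := by
      rw [Finset.mul_sum]
      refine Finset.sum_congr rfl fun j hj => ?_
      rw [← (Finset.mem_filter.mp hj).2]
      have h3 : t j ^ q = t j ^ (q - 1) * t j := by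
        rw [← pow_succ, Nat.sub_add_cancel hq]
      rw [h3]
      have := ht j
      field_simp
    rw [h2, h1, mul_zero]

end Pool.Agent.H80Green
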