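import Mathlib

/-!
Finite dimensional `kG`-modules, the operations of direct sum, tensor product, dual, exterior
power, and species of the representation ring.
-/

universe u v

open scoped TensorProduct

namespace Pool.Agent.H80Green

/-- A finite dimensional `kG`-module: a finite dimensional vector space with a representation
of `G`. -/
structure Md (k : Type u) [Field k] (G : Type v) [Group G] where
  carrier : Type u
  [acg : AddCommGroup carrier]
  [mod : Module k carrier]
  [fin : Module.Finite k carrier]
  rep : Representation k G carrier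

attribute [instance] Md.acg Md.mod Md.fin

namespace Md

variable {k : Type u} [Field k] {G : Type v} [Group G]

/-- Isomorphism of `kG`-modules. -/
def Iso (X Y : Md k G) : Prop :=
  ∃ e : X.carrier ≃ₗ[k] Y.carrier, ∀ (g : G) (x : X.carrier), e (X.rep g x) = Y.rep g (e x)

/-- The dimension over `k`. -/
noncomputable def dim (X : Md k G) : ℕ := Module.finrank k X.carrier

/-- The trivial one-dimensional module `k`. -/
abbrev triv (k : Type u) [Field k] (G : Type v) [Group G] : Md k G where
  carrier := k
  rep := Representation.trivial k G k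

/-- The direct sum `X ⊕ Y`. -/
noncomputable abbrev prod (X Y : Md k G) : Md k G where
  carrier := X.carrier × Y.carrier
  rep := X.rep.prod Y.rep

/-- The tensor product `X ⊗ Y` over `k`, with diagonal action. -/
noncomputable abbrev tensor (X Y : Md k G) : Md k G where
  carrier := X.carrier ⊗[k] Y.carrier
  rep := X.rep.tprod Y.rep

/-- The dual module. -/
noncomputable abbrev dual (X : Md k G) : Md k G where
  carrier := Module.Dual k X.carrier
  rep := X.rep.dual

/-- The tensor powers `X ⊗ ... ⊗ X` (`m` factors). -/
noncomputable def tpow (X : Md k G) : ℕ → Md k G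
  | 0 => triv k G
  | m + 1 => (tpow X m).tensor X

/-- The exterior power `Λ^j X`. -/
noncomputable abbrev ext (X : Md k G) (j : ℕ) : Md k G where
  carrier := ⋀[k]^j X.carrier
  rep :=
    { toFun := fun g => exteriorPower.map j (X.rep g)
      map_one' := by
        rw [map_one]
        exact exteriorPower.map_id
      map_mul' := fun g h => by
        rw [map_mul]
        exact exteriorPower.map_comp (n := j) (X.rep h) (X.rep g) }

/-- A finite direct sum. -/
abbrev pi {ι : Type} [Fintype ι] (Y : ι → Md k G) : Md k G where
  carrier := (i : ι) → (Y i).carrier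
  rep :=
    { toFun := fun g => LinearMap.pi fun i => (Y i).rep g ∘ₗ LinearMap.proj i
      map_one' := by
        ext x i
        simp
      map_mul' := fun g h => by
        ext x i
        simp }

/-- The submodule `W` of `X`, when `W` is stable under `G`. -/
abbrev sub (X : Md k G) (W : Submodule k X.carrier) (hW : ∀ g, W ≤ W.comap (X.rep g)) : Md k G where
  carrier := W
  rep := X.rep.subrepresentation W hW

/-- `X` is indecomposable: it is not zero and it is not the direct sum of two nonzero modules. -/
def Indec (X : Md k G) : Prop :=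
  0 < X.dim ∧ ∀ Y Z : Md k G, Iso X (Y.prod Z) → Y.dim = 0 ∨ Z.dim = 0

@[simp] lemma prod_rep (X Y : Md k G) (g : G) (x : X.carrier) (y : Y.carrier) :
    (X.prod Y).rep g (x, y) = (X.rep g x, Y.rep g y) := rfl

@[simp] lemma tensor_rep (X Y : Md k G) (g : G) (x : X.carrier) (y : Y.carrier) :
    (X.tensor Y).rep g (x ⊗ₜ[k] y) = X.rep g x ⊗ₜ[k] Y.rep g y := rfl

@[simp] lemma pi_rep {ι : Type} [Fintype ι] (Y : ι → Md k G) (g : G)
    (x : (i : ι) → (Y i).carrier) (i : ι) :
    ((pi Y).rep g x : (i : ι) → (Y i).carrier) i = (Y i).rep g (x i) := rfl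

@[simp] lemma sub_rep (X : Md k G) (W : Submodule k X.carrier)
    (hW : ∀ g, W ≤ W.comap (X.rep g)) (g : G) (x : W) :
    (show W from (X.sub W hW).rep g x : X.carrier) = X.rep g (x : X.carrier) := rfl

lemma ext_rep (X : Md k G) (j : ℕ) (g : G) :
    (X.ext j).rep g = exteriorPower.map j (X.rep g) := rfl

lemma triv_rep (g : G) (x : k) : (triv k G).rep g x = x := rfl

lemma Iso.refl (X : Md k G) : Iso X X := ⟨LinearEquiv.refl k _, fun _ _ => rfl⟩

lemma Iso.symm {X Y : Md k G} (h : Iso X Y) : Iso Y X := by
  obtain ⟨e, he⟩ := h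
  refine ⟨e.symm, fun g y => ?_⟩
  rw [LinearEquiv.symm_apply_eq, he, LinearEquiv.apply_symm_apply]

lemma Iso.trans {X Y Z : Md k G} (h : Iso X Y) (h' : Iso Y Z) : Iso X Z := by
  obtain ⟨e, he⟩ := h
  obtain ⟨f, hf⟩ := h'
  refine ⟨e.trans f, fun g x => ?_⟩
  simp only [LinearEquiv.trans_apply, he, hf]

lemma Iso.dim_eq {X Y : Md k G} (h : Iso X Y) : X.dim = Y.dim := by
  obtain ⟨e, -⟩ := h
  exact e.finrank_eq

lemma dim_prod (X Y : Md k G) : (X.prod Y).dim = X.dim + Y.dim :=
  Module.finrank_prod

lemma dim_tensor (X Y : Md k G) : (X.tensor Y).dim = X.dim * Y.dim :=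
  Module.finrank_tensorProduct

lemma dim_triv : (triv k G).dim = 1 := Module.finrank_self k

lemma dim_dual (X : Md k G) : X.dual.dim = X.dim := Subspace.dual_finrank_eq

lemma dim_ext (X : Md k G) (j : ℕ) : (X.ext j).dim = X.dim.choose j :=
  exteriorPower.finrank_eq k j

lemma dim_pi {ι : Type} [Fintype ι] (Y : ι → Md k G) : (pi Y).dim = ∑ i, (Y i).dim :=
  Module.finrank_pi_fintype k

lemma dim_tpow (X : Md k G) (m : ℕ) : (X.tpow m).dim = X.dim ^ m := by
  induction m with
  | zero => exact dim_triv
  | succ m ih => rw [tpow, dim_tensor, ih, pow_succ]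

end Md

/-- A species of the representation ring `a(G)`, given by its values on the modules: a function
on finite dimensional `kG`-modules, invariant under isomorphism, additive on direct sums,
multiplicative on tensor products, with value `1` on the trivial module. -/
structure Species (k : Type u) [Field k] (G : Type v) [Group G] where
  val : Md k G → ℂ
  iso : ∀ X Y : Md k G, Md.Iso X Y → val X = val Y
  add : ∀ X Y : Md k G, val (X.prod Y) = val X + val Y
  mul : ∀ X Y : Md k G, val (X.tensor Y) = val X * val Y
  one : val (Md.triv k G) = 1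

namespace Species

variable {k : Type u} [Field k] {G : Type v} [Group G] (s : Species k G)

/-- A species is dimension bounded when `|s(X)| ≤ dim X` for all indecomposable `X`. -/
def DimBounded : Prop := ∀ X : Md k G, X.Indec → ‖s.val X‖ ≤ X.dim

/-- `B` is negligible for `s`: the species vanishes on every direct summand of every `B ⊗ Y`,
and on the dual of every such summand. -/
def Negligible (B : Md k G) : Prop :=
  ∀ Y C C' : Md k G, Md.Iso (B.tensor Y) (C.prod C') → s.val C = 0 ∧ s.val C.dual = 0

lemma val_of_dim_zero (X : Md k G) (h : X.dim = 0) : s.val X = 0 := by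
  have hs : Subsingleton X.carrier := Module.finrank_zero_iff.1 h
  have h1 : s.val (X.prod X) = s.val X := by
    apply s.iso
    have hs2 : Subsingleton (X.carrier × X.carrier) := inferInstance
    refine ⟨⟨⟨⟨fun x => x.1, fun _ _ => rfl⟩, fun _ _ => rfl⟩, fun x => (x, x), ?_, ?_⟩, ?_⟩
    · intro x
      exact hs2.elim _ _
    · intro x
      exact hs.elim _ _
    · intro g x
      exact hs.elim _ _
  rw [s.add] at h1
  have : s.val X + s.val X = s.val X + 0 := by rw [h1, add_zero]
  exact add_left_cancel this

lemma val_pi {ι : Type} [Fintype ι] (Y : ι → Md k G) : s.val (Md.pi Y) = ∑ i, s.val (Y i) := by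
  classical
  have key : ∀ (ι : Type) [Fintype ι], ∀ Y : ι → Md k G,
      s.val (Md.pi Y) = ∑ i, s.val (Y i) := by
    intro ι inst
    refine Fintype.induction_empty_option
      (P := fun ι [Fintype ι] => ∀ Y : ι → Md k G, s.val (Md.pi Y) = ∑ i, s.val (Y i))
      ?_ ?_ ?_ ι
    · intro α β _ e h Y
      letI : Fintype α := Fintype.ofEquiv β e.symm
      have h2 := h (fun i => Y (e i))
      have h3 : ∑ i, s.val (Y i) = ∑ i, s.val (Y (e i)) :=
        (e.sum_comp (fun i => s.val (Y i))).symm
      rw [h3]
      refine Eq.trans ?_ h2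
      apply s.iso
      refine ⟨(LinearEquiv.piCongrLeft k (fun i => (Y i).carrier) e).symm, fun g x => ?_⟩
      funext i
      rfl
    · intro Y
      simp only [Finset.univ_eq_empty, Finset.sum_empty]
      apply s.val_of_dim_zero
      rw [Md.dim_pi]
      simp
    · intro α _ h Y
      rw [Fintype.sum_option, ← h (fun i => Y (some i)), ← s.add]
      apply s.iso
      refine ⟨⟨⟨⟨fun x => (x none, fun i => x (some i)), fun _ _ => rfl⟩, fun _ _ => rfl⟩,
        fun x i => Option.rec x.1 (fun j => x.2 j) i, ?_, ?_⟩, ?_⟩
      · intro x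
        funext i
        cases i <;> rfl
      · intro x
        rfl
      · intro g x
        rfl
  exact key ι Y

/-- For dimension bounded species the bound holds for all modules. -/
lemma DimBounded.le {s : Species k G} (hs : s.DimBounded) (X : Md k G) :
    ‖s.val X‖ ≤ X.dim := by
  induction h : X.dim using Nat.strong_induction_on generalizing X with
  | _ n ih =>
    by_cases h0 : X.dim = 0
    · rw [s.val_of_dim_zero X h0]
      simp
    · by_cases hX : X.Indec
      · rw [← h]
        exact hs X hX
      · have : ∃ Y Z : Md k G, Md.Iso X (Y.prod Z) ∧ Y.dim ≠ 0 ∧ Z.dim ≠ 0 := by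
          by_contra hcon
          push Not at hcon
          exact hX ⟨Nat.pos_of_ne_zero h0, fun Y Z hYZ => by
            by_cases hY : Y.dim = 0
            · exact Or.inl hY
            · exact Or.inr (hcon Y Z hYZ hY)⟩
        obtain ⟨Y, Z, hYZ, hY, hZ⟩ := this
        have hd := hYZ.dim_eq
        rw [Md.dim_prod, h] at hd
        rw [s.iso _ _ hYZ, s.add]
        have h1 := ih Y.dim (by omega) Y rfl
        have h2 := ih Z.dim (by omega) Z rfl
        calc ‖s.val Y + s.val Z‖ ≤ ‖s.val Y‖ + ‖s.val Z‖ := norm_add_le _ _
          _ ≤ Y.dim + Z.dim := add_le_add h1 h2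
          _ = (n : ℝ) := by rw [hd]; push_cast; ring

end Species

end Pool.Agent.H80Green
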