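import Pool.Agent.Helper80.Green.Defs

/-!
GR-8: cyclic tensor powers of tensor products, of isomorphic modules, of the trivial module.
-/

universe u v

open scoped TensorProduct

namespace Pool.Agent.H80Green

variable {k : Type u} [Field k] {G : Type v} [Group G]

theorem Md.dim_cpow (X : Md k G) (n : ℕ) [NeZero n] : (X.cpow n).dim = X.dim ^ n := by
  have B := Basis.piTensorProduct (fun _ : ZMod n => Module.finBasis k X.carrier)
  have h := Module.finrank_eq_card_basis B
  rw [Fintype.card_fun, ZMod.card, Fintype.card_fin] at h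
  exact h

theorem Md.cpow_iso {X Y : Md k G} (h : Md.Iso X Y) (n : ℕ) [NeZero n] :
    Md.Iso (X.cpow n) (Y.cpow n) := by
  obtain ⟨e, he⟩ := h
  refine ⟨PiTensorProduct.congr fun _ => e, fun g x => ?_⟩
  have key : (PiTensorProduct.congr fun _ : ZMod n => e).toLinearMap ∘ₗ (X.cpow n).rep g =
      (Y.cpow n).rep g ∘ₗ (PiTensorProduct.congr fun _ : ZMod n => e).toLinearMap := by
    obtain ⟨g, c⟩ := g
    refine PiTensorProduct.ext (MultilinearMap.ext fun x => ?_)
    show PiTensorProduct.congr (fun _ : ZMod n => e) ((X.cpow n).rep (g, cyc c)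
      (PiTensorProduct.tprod k x)) = (Y.cpow n).rep (g, cyc c)
        (PiTensorProduct.congr (fun _ : ZMod n => e) (PiTensorProduct.tprod k x))
    rw [Md.cpow_rep, PiTensorProduct.congr_tprod, PiTensorProduct.congr_tprod, Md.cpow_rep]
    congr 1
    funext z
    exact he g _
  exact LinearMap.congr_fun key x

theorem Md.cpow_triv (n : ℕ) [NeZero n] :
    Md.Iso ((Md.triv k G).cpow n) (Md.triv k (G × Cyc n)) := by
  refine ⟨(PiTensorProduct.constantBaseRingEquiv (ZMod n) k).toLinearEquiv, fun g x => ?_⟩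
  have key : (PiTensorProduct.constantBaseRingEquiv (ZMod n) k).toLinearMap ∘ₗ
      ((Md.triv k G).cpow n).rep g =
      (PiTensorProduct.constantBaseRingEquiv (ZMod n) k).toLinearMap := by
    obtain ⟨g, c⟩ := g
    refine PiTensorProduct.ext (MultilinearMap.ext fun x => ?_)
    show PiTensorProduct.constantBaseRingEquiv (ZMod n) k (((Md.triv k G).cpow n).rep (g, cyc c)
      (PiTensorProduct.tprod k x)) =
        PiTensorProduct.constantBaseRingEquiv (ZMod n) k (PiTensorProduct.tprod k x)
    rw [Md.cpow_rep, PiTensorProduct.constantBaseRingEquiv_tprod,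
      PiTensorProduct.constantBaseRingEquiv_tprod]
    exact (Equiv.subRight (Multiplicative.toAdd c)).prod_comp x
  exact LinearMap.congr_fun key x

/-- the multiplication map -/
noncomputable def cpowMul (X Y : Md k G) (n : ℕ) :
    (⨂[k] _ : ZMod n, X.carrier) ⊗[k] (⨂[k] _ : ZMod n, Y.carrier) →ₗ[k]
      ⨂[k] _ : ZMod n, (X.carrier ⊗[k] Y.carrier) :=
  TensorProduct.lift (PiTensorProduct.map₂ fun _ => TensorProduct.mk k X.carrier Y.carrier)

theorem cpowMul_tprod (X Y : Md k G) (n : ℕ) (x : ZMod n → X.carrier) (y : ZMod n → Y.carrier) :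
    cpowMul X Y n (PiTensorProduct.tprod k x ⊗ₜ[k] PiTensorProduct.tprod k y) =
      PiTensorProduct.tprod k fun z => x z ⊗ₜ[k] y z := by
  rw [cpowMul, TensorProduct.lift.tmul, PiTensorProduct.map₂_tprod_tprod]
  rfl

theorem cpowMul_surjective (X Y : Md k G) (n : ℕ) [NeZero n] :
    Function.Surjective (cpowMul X Y n) := by
  rw [← LinearMap.range_eq_top, eq_top_iff]
  have b := Module.finBasis k X.carrier
  have c := Module.finBasis k Y.carrier
  rw [← (Basis.piTensorProduct (fun _ : ZMod n => b.tensorProduct c)).span_eq, Submodule.span_le]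
  rintro _ ⟨p, rfl⟩
  refine ⟨PiTensorProduct.tprod k (fun z => b (p z).1) ⊗ₜ[k]
    PiTensorProduct.tprod k (fun z => c (p z).2), ?_⟩
  rw [cpowMul_tprod, Basis.piTensorProduct_apply]
  congr 1
  funext z
  rw [Module.Basis.tensorProduct_apply']

theorem Md.cpow_tensor (X Y : Md k G) (n : ℕ) [NeZero n] :
    Md.Iso ((X.tensor Y).cpow n) ((X.cpow n).tensor (Y.cpow n)) := by
  have hdim : Module.finrank k ((⨂[k] _ : ZMod n, X.carrier) ⊗[k] (⨂[k] _ : ZMod n, Y.carrier)) =
      Module.finrank k (⨂[k] _ : ZMod n, (X.carrier ⊗[k] Y.carrier)) := by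
    have h1 := Md.dim_cpow (X.tensor Y) n
    have h2 := Md.dim_tensor (X.cpow n) (Y.cpow n)
    rw [Md.dim_cpow, Md.dim_cpow] at h2
    rw [Md.dim_tensor, mul_pow] at h1
    exact h2.trans h1.symm
  have hinj : Function.Injective (cpowMul X Y n) :=
    (LinearMap.injective_iff_surjective_of_finrank_eq_finrank hdim).2 (cpowMul_surjective X Y n)
  apply Md.Iso.symm
  refine ⟨LinearEquiv.ofBijective (cpowMul X Y n) ⟨hinj, cpowMul_surjective X Y n⟩,
    fun g x => ?_⟩
  have key : (cpowMul X Y n) ∘ₗ ((X.cpow n).tensor (Y.cpow n)).rep g =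
      ((X.tensor Y).cpow n).rep g ∘ₗ (cpowMul X Y n) := by
    obtain ⟨g, c⟩ := g
    refine TensorProduct.ext (PiTensorProduct.ext (MultilinearMap.ext fun x =>
      PiTensorProduct.ext (MultilinearMap.ext fun y => ?_)))
    show cpowMul X Y n (((X.cpow n).rep (g, cyc c) (PiTensorProduct.tprod k x)) ⊗ₜ[k]
      ((Y.cpow n).rep (g, cyc c) (PiTensorProduct.tprod k y))) =
      ((X.tensor Y).cpow n).rep (g, cyc c)
        (cpowMul X Y n (PiTensorProduct.tprod k x ⊗ₜ[k] PiTensorProduct.tprod k y))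
    rw [Md.cpow_rep, Md.cpow_rep, cpowMul_tprod, cpowMul_tprod, Md.cpow_rep]
    rfl
  exact LinearMap.congr_fun key x

end Pool.Agent.H80Green
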