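import Pool.Agent.Helper80.Green.Defs

/-!
GR-9: the eigenspaces of the cyclic tensor power are direct summands of `B ⊗ Y`; dimensions of
the eigenspaces.
-/

universe u v

open scoped TensorProduct

namespace Pool.Agent.H80Green

variable {k : Type u} [Field k] {G : Type v} [Group G]

/-- restriction to `G` -/
noncomputable abbrev negRes {n : ℕ} (V : Md k (G × Cyc n)) : Md k G where
  carrier := V.carrier
  rep := V.rep.comp (MonoidHom.inl G (Cyc n))

theorem negRes_rep {n : ℕ} (V : Md k (G × Cyc n)) (g : G) (x : V.carrier) :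
    ((negRes V).rep g : Module.End k V.carrier) x = V.rep (g, 1) x := rfl

/-- the projection to the eigenspace -/
noncomputable def negPr {n : ℕ} (V : Md k (G × Cyc n)) (c : k) : Module.End k V.carrier :=
  (n : k)⁻¹ • ∑ j ∈ Finset.range n, (c⁻¹) ^ j • V.sig ^ j

theorem neg_sig_pow {n : ℕ} (V : Md k (G × Cyc n)) : V.sig ^ n = 1 := by
  rw [Md.sig, ← map_pow]
  have h : ((1 : G), cyc (1 : ZMod n)) ^ n = 1 := by
    rw [Prod.pow_mk, one_pow, ← ofAdd_nsmul, nsmul_one, ZMod.natCast_self]
    rfl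
  rw [h, map_one]

theorem negPr_apply {n : ℕ} (V : Md k (G × Cyc n)) (c : k) (x : V.carrier) :
    negPr V c x = (n : k)⁻¹ • ∑ j ∈ Finset.range n, (c⁻¹) ^ j • (V.sig ^ j) x := by
  simp [negPr]

/-- the projection commutes with the group -/
theorem negPr_comm {n : ℕ} (V : Md k (G × Cyc n)) (c : k) (g : G) (x : V.carrier) :
    negPr V c (V.rep (g, 1) x) = V.rep (g, 1) (negPr V c x) := by
  have h : ∀ j : ℕ, ∀ x, (V.sig ^ j) (V.rep (g, 1) x) = V.rep (g, 1) ((V.sig ^ j) x) := by
    intro j
    induction j with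
    | zero => intro x; rfl
    | succ j ih =>
      intro x
      rw [pow_succ', Module.End.mul_apply, Module.End.mul_apply, ih, Md.sig_comm]
  rw [negPr_apply, negPr_apply, map_smul, map_sum]
  simp only [h, map_smul]

/-- the image of the projection consists of eigenvectors -/
theorem negPr_mem {n : ℕ} [NeZero n] (V : Md k (G × Cyc n)) {c : k} (hc : c ^ n = 1)
    (x : V.carrier) : V.sig (negPr V c x) = c • negPr V c x := by
  have hc0 : c ≠ 0 := by
    rintro rfl
    rw [zero_pow (NeZero.ne n)] at hc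
    exact zero_ne_one hc
  rw [negPr_apply, map_smul, smul_comm c, map_sum, Finset.smul_sum]
  congr 1
  have h1 : ∀ j, V.sig ((c⁻¹) ^ j • (V.sig ^ j) x) = c • ((c⁻¹) ^ (j + 1) • (V.sig ^ (j + 1)) x) := by
    intro j
    rw [map_smul, smul_smul, pow_succ' V.sig, Module.End.mul_apply]
    congr 1
    rw [pow_succ']
    field_simp
  simp only [h1]
  rw [← Finset.smul_sum, ← Finset.smul_sum]
  congr 1
  have h2 := Finset.sum_range_succ (fun j => (c⁻¹) ^ j • (V.sig ^ j) x) n
  have h3 := Finset.sum_range_succ' (fun j => (c⁻¹) ^ j • (V.sig ^ j) x) n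
  rw [h2] at h3
  have h4 : (c⁻¹) ^ n • (V.sig ^ n) x = (c⁻¹) ^ 0 • (V.sig ^ 0) x := by
    rw [neg_sig_pow, inv_pow, hc, inv_one, pow_zero, pow_zero]
  rw [h4] at h3
  rw [(add_right_cancel h3).symm]

/-- powers of the generator on eigenvectors -/
theorem neg_sig_pow_eig {n : ℕ} (V : Md k (G × Cyc n)) {d : k} {x : V.carrier}
    (hx : V.sig x = d • x) (j : ℕ) : (V.sig ^ j) x = d ^ j • x := by
  induction j with
  | zero => simp
  | succ j ih => rw [pow_succ', Module.End.mul_apply, ih, map_smul, hx, smul_smul, pow_succ]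

theorem negPr_self {n : ℕ} (hn : (n : k) ≠ 0) (V : Md k (G × Cyc n)) {c : k} (hc0 : c ≠ 0)
    {x : V.carrier} (hx : V.sig x = c • x) : negPr V c x = x := by
  rw [negPr_apply]
  have h : ∀ j ∈ Finset.range n, (c⁻¹) ^ j • (V.sig ^ j) x = x := by
    intro j _
    rw [neg_sig_pow_eig V hx, smul_smul, ← mul_pow, inv_mul_cancel₀ hc0, one_pow, one_smul]
  rw [Finset.sum_congr rfl h, Finset.sum_const, Finset.card_range, ← Nat.cast_smul_eq_nsmul k,
    smul_smul, inv_mul_cancel₀ hn, one_smul]

theorem neg_geom {n : ℕ} {r : k} (hr : r ^ n = 1) (h1 : r ≠ 1) :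
    ∑ j ∈ Finset.range n, r ^ j = 0 := by
  have h := mul_geom_sum r n
  rw [hr, sub_self] at h
  exact (mul_eq_zero.1 h).resolve_left (sub_ne_zero.2 h1)

theorem negPr_other {n : ℕ} (V : Md k (G × Cyc n)) {c d : k} (hc : c ^ n = 1) (hd : d ^ n = 1)
    (hcd : d ≠ c) {x : V.carrier} (hx : V.sig x = d • x) : negPr V c x = 0 := by
  by_cases hc0 : c = 0
  · subst hc0
    rcases Nat.eq_zero_or_pos n with h | h
    · subst h
      rw [negPr_apply]
      simp
    · rw [zero_pow h.ne'] at hc
      exact absurd hc zero_ne_one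
  rw [negPr_apply]
  have h : ∀ j ∈ Finset.range n, (c⁻¹) ^ j • (V.sig ^ j) x = (c⁻¹ * d) ^ j • x := by
    intro j _
    rw [neg_sig_pow_eig V hx, smul_smul, ← mul_pow]
  rw [Finset.sum_congr rfl h, ← Finset.sum_smul, neg_geom, zero_smul, smul_zero]
  · rw [mul_pow, inv_pow, hc, hd, inv_one, one_mul]
  · intro hcon
    apply hcd
    field_simp at hcon
    exact hcon

/-- the eigenspace is a direct summand of the restriction -/
theorem neg_summand {n : ℕ} [NeZero n] (hn : (n : k) ≠ 0) (V : Md k (G × Cyc n)) {c : k}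
    (hc : c ^ n = 1) : ∃ C' : Md k G, Md.Iso (negRes V) ((V.eig c).prod C') := by
  have hc0 : c ≠ 0 := by
    rintro rfl
    rw [zero_pow (NeZero.ne n)] at hc
    exact zero_ne_one hc
  let f : V.carrier →ₗ[k] Module.End.eigenspace V.sig c :=
    (negPr V c).codRestrict _ fun x => Module.End.mem_eigenspace_iff.2 (negPr_mem V hc x)
  have hf : ∀ x : Module.End.eigenspace V.sig c, f x = x := by
    intro x
    apply Subtype.ext
    exact negPr_self hn V hc0 (Module.End.mem_eigenspace_iff.1 x.2)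
  have hcompl := LinearMap.isCompl_of_proj hf
  have hst : ∀ g, LinearMap.ker f ≤ (LinearMap.ker f).comap ((negRes V).rep g) := by
    intro g x hx
    rw [Submodule.mem_comap, LinearMap.mem_ker]
    rw [LinearMap.mem_ker] at hx
    have h1 : negPr V c x = 0 := congrArg Subtype.val hx
    apply Subtype.ext
    show negPr V c (V.rep (g, 1) x) = 0
    rw [negPr_comm, h1, map_zero]
  refine ⟨(negRes V).sub (LinearMap.ker f) hst, Md.Iso.symm
    ⟨Submodule.prodEquivOfIsCompl _ _ hcompl, fun g x => ?_⟩⟩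
  obtain ⟨x, y⟩ := x
  show (Submodule.prodEquivOfIsCompl _ _ hcompl) (((V.eig c).rep g x, _) :
    Module.End.eigenspace V.sig c × LinearMap.ker f) = V.rep (g, 1)
      (Submodule.prodEquivOfIsCompl _ _ hcompl (x, y))
  rw [Submodule.coe_prodEquivOfIsCompl', Submodule.coe_prodEquivOfIsCompl', map_add]
  rfl

theorem Md.cpow_eig_summand (B : Md k G) {n : ℕ} [NeZero n] {ζ : k}
    (hζ : IsPrimitiveRoot ζ n) (i : ℕ) :
    ∃ Y C' : Md k G, Md.Iso (B.tensor Y) (((B.cpow n).eig (ζ ^ i)).prod C') := by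
  have hn : (n : k) ≠ 0 := (hζ.neZero').out
  obtain ⟨C', hC'⟩ := neg_summand hn (B.cpow n) (root_pow hζ i)
  let Y : Md k G :=
    { carrier := ⨂[k] _ : (({0}ᶜ : Set (ZMod n))), B.carrier
      rep :=
        { toFun := fun g => PiTensorProduct.map fun _ => B.rep g
          map_one' := by
            rw [map_one]
            exact PiTensorProduct.map_one
          map_mul' := fun g h => by
            rw [map_mul]
            exact PiTensorProduct.map_mul _ _ } }
  refine ⟨Y, C', Md.Iso.trans (Md.Iso.symm ?_) hC'⟩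
  let E := PiTensorProduct.equivPiTensorComplSingletonTensor k (fun _ : ZMod n => B.carrier) 0
  refine ⟨E.trans (TensorProduct.comm k _ _), fun g x => ?_⟩
  have key : (E.trans (TensorProduct.comm k _ _)).toLinearMap ∘ₗ (negRes (B.cpow n)).rep g =
      (B.tensor Y).rep g ∘ₗ (E.trans (TensorProduct.comm k _ _)).toLinearMap := by
    refine PiTensorProduct.ext (MultilinearMap.ext fun x => ?_)
    show TensorProduct.comm k _ _ (E ((B.cpow n).rep (g, cyc 0) (PiTensorProduct.tprod k x))) =
      (B.tensor Y).rep g (TensorProduct.comm k _ _ (E (PiTensorProduct.tprod k x)))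
    rw [Md.cpow_rep]
    show TensorProduct.comm k _ _ (PiTensorProduct.equivPiTensorComplSingletonTensor k
      (fun _ : ZMod n => B.carrier) 0 (PiTensorProduct.tprod k _)) = (B.tensor Y).rep g
        (TensorProduct.comm k _ _ (PiTensorProduct.equivPiTensorComplSingletonTensor k
      (fun _ : ZMod n => B.carrier) 0 (PiTensorProduct.tprod k x)))
    rw [PiTensorProduct.equivPiTensorComplSingletonTensor_tprod,
      PiTensorProduct.equivPiTensorComplSingletonTensor_tprod, TensorProduct.comm_tmul,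
      TensorProduct.comm_tmul]
    have h2 : (B.tensor Y).rep g (x 0 ⊗ₜ[k] PiTensorProduct.tprod k
        fun j : (({0}ᶜ : Set (ZMod n))) => x j) = B.rep g (x 0) ⊗ₜ[k]
          Y.rep g (PiTensorProduct.tprod k fun j : (({0}ᶜ : Set (ZMod n))) => x j) := rfl
    refine Eq.trans ?_ h2.symm
    have h3 : Y.rep g (PiTensorProduct.tprod k fun j : (({0}ᶜ : Set (ZMod n))) => x j) =
        PiTensorProduct.tprod k fun j : (({0}ᶜ : Set (ZMod n))) => B.rep g (x j) :=
      PiTensorProduct.map_tprod _ _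
    rw [h3]
    simp only [sub_zero]
    rfl
  exact LinearMap.congr_fun key x

theorem Md.sum_dim_eig {n : ℕ} [NeZero n] {ζ : k} (hζ : IsPrimitiveRoot ζ n)
    (V : Md k (G × Cyc n)) : ∑ i ∈ Finset.range n, (V.eig (ζ ^ i)).dim = V.dim := by
  have hn : (n : k) ≠ 0 := (hζ.neZero').out
  have hζ0 : ζ ≠ 0 := hζ.ne_zero (NeZero.ne n)
  rw [Finset.sum_range]
  let f : V.carrier →ₗ[k] (i : Fin n) → Module.End.eigenspace V.sig (ζ ^ (i : ℕ)) :=
    LinearMap.pi fun i => (negPr V (ζ ^ (i : ℕ))).codRestrict _ fun x =>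
      Module.End.mem_eigenspace_iff.2 (negPr_mem V (root_pow hζ i) x)
  let g : ((i : Fin n) → Module.End.eigenspace V.sig (ζ ^ (i : ℕ))) →ₗ[k] V.carrier :=
    ∑ i, (Submodule.subtype _) ∘ₗ LinearMap.proj i
  have hg : ∀ y, g y = ∑ i, (y i : V.carrier) := by
    intro y
    simp [g]
  have h1 : ∀ x, g (f x) = x := by
    intro x
    rw [hg]
    show ∑ i : Fin n, negPr V (ζ ^ (i : ℕ)) x = x
    simp only [negPr_apply]
    rw [← Finset.smul_sum, Finset.sum_comm]
    have h2 : ∀ j ∈ Finset.range n, ∑ i : Fin n, ((ζ ^ (i : ℕ))⁻¹) ^ j • (V.sig ^ j) x =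
        if j = 0 then (n : k) • x else 0 := by
      intro j hj
      rw [← Finset.sum_smul]
      split_ifs with h0
      · subst h0
        simp
      · have h3 : ∑ i : Fin n, ((ζ ^ (i : ℕ))⁻¹) ^ j = ∑ i ∈ Finset.range n, ((ζ ^ j)⁻¹) ^ i := by
          rw [Finset.sum_range]
          refine Finset.sum_congr rfl fun i _ => ?_
          rw [← inv_pow, ← inv_pow, ← pow_mul, ← pow_mul, mul_comm]
        rw [h3, neg_geom, zero_smul]
        · rw [inv_pow, root_pow hζ, inv_one]
        · intro hcon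
          rw [inv_eq_one] at hcon
          have := hζ.dvd_of_pow_eq_one j hcon
          exact absurd (Nat.le_of_dvd (Nat.pos_of_ne_zero h0) this)
            (not_le.2 (Finset.mem_range.1 hj))
    rw [Finset.sum_congr rfl h2, Finset.sum_ite_eq' (Finset.range n) 0,
      if_pos (Finset.mem_range.2 (Nat.pos_of_ne_zero (NeZero.ne n))), smul_smul,
      inv_mul_cancel₀ hn, one_smul]
  have h4 : ∀ y, f (g y) = y := by
    intro y
    funext i
    apply Subtype.ext
    show negPr V (ζ ^ (i : ℕ)) (g y) = y i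
    rw [hg, map_sum, Finset.sum_eq_single i]
    · exact negPr_self hn V (pow_ne_zero _ hζ0) (Module.End.mem_eigenspace_iff.1 (y i).2)
    · intro j _ hji
      refine negPr_other V (root_pow hζ i) (root_pow hζ j) ?_
        (Module.End.mem_eigenspace_iff.1 (y j).2)
      intro hcon
      exact hji (Fin.ext (hζ.pow_inj j.2 i.2 hcon))
    · intro hi
      exact absurd (Finset.mem_univ i) hi
  have e : V.carrier ≃ₗ[k] (i : Fin n) → Module.End.eigenspace V.sig (ζ ^ (i : ℕ)) :=
    LinearEquiv.ofLinearMap f g (LinearMap.ext h4) (LinearMap.ext h1)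
  have h5 := e.finrank_eq
  rw [Module.finrank_pi_fintype] at h5
  exact h5.symm

end Pool.Agent.H80Green
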