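import Pool.Agent.Helper80.Green.PowerSum
import Pool.Agent.Helper80.Green.Cpow
import Pool.Agent.Helper80.Green.NegTw

/-!
The power sums `z_n` form a ring homomorphism; bounds for modules whose tensor powers grow
subexponentially.
-/

universe u v

open scoped TensorProduct

namespace Pool.Agent.H80Green

variable {k : Type u} [Field k] {G : Type v} [Group G]

namespace Species

variable (s : Species k G) {n : ℕ} [NeZero n] {ζ : k} {ξ : ℂ}

lemma z_iso (X Y : Md k G) (h : Md.Iso X Y) :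
    s.tw ζ ξ (X.cpow n) = s.tw ζ ξ (Y.cpow n) :=
  s.tw_iso ζ ξ _ _ (Md.cpow_iso h n)

lemma z_tensor (hζ : IsPrimitiveRoot ζ n) (hξ : IsPrimitiveRoot ξ n) (X Y : Md k G) :
    s.tw ζ ξ ((X.tensor Y).cpow n) = s.tw ζ ξ (X.cpow n) * s.tw ζ ξ (Y.cpow n) := by
  rw [s.tw_iso ζ ξ _ _ (Md.cpow_tensor X Y n)]
  exact (s.twist hζ hξ).mul _ _

lemma z_triv (hζ : IsPrimitiveRoot ζ n) (hξ : IsPrimitiveRoot ξ n) :
    s.tw ζ ξ ((Md.triv k G).cpow n) = 1 := by
  rw [s.tw_iso ζ ξ _ _ (Md.cpow_triv n)]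
  exact (s.twist hζ hξ).one

lemma z_tpow (hζ : IsPrimitiveRoot ζ n) (hξ : IsPrimitiveRoot ξ n) (X : Md k G) (m : ℕ) :
    s.tw ζ ξ ((X.tpow m).cpow n) = s.tw ζ ξ (X.cpow n) ^ m := by
  induction m with
  | zero => rw [pow_zero]; exact s.z_triv hζ hξ
  | succ m ih => rw [pow_succ, ← ih]; exact s.z_tensor hζ hξ _ _

lemma z_prod (hn : Odd n) (hζ : IsPrimitiveRoot ζ n) (hξ : IsPrimitiveRoot ξ n) (X Y : Md k G) :
    s.tw ζ ξ ((X.prod Y).cpow n) = s.tw ζ ξ (X.cpow n) + s.tw ζ ξ (Y.cpow n) := by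
  obtain ⟨t, -, ht⟩ := s.exists_eser X
  obtain ⟨r, -, hr⟩ := s.exists_eser Y
  rw [s.tw_cpow hn hζ hξ X t ht, s.tw_cpow hn hζ hξ Y r hr,
    s.tw_cpow hn hζ hξ (X.prod Y) (Sum.elim t r), Fintype.sum_sum_type]
  · simp
  · rw [eser_prod, ht, hr, Fintype.prod_sum_type]
    simp

lemma z_pi (hn : Odd n) (hζ : IsPrimitiveRoot ζ n) (hξ : IsPrimitiveRoot ξ n)
    {ι : Type} [Fintype ι] (Y : ι → Md k G) :
    s.tw ζ ξ ((Md.pi Y).cpow n) = ∑ i, s.tw ζ ξ ((Y i).cpow n) :=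
  add_pi (fun X => s.tw ζ ξ (X.cpow n)) (fun X Y h => s.z_iso X Y h)
    (fun X Y => s.z_prod hn hζ hξ X Y) Y

lemma z_neg (hζ : IsPrimitiveRoot ζ n) (B : Md k G) (hB : s.Negligible B) :
    s.tw ζ ξ (B.cpow n) = 0 := by
  apply Finset.sum_eq_zero
  intro i _
  obtain ⟨Y, C', h⟩ := Md.cpow_eig_summand B hζ i
  rw [(hB Y _ C' h).1, mul_zero]

lemma z_le (hs : s.DimBounded) (hζ : IsPrimitiveRoot ζ n) (hξ : IsPrimitiveRoot ξ n)
    (X : Md k G) : ‖s.tw ζ ξ (X.cpow n)‖ ≤ (X.dim : ℝ) ^ n := by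
  have h1 : ‖ξ‖ = 1 := hξ.norm'_eq_one (NeZero.ne n)
  calc ‖s.tw ζ ξ (X.cpow n)‖
      ≤ ∑ i ∈ Finset.range n, ‖ξ ^ i * s.val ((X.cpow n).eig (ζ ^ i))‖ := norm_sum_le _ _
    _ ≤ ∑ i ∈ Finset.range n, (((X.cpow n).eig (ζ ^ i)).dim : ℝ) := by
        apply Finset.sum_le_sum
        intro i _
        rw [norm_mul, norm_pow, h1, one_pow, one_mul]
        exact hs.le _
    _ = (X.dim : ℝ) ^ n := by
        rw [← Nat.cast_sum, Md.sum_dim_eig hζ, Md.dim_cpow, Nat.cast_pow]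

/-- `X` has subexponentially growing tensor powers modulo negligible modules: for every `ε > 0`
some tensor power `X ^ ⊗ m` is a direct sum of modules of dimension at most `exp (ε m)` and a
module negligible for `s`. -/
def Subexp (s : Species k G) (X : Md k G) : Prop :=
  ∀ ε : ℝ, 0 < ε → ∃ m : ℕ, 0 < m ∧ ∃ (r : ℕ) (W : Fin r → Md k G) (B : Md k G),
    Md.Iso (X.tpow m) ((Md.pi W).prod B) ∧ (∀ i, ((W i).dim : ℝ) ≤ Real.exp (ε * m)) ∧
      s.Negligible B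

/-- Power sums of a module with subexponentially growing tensor powers. -/
theorem z_bound (hs : s.DimBounded) (hn : Odd n) (hζ : IsPrimitiveRoot ζ n)
    (hξ : IsPrimitiveRoot ξ n) (X : Md k G) (hX : s.Subexp X) :
    ‖s.tw ζ ξ (X.cpow n)‖ ≤ X.dim := by
  set z := s.tw ζ ξ (X.cpow n) with hz
  have hn0 : 0 < n := NeZero.pos n
  have key : ∀ ε : ℝ, 0 < ε → ‖z‖ ≤ Real.exp (ε * (n - 1 : ℕ)) * X.dim := by
    intro ε hε
    obtain ⟨m, hm, r, W, B, hiso, hW, hB⟩ := hX ε hε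
    have h1 : z ^ m = ∑ i, s.tw ζ ξ ((W i).cpow n) := by
      rw [hz, ← s.z_tpow hζ hξ, s.z_iso _ _ hiso, s.z_prod hn hζ hξ, s.z_neg hζ B hB, add_zero,
        s.z_pi hn hζ hξ]
    have h2 : ‖z‖ ^ m ≤ (Real.exp (ε * (n - 1 : ℕ)) * X.dim) ^ m := by
      calc ‖z‖ ^ m = ‖∑ i, s.tw ζ ξ ((W i).cpow n)‖ := by rw [← norm_pow, h1]
        _ ≤ ∑ i, ‖s.tw ζ ξ ((W i).cpow n)‖ := norm_sum_le _ _
        _ ≤ ∑ i, Real.exp (ε * m) ^ (n - 1) * ((W i).dim : ℝ) := by
            apply Finset.sum_le_sum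
            intro i _
            refine (s.z_le hs hζ hξ (W i)).trans ?_
            have : (W i).dim ^ n = (W i).dim ^ (n - 1) * (W i).dim := by
              rw [← pow_succ, Nat.sub_add_cancel hn0]
            have h3 : ((W i).dim : ℝ) ^ n = ((W i).dim : ℝ) ^ (n - 1) * (W i).dim := by
              exact_mod_cast this
            rw [h3]
            exact mul_le_mul_of_nonneg_right
              (pow_le_pow_left₀ (Nat.cast_nonneg _) (hW i) _) (Nat.cast_nonneg _)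
        _ = Real.exp (ε * m) ^ (n - 1) * ∑ i, ((W i).dim : ℝ) := by rw [Finset.mul_sum]
        _ ≤ Real.exp (ε * m) ^ (n - 1) * (X.dim : ℝ) ^ m := by
            apply mul_le_mul_of_nonneg_left _ (by positivity)
            have h4 := hiso.dim_eq
            rw [Md.dim_tpow, Md.dim_prod, Md.dim_pi] at h4
            have h5 : ∑ i, (W i).dim ≤ X.dim ^ m := by omega
            exact_mod_cast h5
        _ = (Real.exp (ε * (n - 1 : ℕ)) * X.dim) ^ m := by
            rw [mul_pow, ← Real.exp_nat_mul, ← Real.exp_nat_mul]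
            congr 2
            ring
    exact le_of_pow_le_pow_left₀ hm.ne' (by positivity) h2
  have hlim : Filter.Tendsto (fun ε : ℝ => Real.exp (ε * (n - 1 : ℕ)) * (X.dim : ℝ))
      (nhdsWithin 0 (Set.Ioi 0)) (nhds (Real.exp (0 * (n - 1 : ℕ)) * (X.dim : ℝ))) := by
    apply Filter.Tendsto.mono_left _ nhdsWithin_le_nhds
    exact (Continuous.tendsto (by fun_prop) _)
  rw [zero_mul, Real.exp_zero, one_mul] at hlim
  refine ge_of_tendsto hlim ?_
  filter_upwards [self_mem_nhdsWithin] with ε hε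
  exact key ε hε

end Species

end Pool.Agent.H80Green
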