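import Pool.Agent.Helper80.Green.Basic

/-!
Modules over `G × C_n`, eigenspaces of the generator of `C_n`, the twisted trace of a species,
the cyclic tensor power, and the induced module.
-/

universe u v

open scoped TensorProduct

namespace Pool.Agent.H80Green

variable {k : Type u} [Field k] {G : Type v} [Group G]

/-- The cyclic group of order `n`, written multiplicatively. -/
abbrev Cyc (n : ℕ) : Type := Multiplicative (ZMod n)

/-- The element `c` of the cyclic group. -/
abbrev cyc {n : ℕ} (c : ZMod n) : Cyc n := Multiplicative.ofAdd c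

namespace Md

/-- The generator of `C_n` acting on a module over `G × C_n`. -/
noncomputable def sig {n : ℕ} (V : Md k (G × Cyc n)) : Module.End k V.carrier :=
  V.rep (1, cyc 1)

lemma sig_comm {n : ℕ} (V : Md k (G × Cyc n)) (g : G) (c : Cyc n) (x : V.carrier) :
    V.sig (V.rep (g, c) x) = V.rep (g, c) (V.sig x) := by
  have h : V.rep (1, cyc 1) * V.rep (g, c) = V.rep (g, c) * V.rep (1, cyc 1) := by
    rw [← map_mul, ← map_mul]
    simp [mul_comm]
  exact LinearMap.congr_fun h x

lemma eig_stable {n : ℕ} (V : Md k (G × Cyc n)) (c : k) (g : G) :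
    ∀ x ∈ Module.End.eigenspace V.sig c, V.rep (g, 1) x ∈ Module.End.eigenspace V.sig c := by
  intro x hx
  rw [Module.End.mem_eigenspace_iff] at hx ⊢
  rw [sig_comm, hx, map_smul]

/-- The eigenspace of the generator of `C_n` for the eigenvalue `c`, as a `kG`-module. -/
noncomputable abbrev eig {n : ℕ} (V : Md k (G × Cyc n)) (c : k) : Md k G where
  carrier := Module.End.eigenspace V.sig c
  rep :=
    { toFun := fun g => (V.rep (g, 1)).restrict (eig_stable V c g)
      map_one' := by
        ext x
        have h : V.rep ((1 : G), (1 : Cyc n)) = 1 := map_one V.rep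
        simp [LinearMap.restrict_apply, h]
      map_mul' := fun g h => by
        ext x
        have h1 : V.rep (g * h, (1 : Cyc n)) = V.rep (g, 1) * V.rep (h, 1) := by
          rw [← map_mul]
          simp
        simp [LinearMap.restrict_apply, h1] }

lemma eig_rep {n : ℕ} (V : Md k (G × Cyc n)) (c : k) (g : G)
    (x : Module.End.eigenspace V.sig c) :
    ((show Module.End.eigenspace V.sig c from (V.eig c).rep g x) : V.carrier) =
      V.rep (g, 1) (x : V.carrier) := rfl

/-- The `kG`-module `U` made into a module over `G × C_n`, the generator acting by the scalar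
`c`, where `c ^ n = 1`. -/
noncomputable abbrev infl (U : Md k G) {n : ℕ} [NeZero n] (c : k) (hc : c ^ n = 1) :
    Md k (G × Cyc n) where
  carrier := U.carrier
  rep :=
    { toFun := fun g => c ^ (Multiplicative.toAdd g.2).val • U.rep g.1
      map_one' := by
        ext x
        simp
      map_mul' := fun g h => by
        have h1 : c ^ (Multiplicative.toAdd (g * h).2).val =
            c ^ (Multiplicative.toAdd g.2).val * c ^ (Multiplicative.toAdd h.2).val := by
          rw [← pow_add, Prod.snd_mul, toAdd_mul, ZMod.val_add]
          exact (pow_eq_pow_mod _ hc).symm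
        rw [h1, Prod.fst_mul, map_mul]
        ext x
        rw [mul_comm]
        simp only [LinearMap.smul_apply, Module.End.mul_apply, map_smul, mul_smul] }

lemma infl_rep (U : Md k G) {n : ℕ} [NeZero n] (c : k) (hc : c ^ n = 1) (g : G) (z : ZMod n)
    (x : U.carrier) :
    ((U.infl c hc).rep (g, cyc z) : Module.End k U.carrier) x = c ^ z.val • U.rep g x := rfl

/-- The induced module: `n` copies of `X`, cyclically permuted by `C_n`. -/
noncomputable abbrev ind (X : Md k G) (n : ℕ) [NeZero n] : Md k (G × Cyc n) where
  carrier := ZMod n → X.carrier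
  rep :=
    { toFun := fun g => LinearMap.pi fun z => X.rep g.1 ∘ₗ
        LinearMap.proj (z - Multiplicative.toAdd g.2)
      map_one' := by
        ext x z
        simp
      map_mul' := fun g h => by
        ext x z
        simp [sub_sub] }

lemma ind_rep (X : Md k G) (n : ℕ) [NeZero n] (g : G) (c : ZMod n)
    (y : ZMod n → X.carrier) (z : ZMod n) :
    ((X.ind n).rep (g, cyc c) : Module.End k (ZMod n → X.carrier)) y z =
      X.rep g (y (z - c)) := rfl

/-- The rotation of a tensor power indexed by `ZMod n`. -/
noncomputable def rot (M : Type u) [AddCommGroup M] [Module k M] (n : ℕ) (c : ZMod n) :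
    Module.End k (⨂[k] _ : ZMod n, M) :=
  (PiTensorProduct.reindex k (fun _ : ZMod n => M) (Equiv.addRight c)).toLinearMap

lemma rot_tprod (M : Type u) [AddCommGroup M] [Module k M] (n : ℕ) (c : ZMod n)
    (x : ZMod n → M) :
    rot (k := k) M n c (PiTensorProduct.tprod k x) =
      PiTensorProduct.tprod k fun z => x (z - c) := by
  simp [rot, PiTensorProduct.reindex_tprod, sub_eq_add_neg]

/-- The cyclic tensor power: the `n`-th tensor power of `X`, indexed by `ZMod n`, with the
diagonal action of `G` and the action of `C_n` by rotation of the factors. -/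
noncomputable abbrev cpow (X : Md k G) (n : ℕ) [NeZero n] : Md k (G × Cyc n) where
  carrier := ⨂[k] _ : ZMod n, X.carrier
  rep :=
    { toFun := fun g => PiTensorProduct.map (fun _ => X.rep g.1) ∘ₗ
        rot X.carrier n (Multiplicative.toAdd g.2)
      map_one' := by
        apply PiTensorProduct.ext
        ext x
        simp only [LinearMap.compMultilinearMap_apply, LinearMap.comp_apply, rot_tprod,
          PiTensorProduct.map_tprod, Module.End.one_apply]
        congr 1
        funext z
        exact (LinearMap.congr_fun (map_one X.rep) _).trans (congrArg x (sub_zero z))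
      map_mul' := fun g h => by
        apply PiTensorProduct.ext
        ext x
        simp only [LinearMap.compMultilinearMap_apply, LinearMap.comp_apply, rot_tprod,
          PiTensorProduct.map_tprod, Module.End.mul_apply]
        congr 1
        funext z
        rw [Prod.fst_mul, map_mul, Prod.snd_mul, toAdd_mul, ← sub_sub]
        rfl }

lemma cpow_rep (X : Md k G) (n : ℕ) [NeZero n] (g : G) (c : ZMod n) (x : ZMod n → X.carrier) :
    ((X.cpow n).rep (g, cyc c) : Module.End k (⨂[k] _ : ZMod n, X.carrier))
      (PiTensorProduct.tprod k x) = PiTensorProduct.tprod k fun z => X.rep g (x (z - c)) := by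
  have h : ((X.cpow n).rep (g, cyc c) : Module.End k (⨂[k] _ : ZMod n, X.carrier)) =
    PiTensorProduct.map (fun _ => X.rep g) ∘ₗ rot X.carrier n c := rfl
  rw [h, LinearMap.comp_apply, rot_tprod, PiTensorProduct.map_tprod]

end Md

/-- The twisted trace of a species: the sum of `ξ ^ i * s(V_i)` over `i < n`, where `V_i` is the
eigenspace of the generator of `C_n` on `V` for the eigenvalue `ζ ^ i`. -/
noncomputable def Species.tw (s : Species k G) {n : ℕ} (ζ : k) (ξ : ℂ) (V : Md k (G × Cyc n)) :
    ℂ :=
  ∑ i ∈ Finset.range n, ξ ^ i * s.val (V.eig (ζ ^ i))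

lemma root_pow {n : ℕ} {ζ : k} (hζ : IsPrimitiveRoot ζ n) (i : ℕ) : (ζ ^ i) ^ n = 1 := by
  rw [← pow_mul, mul_comm, pow_mul, hζ.pow_eq_one, one_pow]

/-- `f` on each of the `n` copies of `M`, followed by the rotation by `c`. -/
noncomputable def rotMap {M : Type u} [AddCommGroup M] [Module k M] (n : ℕ) (f : M →ₗ[k] M)
    (c : ZMod n) : (ZMod n → M) →ₗ[k] (ZMod n → M) :=
  LinearMap.pi fun z => f ∘ₗ LinearMap.proj (z - c)

end Pool.Agent.H80Green
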