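import Pool.Agent.Helper80.Green.Defs

/-!
# Duals (module GR-10)
-/

universe u v

open scoped TensorProduct

namespace Pool.Agent.H80Green

variable {k : Type u} [Field k] {G : Type v} [Group G]

theorem Md.dual_iso {X Y : Md k G} (h : Md.Iso X Y) : Md.Iso X.dual Y.dual := by
  obtain ⟨e, he⟩ := h
  refine ⟨e.symm.dualMap, fun g f => ?_⟩
  refine LinearMap.ext fun y => ?_
  change f (X.rep g⁻¹ (e.symm y)) = f (e.symm (Y.rep g⁻¹ y))
  congr 1
  rw [LinearEquiv.eq_symm_apply, he, LinearEquiv.apply_symm_apply]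

theorem Md.dual_prod (X Y : Md k G) : Md.Iso (X.prod Y).dual (X.dual.prod Y.dual) := by
  refine Md.Iso.symm ⟨Module.dualProdDualEquivDual k X.carrier Y.carrier, ?_⟩
  rintro g ⟨f, f'⟩
  refine LinearMap.ext fun p => ?_
  rfl

theorem Md.dual_tensor (X Y : Md k G) : Md.Iso (X.tensor Y).dual (X.dual.tensor Y.dual) := by
  refine Md.Iso.symm ⟨TensorProduct.dualDistribEquiv k X.carrier Y.carrier, fun g z => ?_⟩
  refine TensorProduct.induction_on z ?_ ?_ ?_
  · rw [map_zero, map_zero, map_zero]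
  · intro f f'
    refine TensorProduct.ext' fun x y => ?_
    rw [Md.tensor_rep]
    rfl
  · intro a b ha hb
    rw [map_add, map_add, ha, hb, map_add, map_add]

theorem Md.dual_triv : Md.Iso (Md.triv k G).dual (Md.triv k G) := by
  refine ⟨(LinearMap.ringLmapEquivSelf k k k), fun g f => ?_⟩
  rfl

theorem Md.dual_dual (X : Md k G) : Md.Iso X.dual.dual X := by
  refine Md.Iso.symm ⟨Module.evalEquiv k X.carrier, fun g x => ?_⟩
  refine LinearMap.ext fun f => ?_
  change f (X.rep g x) = f (X.rep g⁻¹⁻¹ x)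
  rw [inv_inv]

end Pool.Agent.H80Green
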