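import Pool.Agent.Helper80.Green.Defs

/-!
Module GR-5: functoriality of exterior powers, inflated modules, the induced module as a sum of
inflated modules (discrete Fourier transform).
-/

universe u v

open scoped TensorProduct

namespace Pool.Agent.H80Green

variable {k : Type u} [Field k] {G : Type v} [Group G]

theorem Md.ext_iso {X Y : Md k G} (h : Md.Iso X Y) (j : ℕ) : Md.Iso (X.ext j) (Y.ext j) := by
  obtain ⟨e, he⟩ := h
  have h1 : exteriorPower.map j (e : X.carrier →ₗ[k] Y.carrier) ∘ₗ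
      exteriorPower.map j (e.symm : Y.carrier →ₗ[k] X.carrier) = LinearMap.id := by
    rw [← exteriorPower.map_comp, LinearEquiv.comp_symm, exteriorPower.map_id]
  have h2 : exteriorPower.map j (e.symm : Y.carrier →ₗ[k] X.carrier) ∘ₗ
      exteriorPower.map j (e : X.carrier →ₗ[k] Y.carrier) = LinearMap.id := by
    rw [← exteriorPower.map_comp, LinearEquiv.symm_comp, exteriorPower.map_id]
  refine ⟨LinearEquiv.ofLinearMap (exteriorPower.map j (e : X.carrier →ₗ[k] Y.carrier))
    (exteriorPower.map j (e.symm : Y.carrier →ₗ[k] X.carrier)) h1 h2, fun g x => ?_⟩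
  have h3 : exteriorPower.map j (e : X.carrier →ₗ[k] Y.carrier) ∘ₗ exteriorPower.map j (X.rep g) =
      exteriorPower.map j (Y.rep g) ∘ₗ exteriorPower.map j (e : X.carrier →ₗ[k] Y.carrier) := by
    rw [← exteriorPower.map_comp, ← exteriorPower.map_comp]
    congr 1
    exact LinearMap.ext fun x => he g x
  exact LinearMap.congr_fun h3 x

theorem ExtMisc.map_smul_pow {M : Type u} [AddCommGroup M] [Module k M] (f : M →ₗ[k] M) (c : k)
    (j : ℕ) : exteriorPower.map j (c • f) = c ^ j • exteriorPower.map j f := by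
  apply exteriorPower.linearMap_ext
  ext x : 1
  simp only [LinearMap.compAlternatingMap_apply, exteriorPower.map_apply_ιMulti,
    LinearMap.smul_apply]
  have : (⇑(c • f) ∘ x) = fun i => (fun _ : Fin j => c) i • (⇑f ∘ x) i := by
    funext i; simp
  rw [this, AlternatingMap.map_smul_univ]
  simp

theorem Md.ext_infl (X : Md k G) {n : ℕ} [NeZero n] (c : k) (hc : c ^ n = 1) (j : ℕ)
    (hcj : (c ^ j) ^ n = 1) :
    Md.Iso ((X.infl c hc).ext j) ((X.ext j).infl (c ^ j) hcj) := by
  refine ⟨LinearEquiv.refl k _, fun g x => ?_⟩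
  obtain ⟨g, z⟩ := g
  have h := ExtMisc.map_smul_pow (X.rep g) (c ^ (Multiplicative.toAdd z).val) j
  have h2 : (c ^ (Multiplicative.toAdd z).val) ^ j = (c ^ j) ^ (Multiplicative.toAdd z).val := by
    rw [← pow_mul, ← pow_mul, mul_comm]
  rw [h2] at h
  exact LinearMap.congr_fun h x

theorem Md.ext_zero (X : Md k G) : Md.Iso (X.ext 0) (Md.triv k G) := by
  refine ⟨exteriorPower.zeroEquiv k X.carrier, fun g x => ?_⟩
  have := exteriorPower.zeroEquiv_naturality (X.rep g)
  exact LinearMap.congr_fun this x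

theorem Md.ext_one (X : Md k G) : Md.Iso (X.ext 1) X := by
  refine ⟨exteriorPower.oneEquiv k X.carrier, fun g x => ?_⟩
  have := exteriorPower.oneEquiv_naturality (X.rep g)
  exact LinearMap.congr_fun this x

namespace ExtMisc

variable {n : ℕ} [NeZero n] {ζ : k}

/-- power of a root of unity, index in `ZMod n` -/
theorem pow_val_add (hζ : IsPrimitiveRoot ζ n) (i : ℕ) (a b : ZMod n) :
    ζ ^ (i * (a + b).val) = ζ ^ (i * a.val) * ζ ^ (i * b.val) := by
  rw [← pow_add, ← mul_add, pow_mul, pow_mul, ZMod.val_add,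
    ← pow_eq_pow_mod _ (root_pow hζ i)]

theorem sum_pow (hζ : IsPrimitiveRoot ζ n) (a : ZMod n) (ha : a ≠ 0) :
    ∑ i : Fin n, ζ ^ ((i : ℕ) * a.val) = 0 := by
  rw [Fin.sum_univ_eq_sum_range (fun i => ζ ^ (i * a.val)) n]
  have h1 : ζ ^ a.val ≠ 1 := by
    intro h
    have h2 : n ∣ a.val := (hζ.pow_eq_one_iff_dvd _).mp h
    have h3 := Nat.eq_zero_of_dvd_of_lt h2 (ZMod.val_lt a)
    exact ha ((ZMod.val_eq_zero a).mp h3)
  have h2 : (∑ i ∈ Finset.range n, (ζ ^ a.val) ^ i) * (ζ ^ a.val - 1) = 0 := by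
    rw [geom_sum_mul, root_pow hζ, sub_self]
  rcases mul_eq_zero.mp h2 with h3 | h3
  · rw [← h3]
    refine Finset.sum_congr rfl fun i _ => ?_
    rw [← pow_mul, mul_comm]
  · exact absurd (sub_eq_zero.mp h3) h1

/-- the discrete Fourier transform -/
noncomputable def dft (ζ : k) (n : ℕ) [NeZero n] (M : Type u) [AddCommGroup M] [Module k M] :
    (ZMod n → M) →ₗ[k] (Fin n → M) where
  toFun y i := ∑ z : ZMod n, ζ ^ ((i : ℕ) * z.val) • y z
  map_add' y y' := by
    funext i
    simp [smul_add, Finset.sum_add_distrib]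
  map_smul' c y := by
    funext i
    simp only [Pi.smul_apply, RingHom.id_apply, Finset.smul_sum]
    refine Finset.sum_congr rfl fun z _ => ?_
    rw [smul_comm]

/-- the inverse transform -/
noncomputable def idft (ζ : k) (n : ℕ) [NeZero n] (M : Type u) [AddCommGroup M] [Module k M] :
    (Fin n → M) →ₗ[k] (ZMod n → M) where
  toFun x z := (n : k)⁻¹ • ∑ i : Fin n, ζ ^ ((i : ℕ) * (-z).val) • x i
  map_add' y y' := by
    funext i
    simp [smul_add, Finset.sum_add_distrib]
  map_smul' c y := by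
    funext i
    simp only [Pi.smul_apply, RingHom.id_apply, Finset.smul_sum]
    refine Finset.sum_congr rfl fun z _ => ?_
    simp only [smul_smul]
    congr 1
    ring

theorem idft_dft (hζ : IsPrimitiveRoot ζ n) (M : Type u) [AddCommGroup M] [Module k M]
    (y : ZMod n → M) : idft ζ n M (dft ζ n M y) = y := by
  funext w
  have hn : (n : k) ≠ 0 := (hζ.neZero').out
  show (n : k)⁻¹ • ∑ i : Fin n, ζ ^ ((i : ℕ) * (-w).val) •
    (∑ z : ZMod n, ζ ^ ((i : ℕ) * z.val) • y z) = y w
  simp only [Finset.smul_sum, smul_smul, ← pow_val_add hζ]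
  rw [Finset.sum_comm]
  have h1 : ∀ z : ZMod n, ∑ i : Fin n, ((n : k)⁻¹ * ζ ^ ((i : ℕ) * (-w + z).val)) • y z =
      if z = w then y w else 0 := by
    intro z
    rw [← Finset.sum_smul, ← Finset.mul_sum]
    by_cases hz : z = w
    · subst hz
      simp [hn]
    · rw [if_neg hz, sum_pow hζ _ (fun h => hz (by rw [← sub_eq_zero, ← h]; ring))]
      simp
  rw [Finset.sum_congr rfl fun z _ => h1 z]
  simp

theorem dft_injective (hζ : IsPrimitiveRoot ζ n) (M : Type u) [AddCommGroup M] [Module k M] :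
    Function.Injective (dft ζ n M) :=
  Function.LeftInverse.injective (g := idft ζ n M) (idft_dft hζ M)

end ExtMisc

open ExtMisc in
theorem Md.ind_iso_pi (X : Md k G) {n : ℕ} [NeZero n] {ζ : k} (hζ : IsPrimitiveRoot ζ n) :
    Md.Iso (X.ind n) (Md.pi fun i : Fin n => X.infl (ζ ^ (i : ℕ)) (root_pow hζ i)) := by
  have hdim : Module.finrank k (ZMod n → X.carrier) = Module.finrank k (Fin n → X.carrier) := by
    rw [Module.finrank_pi_fintype, Module.finrank_pi_fintype]
    simp
  refine ⟨LinearEquiv.ofInjectiveOfFinrankEq (dft ζ n X.carrier) (dft_injective hζ X.carrier) hdim,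
    fun g y => ?_⟩
  obtain ⟨g, c⟩ := g
  funext i
  show ∑ z : ZMod n, ζ ^ ((i : ℕ) * z.val) • X.rep g (y (z - Multiplicative.toAdd c)) =
    (ζ ^ (i : ℕ)) ^ (Multiplicative.toAdd c).val • X.rep g (∑ z : ZMod n, ζ ^ ((i : ℕ) * z.val) • y z)
  rw [map_sum, Finset.smul_sum]
  refine (Fintype.sum_equiv (Equiv.addRight (Multiplicative.toAdd c)) _ _ fun z => ?_).symm
  simp only [Equiv.coe_addRight, add_sub_cancel_right, map_smul, smul_smul]
  rw [pow_val_add hζ, ← pow_mul, mul_comm]

end Pool.Agent.H80Green
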