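import Pool.Agent.Helper80.Green.Defs

/-!
# GR-4: the exterior powers of a direct sum
-/

universe u v

open scoped TensorProduct

namespace Pool.Agent.H80Green

variable {k : Type u} [Field k] {G : Type v} [Group G]

namespace EP

variable {M N : Type u} [AddCommGroup M] [Module k M] [AddCommGroup N] [Module k N]

theorem map_coe (n : ℕ) (f : M →ₗ[k] N) (x : ⋀[k]^n M) :
    ((exteriorPower.map n f x : ⋀[k]^n N) : ExteriorAlgebra k N) =
      ExteriorAlgebra.map f (x : ExteriorAlgebra k M) := by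
  have h : (Submodule.subtype _ ∘ₗ exteriorPower.map n f : ⋀[k]^n M →ₗ[k] ExteriorAlgebra k N) =
      (ExteriorAlgebra.map f).toLinearMap ∘ₗ Submodule.subtype _ := by
    apply exteriorPower.linearMap_ext
    ext m
    simp only [LinearMap.compAlternatingMap_apply, LinearMap.comp_apply, Submodule.subtype_apply,
      exteriorPower.map_apply_ιMulti, exteriorPower.ιMulti_apply_coe, AlgHom.toLinearMap_apply,
      ExteriorAlgebra.map_apply_ιMulti]
  exact LinearMap.congr_fun h x

theorem map_mem (n : ℕ) (f : M →ₗ[k] N) (x : ⋀[k]^n M) :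
    ExteriorAlgebra.map f (x : ExteriorAlgebra k M) ∈ ⋀[k]^n N := by
  rw [← map_coe]
  exact (exteriorPower.map n f x).2

theorem mul_mem {a b n : ℕ} (h : a + b = n) {x y : ExteriorAlgebra k M} (hx : x ∈ ⋀[k]^a M)
    (hy : y ∈ ⋀[k]^b M) : x * y ∈ ⋀[k]^n M := by
  rw [← h]
  show x * y ∈ LinearMap.range (ExteriorAlgebra.ι k) ^ (a + b)
  rw [pow_add]
  exact Submodule.mul_mem_mul hx hy

/-- the product map -/
noncomputable def mm (M N : Type u) [AddCommGroup M] [Module k M] [AddCommGroup N] [Module k N]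
    {a b n : ℕ} (h : a + b = n) : ⋀[k]^a M →ₗ[k] ⋀[k]^b N →ₗ[k] ⋀[k]^n (M × N) :=
  LinearMap.mk₂ k (fun x y => ⟨ExteriorAlgebra.map (LinearMap.inl k M N) (x : ExteriorAlgebra k M) *
      ExteriorAlgebra.map (LinearMap.inr k M N) (y : ExteriorAlgebra k N),
      mul_mem h (map_mem a _ x) (map_mem b _ y)⟩)
    (fun x x' y => Subtype.ext (by simp [add_mul]))
    (fun c x y => Subtype.ext (by simp))
    (fun x y y' => Subtype.ext (by simp [mul_add]))
    (fun c x y => Subtype.ext (by simp))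

theorem mm_coe {a b n : ℕ} (h : a + b = n) (x : ⋀[k]^a M) (y : ⋀[k]^b N) :
    ((mm M N h x y : ⋀[k]^n (M × N)) : ExteriorAlgebra k (M × N)) =
      ExteriorAlgebra.map (LinearMap.inl k M N) (x : ExteriorAlgebra k M) *
      ExteriorAlgebra.map (LinearMap.inr k M N) (y : ExteriorAlgebra k N) := rfl

theorem mm_equiv {a b n : ℕ} (h : a + b = n) (f : M →ₗ[k] M) (g : N →ₗ[k] N) (x : ⋀[k]^a M)
    (y : ⋀[k]^b N) : mm M N h (exteriorPower.map a f x) (exteriorPower.map b g y) =
      exteriorPower.map n (f.prodMap g) (mm M N h x y) := by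
  apply Subtype.ext
  rw [mm_coe, map_coe, map_coe, map_coe, mm_coe, map_mul]
  have h1 : ∀ z : ExteriorAlgebra k M, ExteriorAlgebra.map (LinearMap.inl k M N)
      (ExteriorAlgebra.map f z) = ExteriorAlgebra.map (f.prodMap g)
        (ExteriorAlgebra.map (LinearMap.inl k M N) z) := by
    intro z
    rw [← AlgHom.comp_apply, ← AlgHom.comp_apply, ExteriorAlgebra.map_comp_map,
      ExteriorAlgebra.map_comp_map]
    congr 2
    ext m <;> simp
  have h2 : ∀ z : ExteriorAlgebra k N, ExteriorAlgebra.map (LinearMap.inr k M N)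
      (ExteriorAlgebra.map g z) = ExteriorAlgebra.map (f.prodMap g)
        (ExteriorAlgebra.map (LinearMap.inr k M N) z) := by
    intro z
    rw [← AlgHom.comp_apply, ← AlgHom.comp_apply, ExteriorAlgebra.map_comp_map,
      ExteriorAlgebra.map_comp_map]
    congr 2
    ext m <;> simp
  rw [h1, h2]

theorem nsmul_le {R A : Type*} [CommSemiring R] [Semiring A] [Algebra R A] (n : ℕ)
    (S : Submodule R A) : n • S ≤ S := by
  induction n with
  | zero => rw [zero_smul]; exact bot_le
  | succ n ih => rw [succ_nsmul]; exact sup_le ih le_rfl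

theorem sum_le {R A ι : Type*} [CommSemiring R] [Semiring A] [Algebra R A] (s : Finset ι)
    (f : ι → Submodule R A) (W : Submodule R A) (h : ∀ i ∈ s, f i ≤ W) : ∑ i ∈ s, f i ≤ W := by
  classical
  induction s using Finset.induction_on with
  | empty => rw [Finset.sum_empty]; exact bot_le
  | insert a s ha ih =>
    rw [Finset.sum_insert ha]
    exact sup_le (h a (Finset.mem_insert_self a s))
      (ih fun i hi => h i (Finset.mem_insert_of_mem hi))

/-- the sum of all the product maps -/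
noncomputable def Phi (M N : Type u) [AddCommGroup M] [Module k M] [AddCommGroup N] [Module k N]
    (n : ℕ) : ((p : {p // p ∈ Finset.HasAntidiagonal.antidiagonal n}) →
      (⋀[k]^p.1.1 M) ⊗[k] (⋀[k]^p.1.2 N)) →ₗ[k] ⋀[k]^n (M × N) :=
  ∑ p : {p // p ∈ Finset.HasAntidiagonal.antidiagonal n},
    (TensorProduct.lift (mm M N (Finset.HasAntidiagonal.mem_antidiagonal.1 p.2))) ∘ₗ LinearMap.proj p

theorem Phi_single (n : ℕ) (p : {p // p ∈ Finset.HasAntidiagonal.antidiagonal n})
    (t : (⋀[k]^p.1.1 M) ⊗[k] (⋀[k]^p.1.2 N)) :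
    Phi (k := k) M N n (Pi.single p t) =
      TensorProduct.lift (mm M N (Finset.HasAntidiagonal.mem_antidiagonal.1 p.2)) t := by
  classical
  rw [Phi, LinearMap.sum_apply, Finset.sum_eq_single p]
  · simp
  · intro q _ hq
    simp [Pi.single_eq_of_ne hq]
  · intro h
    exact absurd (Finset.mem_univ _) h

theorem Phi_surj (n : ℕ) : Function.Surjective (Phi (k := k) M N n) := by
  classical
  set W : Submodule k (ExteriorAlgebra k (M × N)) :=
    (LinearMap.range (Phi (k := k) M N n)).map (Submodule.subtype _) with hW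
  set A : Submodule k (ExteriorAlgebra k (M × N)) :=
    (LinearMap.range (ExteriorAlgebra.ι k : M →ₗ[k] _)).map
      (ExteriorAlgebra.map (LinearMap.inl k M N)).toLinearMap with hA
  set B : Submodule k (ExteriorAlgebra k (M × N)) :=
    (LinearMap.range (ExteriorAlgebra.ι k : N →ₗ[k] _)).map
      (ExteriorAlgebra.map (LinearMap.inr k M N)).toLinearMap with hB
  have memA : ∀ x, x ∈ A ↔ ∃ m : M, x = ExteriorAlgebra.ι k ((m, 0) : M × N) := by
    intro x
    rw [hA, Submodule.mem_map]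
    constructor
    · rintro ⟨_, ⟨m, rfl⟩, rfl⟩
      exact ⟨m, by simp⟩
    · rintro ⟨m, rfl⟩
      exact ⟨_, ⟨m, rfl⟩, by simp⟩
  have memB : ∀ x, x ∈ B ↔ ∃ m : N, x = ExteriorAlgebra.ι k ((0, m) : M × N) := by
    intro x
    rw [hB, Submodule.mem_map]
    constructor
    · rintro ⟨_, ⟨m, rfl⟩, rfl⟩
      exact ⟨m, by simp⟩
    · rintro ⟨m, rfl⟩
      exact ⟨_, ⟨m, rfl⟩, by simp⟩
  have hAB : LinearMap.range (ExteriorAlgebra.ι k : M × N →ₗ[k] _) ≤ A + B := by
    rintro _ ⟨⟨m, m'⟩, rfl⟩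
    have h1 : ((m, m') : M × N) = (m, 0) + (0, m') := by simp
    rw [h1, map_add]
    exact Submodule.add_mem_sup ((memA _).2 ⟨m, rfl⟩) ((memB _).2 ⟨m', rfl⟩)
  have hanti : ∀ x ∈ A, ∀ y ∈ B, x * y = -(y * x) := by
    intro x hx y hy
    obtain ⟨m, rfl⟩ := (memA x).1 hx
    obtain ⟨m', rfl⟩ := (memB y).1 hy
    exact eq_neg_of_add_eq_zero_left (ExteriorAlgebra.ι_add_mul_swap _ _)
  have hcomm : Commute A B := by
    show A * B = B * A
    apply le_antisymm
    · rw [Submodule.mul_le]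
      intro x hx y hy
      rw [hanti x hx y hy]
      exact Submodule.neg_mem _ (Submodule.mul_mem_mul hy hx)
    · rw [Submodule.mul_le]
      intro y hy x hx
      have : y * x = -(x * y) := by rw [hanti x hx y hy, neg_neg]
      rw [this]
      exact Submodule.neg_mem _ (Submodule.mul_mem_mul hx hy)
  have hpow : ∀ a : ℕ, A ^ a = (⋀[k]^a M).map
      (ExteriorAlgebra.map (LinearMap.inl k M N)).toLinearMap := by
    intro a
    rw [hA, Submodule.map_pow]
  have hpow' : ∀ b : ℕ, B ^ b = (⋀[k]^b N).map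
      (ExteriorAlgebra.map (LinearMap.inr k M N)).toLinearMap := by
    intro b
    rw [hB, Submodule.map_pow]
  have hle : (A + B) ^ n ≤ W := by
    rw [hcomm.add_pow']
    refine sum_le _ _ _ fun p hp => ?_
    refine (nsmul_le _ _).trans ?_
    rw [Submodule.mul_le, hpow, hpow']
    rintro _ ⟨x, hx, rfl⟩ _ ⟨y, hy, rfl⟩
    rw [hW, Submodule.mem_map]
    refine ⟨Phi (k := k) M N n (Pi.single ⟨p, hp⟩ ((⟨x, hx⟩ : ⋀[k]^p.1 M) ⊗ₜ[k]
      (⟨y, hy⟩ : ⋀[k]^p.2 N))), ⟨_, rfl⟩, ?_⟩
    rw [Phi_single, TensorProduct.lift.tmul]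
    rfl
  intro z
  have hz : (z : ExteriorAlgebra k (M × N)) ∈ W :=
    hle (pow_le_pow_left' hAB n z.2)
  rw [hW, Submodule.mem_map] at hz
  obtain ⟨z', ⟨t, ht⟩, hz'⟩ := hz
  refine ⟨t, ?_⟩
  rw [ht]
  exact Subtype.ext hz'

end EP

open EP

theorem Md.ext_prod_iso (X Y : Md k G) (N : ℕ) :
    Md.Iso (Md.pi fun p : {p // p ∈ Finset.HasAntidiagonal.antidiagonal N} =>
      (X.ext p.1.1).tensor (Y.ext p.1.2)) ((X.prod Y).ext N) := by
  classical
  have hs := Phi_surj (k := k) (M := X.carrier) (N := Y.carrier) N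
  have hdim : Module.finrank k ((p : {p // p ∈ Finset.HasAntidiagonal.antidiagonal N}) →
      (⋀[k]^p.1.1 X.carrier) ⊗[k] (⋀[k]^p.1.2 Y.carrier)) =
      Module.finrank k (⋀[k]^N (X.carrier × Y.carrier)) := by
    rw [Module.finrank_pi_fintype]
    have h1 : ∀ p : {p // p ∈ Finset.HasAntidiagonal.antidiagonal N},
        Module.finrank k ((⋀[k]^p.1.1 X.carrier) ⊗[k] (⋀[k]^p.1.2 Y.carrier)) =
        (Module.finrank k X.carrier).choose p.1.1 * (Module.finrank k Y.carrier).choose p.1.2 := by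
      intro p
      rw [Module.finrank_tensorProduct, exteriorPower.finrank_eq, exteriorPower.finrank_eq]
    rw [Finset.sum_congr rfl fun p _ => h1 p, exteriorPower.finrank_eq, Module.finrank_prod,
      Nat.add_choose_eq]
    exact Finset.sum_coe_sort (Finset.HasAntidiagonal.antidiagonal N)
      (fun p : ℕ × ℕ => (Module.finrank k X.carrier).choose p.1 *
        (Module.finrank k Y.carrier).choose p.2)
  have hi : Function.Injective (Phi (k := k) X.carrier Y.carrier N) :=
    (LinearMap.injective_iff_surjective_of_finrank_eq_finrank (K := k)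
      (V := (p : {p // p ∈ Finset.HasAntidiagonal.antidiagonal N}) →
      (⋀[k]^p.1.1 X.carrier) ⊗[k] (⋀[k]^p.1.2 Y.carrier)) (V₂ := ⋀[k]^N (X.carrier × Y.carrier))
      hdim (f := Phi (k := k) X.carrier Y.carrier N)).2 hs
  have hb : Function.Bijective (Phi (k := k) X.carrier Y.carrier N) := ⟨hi, hs⟩
  refine ⟨LinearEquiv.ofBijective (Phi (k := k) X.carrier Y.carrier N) hb, ?_⟩
  intro g x
  show Phi (k := k) X.carrier Y.carrier N _ = exteriorPower.map N ((X.rep g).prodMap (Y.rep g))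
    (Phi (k := k) X.carrier Y.carrier N x)
  have key : ∀ p : {p // p ∈ Finset.HasAntidiagonal.antidiagonal N},
      TensorProduct.lift (mm X.carrier Y.carrier (Finset.HasAntidiagonal.mem_antidiagonal.1 p.2)) ∘ₗ
        (TensorProduct.map (exteriorPower.map p.1.1 (X.rep g))
          (exteriorPower.map p.1.2 (Y.rep g))) =
      (exteriorPower.map N ((X.rep g).prodMap (Y.rep g))) ∘ₗ
        TensorProduct.lift (mm X.carrier Y.carrier (Finset.HasAntidiagonal.mem_antidiagonal.1 p.2)) := by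
    intro p
    apply TensorProduct.ext'
    intro a b
    simp only [LinearMap.comp_apply, TensorProduct.map_tmul, TensorProduct.lift.tmul]
    exact mm_equiv _ _ _ _ _
  rw [Phi, LinearMap.sum_apply, LinearMap.sum_apply]
  refine Eq.trans ?_ (map_sum (exteriorPower.map N ((X.rep g).prodMap (Y.rep g))) _ _).symm
  refine Finset.sum_congr rfl fun p _ => ?_
  exact LinearMap.congr_fun (key p) (x p)

theorem Species.val_ext_prod (s : Species k G) (X Y : Md k G) (N : ℕ) :
    s.val ((X.prod Y).ext N) =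
      ∑ ab ∈ Finset.HasAntidiagonal.antidiagonal N, s.val (X.ext ab.1) * s.val (Y.ext ab.2) := by
  rw [← s.iso _ _ (Md.ext_prod_iso X Y N), s.val_pi]
  rw [← Finset.sum_coe_sort (Finset.HasAntidiagonal.antidiagonal N)
    (fun ab : ℕ × ℕ => s.val (X.ext ab.1) * s.val (Y.ext ab.2))]
  refine Finset.sum_congr rfl fun p _ => ?_
  exact s.mul _ _

end Pool.Agent.H80Green
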