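import Mathlib

/-!
Reversing a polynomial with constant term one inverts its roots.
-/

namespace Pool.Agent.H80Green

open Polynomial in
theorem reversed_roots (D : ℕ) (e : ℕ → ℂ) (t : Fin D → ℂ) (ht : ∀ a, t a ≠ 0)
    (h : (∑ j ∈ Finset.range (D + 1), C (e j) * X ^ j : ℂ[X]) = ∏ a, (1 + C (t a) * X)) :
    e D = ∏ a, t a ∧
      (∑ j ∈ Finset.range (D + 1), C (e (D - j) / e D) * X ^ j : ℂ[X]) =
        ∏ a, (1 + C (t a)⁻¹ * X) := by
  have heval : ∀ x : ℂ, ∑ j ∈ Finset.range (D + 1), e j * x ^ j = ∏ a, (1 + t a * x) := by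
    intro x
    have := congrArg (Polynomial.eval x) h
    simpa [Polynomial.eval_finsetSum, Polynomial.eval_prod] using this
  have h2 : ∀ x : ℂ, x ≠ 0 →
      ∑ j ∈ Finset.range (D + 1), e (D - j) * x ^ j = ∏ a, (x + t a) := by
    intro x hx
    have h3 : ∏ a, (x + t a) = x ^ D * ∏ a, (1 + t a * x⁻¹) := by
      have h31 : (x : ℂ) ^ D = ∏ _a : Fin D, x := by simp
      rw [h31, ← Finset.prod_mul_distrib]
      refine Finset.prod_congr rfl fun a _ => ?_
      field_simp
    rw [h3, ← heval, Finset.mul_sum, ← Finset.sum_range_reflect]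
    refine Finset.sum_congr rfl fun j hj => ?_
    rw [Finset.mem_range] at hj
    have h4 : D + 1 - 1 - j = D - j := by omega
    have h5 : D - (D - j) = j := by omega
    rw [h4, h5]
    have h6 : x ^ D = x ^ (D - j) * x ^ j := by
      rw [← pow_add]
      congr 1
      omega
    rw [h6, inv_pow]
    field_simp
  have h7 : (∑ j ∈ Finset.range (D + 1), C (e (D - j)) * X ^ j : ℂ[X]) =
      ∏ a, (X + C (t a)) := by
    apply Polynomial.eq_of_infinite_eval_eq
    have hinf : Set.Infinite ({0}ᶜ : Set ℂ) := (Set.finite_singleton (0 : ℂ)).infinite_compl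
    refine hinf.mono ?_
    intro x hx
    have := h2 x hx
    simpa [Polynomial.eval_finsetSum, Polynomial.eval_prod] using this
  have h8 : e D = ∏ a, t a := by
    have := congrArg (Polynomial.eval 0) h7
    rw [Polynomial.eval_finsetSum, Polynomial.eval_prod, Finset.sum_range_succ'] at this
    simpa using this
  refine ⟨h8, ?_⟩
  have h9 : e D ≠ 0 := by
    rw [h8]
    exact Finset.prod_ne_zero_iff.2 fun a _ => ht a
  have h10 : (∑ j ∈ Finset.range (D + 1), C (e (D - j) / e D) * X ^ j : ℂ[X]) =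
      C (e D)⁻¹ * ∑ j ∈ Finset.range (D + 1), C (e (D - j)) * X ^ j := by
    rw [Finset.mul_sum]
    refine Finset.sum_congr rfl fun j _ => ?_
    rw [← mul_assoc, ← C_mul]
    congr 2
    ring
  rw [h10, h7]
  have h11 : (C (e D)⁻¹ : ℂ[X]) = ∏ a, C (t a)⁻¹ := by
    rw [h8, ← Finset.prod_inv_distrib, map_prod]
  rw [h11, ← Finset.prod_mul_distrib]
  refine Finset.prod_congr rfl fun a _ => ?_
  rw [mul_add, ← C_mul, inv_mul_cancel₀ (ht a), C_1]
  ring

end Pool.Agent.H80Green
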