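import Pool.Agent.Helper80.Green.Bound
import Pool.Agent.Helper80.Green.RevRoots
import Pool.Agent.Helper80.Green.DualSp
import Pool.Agent.Helper80.Green.AnA
import Pool.Agent.Helper80.Green.AnC

/-!
The conjugate dual species, and the two main theorems.
-/

universe u v

open scoped TensorProduct

namespace Pool.Agent.H80Green

variable {k : Type u} [Field k] {G : Type v} [Group G]

namespace Species

/-- The conjugate of the dual species. -/
noncomputable def conjDual (s : Species k G) : Species k G where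
  val X := (starRingEnd ℂ) (s.val X.dual)
  iso X Y h := by rw [s.iso _ _ (Md.dual_iso h)]
  add X Y := by rw [s.iso _ _ (Md.dual_prod X Y), s.add, map_add]
  mul X Y := by rw [s.iso _ _ (Md.dual_tensor X Y), s.mul, map_mul]
  one := by rw [s.iso _ _ Md.dual_triv, s.one, map_one]

variable (s : Species k G)

lemma conjDual_val (X : Md k G) : s.conjDual.val X = (starRingEnd ℂ) (s.val X.dual) := rfl

lemma conjDual_dimBounded (hs : s.DimBounded) : s.conjDual.DimBounded := by
  intro X _
  rw [conjDual_val, RCLike.norm_conj, ← Md.dim_dual X]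
  exact hs.le X.dual

lemma conjDual_negligible (B : Md k G) (hB : s.Negligible B) : s.conjDual.Negligible B := by
  intro Y C C' h
  obtain ⟨h1, h2⟩ := hB Y C C' h
  rw [conjDual_val, conjDual_val, h2, s.iso _ _ (Md.dual_dual C), h1, map_zero]
  exact ⟨rfl, rfl⟩

lemma conjDual_subexp (X : Md k G) (hX : s.Subexp X) : s.conjDual.Subexp X := by
  intro ε hε
  obtain ⟨m, hm, r, W, B, hiso, hW, hB⟩ := hX ε hε
  exact ⟨m, hm, r, W, B, hiso, hW, s.conjDual_negligible B hB⟩

/-- The value on the dual of an exterior power. -/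
lemma val_ext_dual (X : Md k G) (j : ℕ) (hj : j ≤ X.dim) :
    s.val (X.ext j).dual = s.val (X.ext (X.dim - j)) / s.val (X.ext X.dim) := by
  have h1 := s.iso _ _ (Md.wedge_dual X j hj)
  rw [s.mul] at h1
  rw [eq_div_iff (s.val_top_ne_zero X), h1]

/-- The generating functions as polynomials. -/
lemma eser_eq_coe (X : Md k G) :
    s.eser X = ((∑ j ∈ Finset.range (X.dim + 1),
      Polynomial.C (s.val (X.ext j)) * Polynomial.X ^ j : Polynomial ℂ) : PowerSeries ℂ) := by
  ext N
  rw [eser, PowerSeries.coeff_mk, Polynomial.coeff_coe, Polynomial.finsetSum_coeff]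
  simp only [Polynomial.coeff_C_mul_X_pow]
  rw [Finset.sum_ite_eq]
  split_ifs with hN
  · rfl
  · apply s.val_ext_of_lt
    rw [Finset.mem_range] at hN
    omega

/-- The roots of a module and the roots of the conjugate dual species. -/
lemma exists_roots_dual (X : Md k G) :
    ∃ t : Fin X.dim → ℂ, (∀ a, t a ≠ 0) ∧
      s.eser X = ∏ a, (1 + PowerSeries.C (t a) * PowerSeries.X) ∧
      s.conjDual.eser X =
        ∏ a, (1 + PowerSeries.C ((starRingEnd ℂ) (t a)⁻¹) * PowerSeries.X) := by
  obtain ⟨t, ht, h⟩ := exists_roots X.dim (fun j => s.val (X.ext j)) (s.val_ext_zero X)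
    (s.val_top_ne_zero X)
  obtain ⟨-, h2⟩ := reversed_roots X.dim (fun j => s.val (X.ext j)) t ht h
  have hcoe : ∀ r : Fin X.dim → ℂ,
      ((∏ a, (1 + Polynomial.C (r a) * Polynomial.X) : Polynomial ℂ) : PowerSeries ℂ) =
        ∏ a, (1 + PowerSeries.C (r a) * PowerSeries.X) := by
    intro r
    rw [coe_prod_poly]
    refine Finset.prod_congr rfl fun a _ => ?_
    simp only [Polynomial.coe_add, Polynomial.coe_one, Polynomial.coe_mul, Polynomial.coe_C,
      Polynomial.coe_X]
  refine ⟨t, ht, ?_, ?_⟩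
  · rw [s.eser_eq_coe X, h, hcoe]
  · rw [s.conjDual.eser_eq_coe X, ← hcoe]
    congr 1
    have h3 := congrArg (Polynomial.map (starRingEnd ℂ)) h2
    rw [Polynomial.map_sum, Polynomial.map_prod] at h3
    have h4 : ∀ a, Polynomial.map (starRingEnd ℂ) (1 + Polynomial.C (t a)⁻¹ * Polynomial.X) =
        1 + Polynomial.C ((starRingEnd ℂ) (t a)⁻¹) * Polynomial.X := by
      intro a
      simp only [Polynomial.map_add, Polynomial.map_one, Polynomial.map_mul, Polynomial.map_C,
        Polynomial.map_X]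
    rw [Finset.prod_congr rfl fun a _ => h4 a] at h3
    rw [← h3]
    refine Finset.sum_congr rfl fun j hj => ?_
    rw [Finset.mem_range] at hj
    simp only [Polynomial.map_mul, Polynomial.map_C, Polynomial.map_pow, Polynomial.map_X]
    rw [conjDual_val, s.val_ext_dual X j (by omega)]

/-- The value on the dual module is the sum of the inverse roots. -/
lemma val_dual_eq_sum (X : Md k G) (t : Fin X.dim → ℂ)
    (h : s.conjDual.eser X =
        ∏ a, (1 + PowerSeries.C ((starRingEnd ℂ) (t a)⁻¹) * PowerSeries.X)) :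
    s.val X.dual = ∑ a, (t a)⁻¹ := by
  have h1 := s.conjDual.val_eq_sum X _ h
  rw [conjDual_val] at h1
  have h2 := congrArg (starRingEnd ℂ) h1
  rw [Complex.conj_conj, map_sum] at h2
  simpa using h2

end Species

/-- `k` contains the roots of unity of all orders prime to `p`. -/
def RootsOfOne (k : Type u) [Field k] (p : ℕ) : Prop :=
  ∀ n : ℕ, n.Coprime p → 0 < n → ∃ ζ : k, IsPrimitiveRoot ζ n

lemma odd_of_coprime {p n : ℕ} (hn : n.Coprime (2 * p)) : Odd n ∧ n.Coprime p ∧ 0 < n := by
  have h3 : n.Coprime 2 := Nat.Coprime.coprime_dvd_right (Dvd.intro p rfl) hn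
  have h4 : n.Coprime p := Nat.Coprime.coprime_dvd_right (Dvd.intro_left 2 rfl) hn
  refine ⟨?_, h4, ?_⟩
  · rw [Nat.odd_iff]
    by_contra hcon
    have : n % 2 = 0 := by omega
    have h5 : 2 ∣ Nat.gcd n 2 := Nat.dvd_gcd (Nat.dvd_of_mod_eq_zero this) dvd_rfl
    rw [h3] at h5
    omega
  · rcases Nat.eq_zero_or_pos n with h0 | h0
    · rw [h0] at h3
      simp at h3
    · exact h0

/-- **Theorem A.** A dimension bounded species is self-conjugate on every module whose tensor
powers have subexponentially growing summands modulo negligible modules. -/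
theorem selfConj_of_subexp {p : ℕ} (hp : 0 < p) (hk : RootsOfOne k p) (s : Species k G)
    (hs : s.DimBounded) (X : Md k G) (hX : s.Subexp X) :
    s.val X.dual = (starRingEnd ℂ) (s.val X) := by
  obtain ⟨t, ht, h1, h2⟩ := s.exists_roots_dual X
  have key := powerSum_conj t ht (2 * p) (by omega) X.dim ?_ ?_
  · rw [s.val_dual_eq_sum X t h2, s.val_eq_sum X t h1]
    exact key
  · intro n hn
    obtain ⟨h3, h4, h5⟩ := odd_of_coprime hn
    have : NeZero n := ⟨by omega⟩
    obtain ⟨ζ, hζ⟩ := hk n h4 h5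
    have hξ := Complex.isPrimitiveRoot_exp n (by omega)
    rw [← s.tw_cpow h3 hζ hξ X t h1]
    exact s.z_bound hs h3 hζ hξ X hX
  · intro n hn
    obtain ⟨h3, h4, h5⟩ := odd_of_coprime hn
    have : NeZero n := ⟨by omega⟩
    obtain ⟨ζ, hζ⟩ := hk n h4 h5
    have hξ := Complex.isPrimitiveRoot_exp n (by omega)
    have h6 := s.conjDual.z_bound (s.conjDual_dimBounded hs) h3 hζ hξ X (s.conjDual_subexp X hX)
    rw [s.conjDual.tw_cpow h3 hζ hξ X _ h2] at h6
    have h7 : ∑ a, (starRingEnd ℂ) (t a)⁻¹ ^ n = (starRingEnd ℂ) (∑ a, (t a)⁻¹ ^ n) := by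
      rw [map_sum]
      simp
    rw [h7, RCLike.norm_conj] at h6
    exact h6

/-- `X` is algebraic modulo negligible modules: up to modules negligible for `s`, all tensor
powers of `X` are direct sums of copies of finitely many modules `Y 1, ..., Y r`. -/
def Species.Algebraic (s : Species k G) (X : Md k G) : Prop :=
  ∃ (r : ℕ) (Y : Fin r → Md k G), ∀ m : ℕ, ∃ (a : Fin r → ℕ) (B : Md k G),
    Md.Iso (X.tpow m) ((Md.pi fun q : (Σ i : Fin r, Fin (a i)) => Y q.1).prod B) ∧
      s.Negligible B

/-- **Theorem C.** Every species is cyclotomic and self-conjugate on algebraic modules. -/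
theorem cyclotomic_of_algebraic {p : ℕ} (hp : 0 < p) (hk : RootsOfOne k p) (s : Species k G)
    (X : Md k G) (hX : s.Algebraic X) :
    ∃ (N : ℕ) (ω : Fin N → ℂ), N ≤ X.dim ∧ (∀ i, ∃ m : ℕ, 0 < m ∧ ω i ^ m = 1) ∧
      s.val X = ∑ i, ω i ∧ s.val X.dual = ∑ i, (ω i)⁻¹ := by
  classical
  obtain ⟨t, ht, h1, h2⟩ := s.exists_roots_dual X
  obtain ⟨r, Y, hY⟩ := hX
  choose a B hiso hB using hY
  -- a linear relation between the multiplicity vectors
  have hdep : ¬ LinearIndependent ℂ (fun m : Fin (r + 1) => fun i : Fin r => (a m i : ℂ)) := by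
    intro h
    have h3 := h.fintype_card_le_finrank
    simp at h3
  obtain ⟨c, hc, j, hj⟩ := Fintype.not_linearIndependent_iff.1 hdep
  let f : Polynomial ℂ := ∑ m : Fin (r + 1), Polynomial.C (c m) * Polynomial.X ^ (m : ℕ)
  have hf : f ≠ 0 := by
    intro h0
    have h3 := congrArg (fun g => Polynomial.coeff g (j : ℕ)) h0
    simp only [f, Polynomial.finsetSum_coeff, Polynomial.coeff_C_mul_X_pow,
      Polynomial.coeff_zero] at h3
    rw [Finset.sum_eq_single j] at h3
    · rw [if_pos rfl] at h3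
      exact hj h3
    · intro b _ hb
      rw [if_neg]
      intro h4
      exact hb (Fin.ext h4.symm)
    · intro h4
      exact absurd (Finset.mem_univ j) h4
  have hroot : ∀ n : ℕ, n.Coprime (2 * p) → ∑ i, t i ^ n ∈ {x : ℂ | f.IsRoot x} := by
    intro n hn
    obtain ⟨h3, h4, h5⟩ := odd_of_coprime hn
    have : NeZero n := ⟨by omega⟩
    obtain ⟨ζ, hζ⟩ := hk n h4 h5
    have hξ := Complex.isPrimitiveRoot_exp n (by omega)
    set ξ := Complex.exp (2 * Real.pi * Complex.I / n) with hξdef
    rw [← s.tw_cpow h3 hζ hξ X t h1]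
    set z := s.tw ζ ξ (X.cpow n) with hz
    have h6 : ∀ m : ℕ, z ^ m = ∑ i, (a m i : ℂ) * s.tw ζ ξ ((Y i).cpow n) := by
      intro m
      rw [hz, ← s.z_tpow hζ hξ, s.z_iso _ _ (hiso m), s.z_prod h3 hζ hξ,
        s.z_neg hζ (B m) (hB m), add_zero, s.z_pi h3 hζ hξ, Fintype.sum_sigma]
      refine Finset.sum_congr rfl fun i _ => ?_
      simp
    change f.eval z = 0
    simp only [f, Polynomial.eval_finsetSum, Polynomial.eval_mul, Polynomial.eval_C,
      Polynomial.eval_pow, Polynomial.eval_X]
    calc ∑ m : Fin (r + 1), c m * z ^ (m : ℕ)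
        = ∑ m : Fin (r + 1), ∑ i, c m * ((a m i : ℂ) * s.tw ζ ξ ((Y i).cpow n)) := by
          refine Finset.sum_congr rfl fun m _ => ?_
          rw [h6, Finset.mul_sum]
      _ = ∑ i, (∑ m : Fin (r + 1), c m * (a m i : ℂ)) * s.tw ζ ξ ((Y i).cpow n) := by
          rw [Finset.sum_comm]
          refine Finset.sum_congr rfl fun i _ => ?_
          rw [Finset.sum_mul]
          refine Finset.sum_congr rfl fun m _ => ?_
          ring
      _ = 0 := by
          refine Finset.sum_eq_zero fun i _ => ?_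
          have h7 := congrFun hc i
          simp only [Finset.sum_apply, Pi.smul_apply, smul_eq_mul, Pi.zero_apply] at h7
          rw [h7, zero_mul]
  have hfin : {x : ℂ | f.IsRoot x}.Finite := Polynomial.finite_setOfPred_isRoot hf
  obtain ⟨S, hS, hS1, hS2⟩ := powerSum_finite t ht (2 * p) (by omega) _ hfin hroot
  refine ⟨S.card, fun i => t (S.equivFin.symm i), ?_, ?_, ?_, ?_⟩
  · simpa using S.card_le_univ
  · intro i
    exact hS _ (S.equivFin.symm i).2
  · rw [s.val_eq_sum X t h1, hS1, ← Finset.sum_coe_sort]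
    exact (S.equivFin.symm.sum_comp (fun i : S => t i)).symm
  · rw [s.val_dual_eq_sum X t h2, hS2, ← Finset.sum_coe_sort]
    exact (S.equivFin.symm.sum_comp (fun i : S => (t i)⁻¹)).symm

end Pool.Agent.H80Green
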