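import Pool.Agent.Helper80.Green.Main

/-!
The definitions used in the statements of the hand-ins: isomorphism of modules through Mathlib's
`Representation.Equiv`, direct sums of lists of modules, species, negligible modules, growth
bounds; and the theorems in this language.
-/

universe u v

open scoped TensorProduct

namespace Pool.Agent.H80Green

variable {k : Type u} [Field k] {G : Type v} [Group G]

namespace Md

/-- `X` and `Y` are isomorphic `kG`-modules. -/
def Isom (X Y : Md k G) : Prop := Nonempty (X.rep.Equiv Y.rep)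

/-- The zero module. -/
def zero (k : Type u) [Field k] (G : Type v) [Group G] : Md k G where
  carrier := PUnit.{u + 1}
  rep := Representation.trivial k G PUnit.{u + 1}

/-- The direct sum of a finite list of modules. -/
noncomputable def sum : List (Md k G) → Md k G
  | [] => zero k G
  | X :: l => X.prod (sum l)

/-- `X` is indecomposable: it is not zero and it is not the direct sum of two nonzero modules. -/
def Indecomposable (X : Md k G) : Prop :=
  0 < X.dim ∧ ∀ Y Z : Md k G, Isom X (Y.prod Z) → Y.dim = 0 ∨ Z.dim = 0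

lemma isom_iff (X Y : Md k G) : Isom X Y ↔ Iso X Y := by
  constructor
  · rintro ⟨e⟩
    exact ⟨e.toLinearEquiv, fun g x => LinearMap.congr_fun (e.isIntertwining' g) x⟩
  · rintro ⟨e, he⟩
    exact ⟨Representation.Equiv.mk e fun g => LinearMap.ext fun x => he g x⟩

lemma dim_zero : (zero k G).dim = 0 := by
  have : Subsingleton (zero k G).carrier := inferInstanceAs (Subsingleton PUnit.{u + 1})
  exact Module.finrank_zero_of_subsingleton

end Md

/-- A species of the representation ring `a(G)`, given by its values on the modules: a function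
on finite dimensional `kG`-modules, invariant under isomorphism, additive on direct sums,
multiplicative on tensor products, with value `1` on the trivial module. -/
structure Spc (k : Type u) [Field k] (G : Type v) [Group G] where
  val : Md k G → ℂ
  iso : ∀ X Y : Md k G, Md.Isom X Y → val X = val Y
  add : ∀ X Y : Md k G, val (X.prod Y) = val X + val Y
  mul : ∀ X Y : Md k G, val (X.tensor Y) = val X * val Y
  one : val (Md.triv k G) = 1

namespace Spc

variable (s : Spc k G)

/-- A species is dimension bounded when `|s(X)| ≤ dim X` for all indecomposable `X`. -/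
def DimBounded : Prop := ∀ X : Md k G, X.Indecomposable → ‖s.val X‖ ≤ X.dim

/-- `B` is negligible for `s`: the species vanishes on every direct summand of every `B ⊗ Y`,
and on the dual of every such summand. -/
def Negligible (B : Md k G) : Prop :=
  ∀ Y C C' : Md k G, Md.Isom (B.tensor Y) (C.prod C') → s.val C = 0 ∧ s.val C.dual = 0

/-- `s.GrowthBound X r`: the least relation between modules `X` and real numbers `r` such that
(base) it holds when `dim X ≤ r`;
(step) it holds for `X` and `r ≥ 0` when some tensor power `X ^ ⊗ m`, `m ≥ 1`, is a direct sum of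
modules `W` with `s.GrowthBound W (r ^ m)` and a module negligible for `s`;
(lim) it holds for `X` and `r` when it holds for `X` and all `r' > r`. -/
inductive GrowthBound : Md k G → ℝ → Prop
  | base (X : Md k G) (r : ℝ) (h : (X.dim : ℝ) ≤ r) : GrowthBound X r
  | step (X : Md k G) (r : ℝ) (hr : 0 ≤ r) (m : ℕ) (hm : 0 < m) (l : List (Md k G))
      (B : Md k G) (hiso : Md.Isom (X.tpow m) ((Md.sum l).prod B)) (hB : s.Negligible B)
      (hW : ∀ W ∈ l, GrowthBound W (r ^ m)) : GrowthBound X r
  | lim (X : Md k G) (r : ℝ) (h : ∀ r' : ℝ, r < r' → GrowthBound X r') : GrowthBound X r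

/-- the same species with the internal notion of isomorphism -/
noncomputable def toSpecies : Species k G where
  val := s.val
  iso X Y h := s.iso X Y ((Md.isom_iff X Y).2 h)
  add := s.add
  mul := s.mul
  one := s.one

lemma toSpecies_dimBounded (hs : s.DimBounded) : s.toSpecies.DimBounded := by
  intro X hX
  exact hs X ⟨hX.1, fun Y Z h => hX.2 Y Z ((Md.isom_iff _ _).1 h)⟩

lemma toSpecies_negligible {B : Md k G} (hB : s.Negligible B) : s.toSpecies.Negligible B :=
  fun Y C C' h => hB Y C C' ((Md.isom_iff _ _).2 h)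

end Spc

namespace Species

variable (s : Species k G) {n : ℕ} [NeZero n] {ζ : k} {ξ : ℂ}

lemma z_zero (X : Md k G) (h : X.dim = 0) (hn : Odd n) (hζ : IsPrimitiveRoot ζ n)
    (hξ : IsPrimitiveRoot ξ n) : s.tw ζ ξ (X.cpow n) = 0 :=
  add_zero_dim (fun X => s.tw ζ ξ (X.cpow n)) (fun X Y h => s.z_iso X Y h)
    (fun X Y => s.z_prod hn hζ hξ X Y) X h

lemma z_list (hn : Odd n) (hζ : IsPrimitiveRoot ζ n) (hξ : IsPrimitiveRoot ξ n)
    (l : List (Md k G)) :
    s.tw ζ ξ ((Md.sum l).cpow n) = (l.map fun W => s.tw ζ ξ (W.cpow n)).sum := by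
  induction l with
  | nil => exact s.z_zero _ Md.dim_zero hn hζ hξ
  | cons X l ih =>
    rw [List.map_cons, List.sum_cons, ← ih]
    exact s.z_prod hn hζ hξ X (Md.sum l)

end Species

lemma Md.dim_sum (l : List (Md k G)) : (Md.sum l).dim = (l.map Md.dim).sum := by
  induction l with
  | nil => exact Md.dim_zero
  | cons X l ih =>
    rw [List.map_cons, List.sum_cons, ← ih]
    exact Md.dim_prod X (Md.sum l)

namespace Spc.GrowthBound

variable {s : Spc k G}

lemma nonneg {X : Md k G} {r : ℝ} (h : s.GrowthBound X r) : 0 ≤ r := by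
  induction h with
  | base X r h => exact (Nat.cast_nonneg _).trans h
  | step X r hr m hm l B hiso hB hW ih => exact hr
  | lim X r h ih => exact le_of_forall_gt_imp_ge_of_dense ih

lemma mono {X : Md k G} {r : ℝ} (h : s.GrowthBound X r) : ∀ r' : ℝ, r ≤ r' →
    s.GrowthBound X r' := by
  induction h with
  | base X r h => exact fun r' hr' => base X r' (h.trans hr')
  | step X r hr m hm l B hiso hB hW ih =>
    exact fun r' hr' => step X r' (hr.trans hr') m hm l B hiso hB
      fun W hWl => ih W hWl _ (pow_le_pow_left₀ hr hr' m)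
  | lim X r h ih =>
    exact fun r' hr' => lim X r' fun r'' hr'' => h r'' (lt_of_le_of_lt hr' hr'')

/-- Power sums are controlled by growth bounds, for any species `s'` for which the negligible
modules of `s` are negligible. -/
theorem norm_le (s' : Species k G) (hs : s'.DimBounded)
    (hneg : ∀ B, s.Negligible B → s'.Negligible B) {n : ℕ} [NeZero n] (hn : Odd n) {ζ : k}
    (hζ : IsPrimitiveRoot ζ n) {ξ : ℂ} (hξ : IsPrimitiveRoot ξ n) {X : Md k G} {r : ℝ}
    (h : s.GrowthBound X r) :
    ‖s'.tw ζ ξ (X.cpow n)‖ ≤ r ^ (n - 1) * X.dim := by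
  have hn0 : 0 < n := NeZero.pos n
  induction h with
  | base X r h =>
    refine (s'.z_le hs hζ hξ X).trans ?_
    have h3 : ((X.dim : ℝ)) ^ n = ((X.dim : ℝ)) ^ (n - 1) * X.dim := by
      rw [← pow_succ, Nat.sub_add_cancel hn0]
    rw [h3]
    exact mul_le_mul_of_nonneg_right (pow_le_pow_left₀ (Nat.cast_nonneg _) h _)
      (Nat.cast_nonneg _)
  | step X r hr m hm l B hiso hB hW ih =>
    have hiso' := (Md.isom_iff _ _).1 hiso
    set z := s'.tw ζ ξ (X.cpow n) with hz
    have h1 : z ^ m = (l.map fun W => s'.tw ζ ξ (W.cpow n)).sum := by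
      rw [hz, ← s'.z_tpow hζ hξ, s'.z_iso _ _ hiso', s'.z_prod hn hζ hξ,
        s'.z_neg hζ B (hneg B hB), add_zero, s'.z_list hn hζ hξ]
    have h20 : ∀ l : List (Md k G),
        (∀ W ∈ l, ‖s'.tw ζ ξ (W.cpow n)‖ ≤ (r ^ m) ^ (n - 1) * W.dim) →
        ‖(l.map fun W => s'.tw ζ ξ (W.cpow n)).sum‖ ≤
          (r ^ m) ^ (n - 1) * ((l.map Md.dim).sum : ℕ) := by
      intro l
      induction l with
      | nil => simp
      | cons W l ihl =>
        intro hl
        rw [List.map_cons, List.sum_cons, List.map_cons, List.sum_cons, Nat.cast_add, mul_add]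
        refine (norm_add_le _ _).trans (add_le_add (hl W List.mem_cons_self) ?_)
        exact ihl fun W' hW' => hl W' (List.mem_cons_of_mem _ hW')
    have h2 : ‖z‖ ^ m ≤ (r ^ (n - 1) * X.dim) ^ m := by
      calc ‖z‖ ^ m = ‖(l.map fun W => s'.tw ζ ξ (W.cpow n)).sum‖ := by rw [← norm_pow, h1]
        _ ≤ (r ^ m) ^ (n - 1) * ((l.map Md.dim).sum : ℕ) := h20 l ih
        _ ≤ (r ^ m) ^ (n - 1) * (X.dim : ℝ) ^ m := by
            apply mul_le_mul_of_nonneg_left _ (by positivity)
            have h4 := hiso'.dim_eq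
            rw [Md.dim_tpow, Md.dim_prod, Md.dim_sum] at h4
            have h5 : (l.map Md.dim).sum ≤ X.dim ^ m := by omega
            exact_mod_cast h5
        _ = (r ^ (n - 1) * X.dim) ^ m := by
            rw [mul_pow, ← pow_mul, ← pow_mul, mul_comm m (n - 1)]
    exact le_of_pow_le_pow_left₀ hm.ne' (by positivity) h2
  | lim X r h ih =>
    have hlim : Filter.Tendsto (fun r' : ℝ => r' ^ (n - 1) * (X.dim : ℝ))
        (nhdsWithin r (Set.Ioi r)) (nhds (r ^ (n - 1) * (X.dim : ℝ))) := by
      apply Filter.Tendsto.mono_left _ nhdsWithin_le_nhds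
      exact (Continuous.tendsto (by fun_prop) _)
    refine ge_of_tendsto hlim ?_
    filter_upwards [self_mem_nhdsWithin] with r' hr'
    exact ih r' hr'

/-- Subexponential growth gives growth bound one. -/
theorem of_subexp {X : Md k G}
    (hX : ∀ ε : ℝ, 0 < ε → ∃ m : ℕ, 0 < m ∧ ∃ (l : List (Md k G)) (B : Md k G),
      Md.Isom (X.tpow m) ((Md.sum l).prod B) ∧ s.Negligible B ∧
        ∀ W ∈ l, (W.dim : ℝ) ≤ Real.exp (ε * m)) : s.GrowthBound X 1 := by
  apply lim
  intro r' hr'
  obtain ⟨m, hm, l, B, hiso, hB, hW⟩ := hX (Real.log r') (Real.log_pos hr')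
  refine step X r' (by linarith) m hm l B hiso hB fun W hWl => base _ _ ?_
  refine (hW W hWl).trans (le_of_eq ?_)
  rw [mul_comm, Real.exp_nat_mul, Real.exp_log (by linarith)]

/-- A uniform power saving in a class of modules gives growth bound one. -/
theorem of_saving (𝒞 : Set (Md k G)) (θ : ℝ) (h0 : 0 ≤ θ) (h1 : θ < 1)
    (h : ∀ X ∈ 𝒞, ∃ m : ℕ, 0 < m ∧ ∃ (l : List (Md k G)) (B : Md k G),
      Md.Isom (X.tpow m) ((Md.sum l).prod B) ∧ s.Negligible B ∧
        ∀ W ∈ l, W ∈ 𝒞 ∧ (W.dim : ℝ) ≤ (X.dim : ℝ) ^ (θ * m)) :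
    ∀ X ∈ 𝒞, s.GrowthBound X 1 := by
  have key : ∀ j : ℕ, ∀ X ∈ 𝒞, s.GrowthBound X ((X.dim : ℝ) ^ (θ ^ j)) := by
    intro j
    induction j with
    | zero =>
      intro X _
      apply base
      rw [pow_zero, Real.rpow_one]
    | succ j ih =>
      intro X hX
      obtain ⟨m, hm, l, B, hiso, hB, hW⟩ := h X hX
      refine step X _ (by positivity) m hm l B hiso hB fun W hWl => ?_
      refine (ih W (hW W hWl).1).mono _ ?_
      calc (W.dim : ℝ) ^ (θ ^ j) ≤ ((X.dim : ℝ) ^ (θ * m)) ^ (θ ^ j) :=
            Real.rpow_le_rpow (Nat.cast_nonneg _) (hW W hWl).2 (by positivity)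
        _ = ((X.dim : ℝ) ^ (θ ^ (j + 1))) ^ m := by
            rw [← Real.rpow_mul (Nat.cast_nonneg _),
              ← Real.rpow_mul_natCast (Nat.cast_nonneg _)]
            congr 1
            ring
  intro X hX
  rcases Nat.eq_zero_or_pos X.dim with hd | hd
  · exact base X 1 (by rw [hd]; simp)
  · apply lim
    intro r' hr'
    have hpos : (0 : ℝ) < X.dim := by exact_mod_cast hd
    have h2 : Filter.Tendsto (fun j : ℕ => (X.dim : ℝ) ^ (θ ^ j)) Filter.atTop
        (nhds ((X.dim : ℝ) ^ (0 : ℝ))) :=
      ((Real.continuous_const_rpow hpos.ne').tendsto 0).comp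
        (tendsto_pow_atTop_nhds_zero_of_lt_one h0 h1)
    rw [Real.rpow_zero] at h2
    obtain ⟨j, hj⟩ := ((h2.eventually (gt_mem_nhds hr')).exists)
    exact (key j X hX).mono r' hj.le

end Spc.GrowthBound

/-- **Theorem A.** A dimension bounded species is self-conjugate on every module with growth
bound one. -/
theorem Spc.selfConj {p : ℕ} (hp : 0 < p) (hk : RootsOfOne k p) (s : Spc k G)
    (hs : s.DimBounded) (X : Md k G) (hX : s.GrowthBound X 1) :
    s.val X.dual = (starRingEnd ℂ) (s.val X) := by
  obtain ⟨t, ht, h1, h2⟩ := s.toSpecies.exists_roots_dual X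
  have hs' := s.toSpecies_dimBounded hs
  have key := powerSum_conj t ht (2 * p) (by omega) X.dim ?_ ?_
  · have h3 := s.toSpecies.val_dual_eq_sum X t h2
    have h4 := s.toSpecies.val_eq_sum X t h1
    change s.val X.dual = _ at h3
    change s.val X = _ at h4
    rw [h3, h4]
    exact key
  · intro n hn
    obtain ⟨h3, h4, h5⟩ := odd_of_coprime hn
    have : NeZero n := ⟨by omega⟩
    obtain ⟨ζ, hζ⟩ := hk n h4 h5
    have hξ := Complex.isPrimitiveRoot_exp n (by omega)
    rw [← s.toSpecies.tw_cpow h3 hζ hξ X t h1]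
    simpa using hX.norm_le s.toSpecies hs' (fun B hB => s.toSpecies_negligible hB) h3 hζ hξ
  · intro n hn
    obtain ⟨h3, h4, h5⟩ := odd_of_coprime hn
    have : NeZero n := ⟨by omega⟩
    obtain ⟨ζ, hζ⟩ := hk n h4 h5
    have hξ := Complex.isPrimitiveRoot_exp n (by omega)
    have h6 := hX.norm_le s.toSpecies.conjDual (s.toSpecies.conjDual_dimBounded hs')
      (fun B hB => s.toSpecies.conjDual_negligible B (s.toSpecies_negligible hB)) h3 hζ hξ
    rw [s.toSpecies.conjDual.tw_cpow h3 hζ hξ X _ h2] at h6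
    have h7 : ∑ a, (starRingEnd ℂ) (t a)⁻¹ ^ n = (starRingEnd ℂ) (∑ a, (t a)⁻¹ ^ n) := by
      rw [map_sum]
      simp
    rw [h7, RCLike.norm_conj] at h6
    simpa using h6

/-- **Theorem C.** Every species is cyclotomic and self-conjugate on algebraic modules. -/
theorem Spc.cyclotomic {p : ℕ} (hp : 0 < p) (hk : RootsOfOne k p) (s : Spc k G)
    (X : Md k G) (r : ℕ) (Y : Fin r → Md k G)
    (hX : ∀ m : ℕ, ∃ (l : List (Fin r)) (B : Md k G),
      Md.Isom (X.tpow m) ((Md.sum (l.map Y)).prod B) ∧ s.Negligible B) :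
    ∃ (N : ℕ) (ω : Fin N → ℂ), N ≤ X.dim ∧ (∀ i, ∃ m : ℕ, 0 < m ∧ ω i ^ m = 1) ∧
      s.val X = ∑ i, ω i ∧ s.val X.dual = (starRingEnd ℂ) (s.val X) := by
  classical
  obtain ⟨t, ht, h1, h2⟩ := s.toSpecies.exists_roots_dual X
  choose l B hiso hB using hX
  -- a linear relation between the multiplicity vectors
  have hdep : ¬ LinearIndependent ℂ
      (fun m : Fin (r + 1) => fun i : Fin r => ((l m).count i : ℂ)) := by
    intro h
    have h3 := h.fintype_card_le_finrank
    simp at h3
  obtain ⟨c, hc, j, hj⟩ := Fintype.not_linearIndependent_iff.1 hdep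
  let f : Polynomial ℂ := ∑ m : Fin (r + 1), Polynomial.C (c m) * Polynomial.X ^ (m : ℕ)
  have hf : f ≠ 0 := by
    intro h0
    have h3 := congrArg (fun g => Polynomial.coeff g (j : ℕ)) h0
    simp only [f, Polynomial.finsetSum_coeff, Polynomial.coeff_C_mul_X_pow,
      Polynomial.coeff_zero] at h3
    rw [Finset.sum_eq_single j] at h3
    · rw [if_pos rfl] at h3
      exact hj h3
    · intro b _ hb
      rw [if_neg]
      intro h4
      exact hb (Fin.ext h4.symm)
    · intro h4
      exact absurd (Finset.mem_univ j) h4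
  have hroot : ∀ n : ℕ, n.Coprime (2 * p) → ∑ i, t i ^ n ∈ {x : ℂ | f.IsRoot x} := by
    intro n hn
    obtain ⟨h3, h4, h5⟩ := odd_of_coprime hn
    have : NeZero n := ⟨by omega⟩
    obtain ⟨ζ, hζ⟩ := hk n h4 h5
    have hξ := Complex.isPrimitiveRoot_exp n (by omega)
    set ξ := Complex.exp (2 * Real.pi * Complex.I / n) with hξdef
    rw [← s.toSpecies.tw_cpow h3 hζ hξ X t h1]
    set z := s.toSpecies.tw ζ ξ (X.cpow n) with hz
    have hcount : ∀ l : List (Fin r),
        ((l.map Y).map fun W => s.toSpecies.tw ζ ξ (W.cpow n)).sum =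
          ∑ i, (l.count i : ℂ) * s.toSpecies.tw ζ ξ ((Y i).cpow n) := by
      intro l
      induction l with
      | nil => simp
      | cons a l ih =>
        rw [List.map_cons, List.map_cons, List.sum_cons, ih]
        have h6 : ∀ i, ((a :: l).count i : ℂ) = (if a = i then 1 else 0) + (l.count i : ℂ) := by
          intro i
          rw [List.count_cons]
          by_cases h : a = i
          · simp [h, add_comm]
          · simp [h]
        simp only [h6, add_mul, Finset.sum_add_distrib]
        simp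
    have h6 : ∀ m : ℕ, z ^ m =
        ∑ i, ((l m).count i : ℂ) * s.toSpecies.tw ζ ξ ((Y i).cpow n) := by
      intro m
      rw [hz, ← s.toSpecies.z_tpow hζ hξ, s.toSpecies.z_iso _ _ ((Md.isom_iff _ _).1 (hiso m)),
        s.toSpecies.z_prod h3 hζ hξ,
        s.toSpecies.z_neg hζ (B m) (s.toSpecies_negligible (hB m)), add_zero,
        s.toSpecies.z_list h3 hζ hξ, hcount]
    change f.eval z = 0
    simp only [f, Polynomial.eval_finsetSum, Polynomial.eval_mul, Polynomial.eval_C,
      Polynomial.eval_pow, Polynomial.eval_X]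
    calc ∑ m : Fin (r + 1), c m * z ^ (m : ℕ)
        = ∑ m : Fin (r + 1), ∑ i,
            c m * (((l m).count i : ℂ) * s.toSpecies.tw ζ ξ ((Y i).cpow n)) := by
          refine Finset.sum_congr rfl fun m _ => ?_
          rw [h6, Finset.mul_sum]
      _ = ∑ i, (∑ m : Fin (r + 1), c m * ((l m).count i : ℂ)) *
            s.toSpecies.tw ζ ξ ((Y i).cpow n) := by
          rw [Finset.sum_comm]
          refine Finset.sum_congr rfl fun i _ => ?_
          rw [Finset.sum_mul]
          refine Finset.sum_congr rfl fun m _ => ?_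
          ring
      _ = 0 := by
          refine Finset.sum_eq_zero fun i _ => ?_
          have h7 := congrFun hc i
          simp only [Finset.sum_apply, Pi.smul_apply, smul_eq_mul, Pi.zero_apply] at h7
          rw [h7, zero_mul]
  have hfin : {x : ℂ | f.IsRoot x}.Finite := Polynomial.finite_setOfPred_isRoot hf
  obtain ⟨S, hS, hS1, hS2⟩ := powerSum_finite t ht (2 * p) (by omega) _ hfin hroot
  have hv : s.val X = ∑ i ∈ S, t i := by
    have h3 := s.toSpecies.val_eq_sum X t h1
    rw [hS1] at h3
    exact h3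
  have hvd : s.val X.dual = ∑ i ∈ S, (t i)⁻¹ := by
    have h3 := s.toSpecies.val_dual_eq_sum X t h2
    rw [hS2] at h3
    exact h3
  refine ⟨S.card, fun i => t (S.equivFin.symm i), ?_, ?_, ?_, ?_⟩
  · simpa using S.card_le_univ
  · intro i
    exact hS _ (S.equivFin.symm i).2
  · rw [hv, ← Finset.sum_coe_sort]
    exact (S.equivFin.symm.sum_comp (fun i : S => t i)).symm
  · rw [hvd, hv, map_sum]
    refine Finset.sum_congr rfl fun i hi => ?_
    obtain ⟨m, hm, hi⟩ := hS i hi
    have h3 : ‖t i‖ = 1 := Complex.norm_eq_one_of_pow_eq_one hi hm.ne'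
    rw [Complex.inv_def, Complex.normSq_eq_norm_sq, h3]
    simp

end Pool.Agent.H80Green
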