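import Pool.Agent.Helper80.Green.Twist
import Pool.Agent.Helper2.Green.Orbit
import Pool.Agent.Helper2.Green.MultiDeg

/-!
The twisted trace of the `n`-th exterior power of the induced module is the twisted trace of the
cyclic tensor power, for odd `n`.
-/

universe u v

open scoped TensorProduct

namespace Pool.Agent.H80Green

variable {k : Type u} [Field k] {G : Type v} [Group G]

/-- The rotation of multi-degrees. -/
def rotDeg (n : ℕ) (c : ZMod n) : Equiv.Perm (ZMod n → Fin (n + 1)) where
  toFun a := fun z => a (z - c)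
  invFun a := fun z => a (z + c)
  left_inv a := by
    funext z
    simp
  right_inv a := by
    funext z
    simp

lemma rotDeg_pow (n : ℕ) (c : ZMod n) (j : ℕ) (a : ZMod n → Fin (n + 1)) (z : ZMod n) :
    (rotDeg n c ^ j) a z = a (z - j * c) := by
  induction j generalizing z with
  | zero => simp
  | succ j ih =>
    rw [pow_succ', Equiv.Perm.mul_apply]
    change ((rotDeg n c ^ j) a) (z - c) = _
    rw [ih]
    congr 1
    push_cast
    ring

theorem Species.tw_ind_ext (s : Species k G) {n : ℕ} [NeZero n] (hn : Odd n) {ζ : k}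
    (hζ : IsPrimitiveRoot ζ n) {ξ : ℂ} (hξ : IsPrimitiveRoot ξ n) (X : Md k G) :
    s.tw ζ ξ ((X.ind n).ext n) = s.tw ζ ξ (X.cpow n) := by
  classical
  obtain ⟨P, hP, hsum, heq, hfix, α, hinj, hran, hα⟩ := multideg X.carrier n hn (k := k)
  have hrep : ∀ (g : G) (c : ZMod n), ((X.ind n).ext n).rep (g, cyc c) =
      exteriorPower.map n (rotMap n (X.rep g) c) := fun g c => rfl
  have hst : ∀ g : G × Cyc n, LinearMap.range (P fun _ => 1) ≤
      (LinearMap.range (P fun _ => 1)).comap (((X.ind n).ext n).rep g) := by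
    rintro ⟨g, c⟩ x ⟨y, rfl⟩
    rw [Submodule.mem_comap]
    have h1 := heq (X.rep g) (Multiplicative.toAdd c) (fun _ => 1)
    refine ⟨exteriorPower.map n (rotMap n (X.rep g) (Multiplicative.toAdd c)) y, ?_⟩
    exact (LinearMap.congr_fun h1 y).symm
  have h := s.tw_orbit hζ hξ ((X.ind n).ext n) (rotDeg n 1) ?_ P hP hsum ?_ ?_ (fun _ => 1) ?_
    ?_ hst
  · rw [h]
    apply s.tw_iso
    have hmem : ∀ x, α x ∈ LinearMap.range (P fun _ => 1) := by
      intro x
      rw [← hran]
      exact ⟨x, rfl⟩
    apply Md.Iso.symm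
    refine ⟨LinearEquiv.ofBijective (α.codRestrict _ hmem) ⟨?_, ?_⟩, ?_⟩
    · intro x y hxy
      apply hinj
      exact congrArg Subtype.val hxy
    · rintro ⟨y, hy⟩
      rw [← hran] at hy
      obtain ⟨x, rfl⟩ := hy
      exact ⟨x, rfl⟩
    · rintro ⟨g, c⟩ x
      apply Subtype.ext
      exact hα (X.rep g) (Multiplicative.toAdd c) x
  · apply Equiv.ext
    intro a
    funext z
    rw [rotDeg_pow]
    simp
  · intro a g
    have h1 := heq (X.rep g) 0 a
    have h2 : (fun z : ZMod n => a (z - 0)) = a := by
      funext z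
      rw [sub_zero]
    rw [h2] at h1
    exact h1.symm
  · intro a
    have h1 := heq (X.rep 1) 1 a
    exact h1
  · rfl
  · intro a ha hne
    apply hfix a _ hne
    intro z
    have h1 : (rotDeg n 1 ^ z.val) a = a := by
      have : ∀ j : ℕ, (rotDeg n 1 ^ j) a = a := by
        intro j
        induction j with
        | zero => rfl
        | succ j ih => rw [pow_succ', Equiv.Perm.mul_apply, ih, ha]
      exact this _
    have h2 := congrFun h1 z
    rw [rotDeg_pow] at h2
    rw [← h2]
    congr 1
    simp

end Pool.Agent.H80Green
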