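import Pool.Agent.Helper80.Green.Defs

/-!
GR-14: factorisation of a polynomial with constant term `1`; coefficient of the cyclic product.
-/

namespace Pool.Agent.H80Green

open Polynomial in
theorem exists_roots (D : ℕ) (e : ℕ → ℂ) (h0 : e 0 = 1) (hD : e D ≠ 0) :
    ∃ t : Fin D → ℂ, (∀ a, t a ≠ 0) ∧
      (∑ j ∈ Finset.range (D + 1), C (e j) * X ^ j : ℂ[X]) = ∏ a, (1 + C (t a) * X) := by
  set p : ℂ[X] := ∑ j ∈ Finset.range (D + 1), C (e j) * X ^ j with hp
  have hcoeff : ∀ i, p.coeff i = if i ∈ Finset.range (D + 1) then e i else 0 := by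
    intro i
    rw [hp, finsetSum_coeff]
    simp only [coeff_C_mul, coeff_X_pow, mul_ite, mul_one, mul_zero]
    rw [Finset.sum_ite_eq]
  have hle : p.natDegree ≤ D := by
    rw [natDegree_le_iff_coeff_eq_zero]
    intro i hi
    rw [hcoeff, if_neg]
    rw [Finset.mem_range]
    omega
  have hcD : p.coeff D = e D := by
    rw [hcoeff, if_pos (Finset.mem_range.2 (Nat.lt_succ_self D))]
  have hdeg : p.natDegree = D := natDegree_eq_of_le_of_coeff_ne_zero hle (by rw [hcD]; exact hD)
  have hlead : p.leadingCoeff = e D := by rw [leadingCoeff, hdeg, hcD]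
  have hc0 : p.coeff 0 = 1 := by
    rw [hcoeff, if_pos (Finset.mem_range.2 (Nat.succ_pos D)), h0]
  have hsplit := IsAlgClosed.splits p
  have hprod := hsplit.eq_prod_roots
  have hcard : Multiset.card p.roots = D := by rw [← hsplit.natDegree_eq_card_roots, hdeg]
  have hne : ∀ r ∈ p.roots, r ≠ 0 := by
    intro r hr h
    have h1 := isRoot_of_mem_roots hr
    rw [h, IsRoot.def, ← coeff_zero_eq_eval_zero, hc0] at h1
    exact one_ne_zero h1
  obtain ⟨l, hl⟩ := Quot.exists_rep p.roots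
  have hl' : (l : Multiset ℂ) = p.roots := hl
  have hlen : l.length = D := by
    rw [← hcard, ← hl', Multiset.coe_card]
  subst hlen
  have hmem : ∀ a : Fin l.length, l.get a ∈ p.roots := by
    intro a
    rw [← hl', Multiset.mem_coe]
    exact List.get_mem _ _
  refine ⟨fun a => -(l.get a)⁻¹, fun a => neg_ne_zero.2 (inv_ne_zero (hne _ (hmem a))), ?_⟩
  have h1 : (p.roots.map fun a => X - C a).prod = ∏ a : Fin l.length, (X - C (l.get a)) := by
    rw [← hl', Multiset.map_coe, Multiset.prod_coe]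
    rw [← List.prod_ofFn]
    congr 1
    conv_lhs => rw [← List.ofFn_get l, List.map_ofFn]
    rfl
  rw [h1] at hprod
  have h2 : ∀ a : Fin l.length, (X - C (l.get a) : ℂ[X]) =
      C (-(l.get a)) * (1 + C (-(l.get a)⁻¹) * X) := by
    intro a
    have h3 := hne _ (hmem a)
    rw [mul_add, ← mul_assoc, ← C_mul, neg_mul_neg, mul_inv_cancel₀ h3, C_1, C_neg]
    ring
  rw [Finset.prod_congr rfl (fun a _ => h2 a), Finset.prod_mul_distrib, ← mul_assoc] at hprod
  have h4 : C p.leadingCoeff * ∏ a : Fin l.length, C (-(l.get a)) = (1 : ℂ[X]) := by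
    rw [← map_prod, ← C_mul]
    have h5 := congrArg (fun q : ℂ[X] => q.coeff 0) hprod
    rw [hc0, ← map_prod, ← C_mul, coeff_C_mul, coeff_zero_eq_eval_zero, eval_prod] at h5
    simp only [eval_add, eval_one, eval_mul, eval_C, eval_X, mul_zero, add_zero,
      Finset.prod_const_one, mul_one] at h5
    rw [← h5, C_1]
  rw [h4, one_mul] at hprod
  exact hprod

open Polynomial in
theorem coeff_prod_linear {ι : Type*} (s : Finset ι) (c : ι → ℂ) :
    (∏ a ∈ s, (1 + C (c a) * X) : ℂ[X]).coeff 0 = 1 ∧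
      (∏ a ∈ s, (1 + C (c a) * X) : ℂ[X]).coeff 1 = ∑ a ∈ s, c a := by
  classical
  induction s using Finset.induction_on with
  | empty => simp [coeff_one]
  | insert a s ha ih =>
    rw [Finset.prod_insert ha, Finset.sum_insert ha, mul_coeff_zero, mul_coeff_one, ih.1, ih.2]
    simp [coeff_one]
    ring

open Polynomial in
theorem prod_cyc {n : ℕ} (hn : Odd n) {ξ : ℂ} (hξ : IsPrimitiveRoot ξ n) (t : ℂ) :
    (∏ i ∈ Finset.range n, (1 + C (t * ξ ^ i) * X) : ℂ[X]) = 1 + C (t ^ n) * X ^ n := by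
  classical
  have hζ : IsPrimitiveRoot (C ξ : ℂ[X]) n := hξ.map_of_injective C_injective
  have h1 := hζ.pow_add_pow_eq_prod_add_mul (1 : ℂ[X]) (C t * X) hn
  have h2 : nthRootsFinset n (1 : ℂ[X]) = (Finset.range n).image fun i => (C ξ : ℂ[X]) ^ i := by
    symm
    refine Finset.eq_of_subset_of_card_le ?_ ?_
    · intro z hz
      obtain ⟨i, -, rfl⟩ := Finset.mem_image.1 hz
      rw [mem_nthRootsFinset hn.pos, ← pow_mul, mul_comm, pow_mul, hζ.pow_eq_one, one_pow]
    · rw [hζ.card_nthRootsFinset, Finset.card_image_of_injOn, Finset.card_range]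
      intro i hi j hj hij
      exact hζ.pow_inj (Finset.mem_range.1 hi) (Finset.mem_range.1 hj) hij
  rw [h2, Finset.prod_image] at h1
  · rw [one_pow, mul_pow, ← C_pow] at h1
    rw [h1]
    refine Finset.prod_congr rfl fun i _ => ?_
    rw [C_mul, C_pow]
    ring
  · intro i hi j hj hij
    exact hζ.pow_inj (Finset.mem_range.1 hi) (Finset.mem_range.1 hj) hij

open Polynomial in
theorem coeff_cyc {D : ℕ} (t : Fin D → ℂ) {n : ℕ} (hn : Odd n) {ξ : ℂ}
    (hξ : IsPrimitiveRoot ξ n) :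
    (∏ i ∈ Finset.range n, ∏ a, (1 + C (t a * ξ ^ i) * X) : ℂ[X]).coeff n = ∑ a, t a ^ n := by
  rw [Finset.prod_comm, Finset.prod_congr rfl fun a _ => prod_cyc hn hξ (t a)]
  have h1 : (∏ a, (1 + C (t a ^ n) * X ^ n) : ℂ[X]) =
      expand ℂ n (∏ a, (1 + C (t a ^ n) * X)) := by
    rw [map_prod]
    refine Finset.prod_congr rfl fun a _ => ?_
    simp [expand_C, expand_X]
  rw [h1]
  have h2 := coeff_expand_mul hn.pos (∏ a, (1 + C (t a ^ n) * X) : ℂ[X]) 1
  rw [one_mul] at h2
  rw [h2, (coeff_prod_linear Finset.univ fun a => t a ^ n).2]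

end Pool.Agent.H80Green
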