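import Pool.Agent.Helper80.Green.Defs

/-!
# The perfect wedge pairing as an isomorphism of modules; one-dimensional modules (GR-11)
-/

universe u v

open scoped TensorProduct

namespace Pool.Agent.H80Green

variable {k : Type u} [Field k] {G : Type v} [Group G]

namespace Wedge62

open Module Set.powersetCard

variable {M : Type u} [AddCommGroup M] [Module k M]

/-- the functoriality of the exterior power is induced from the exterior algebra -/
theorem coe_map {N : Type u} [AddCommGroup N] [Module k N] (n : ℕ) (f : M →ₗ[k] N)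
    (x : ⋀[k]^n M) :
    ((exteriorPower.map n f x : ⋀[k]^n N) : ExteriorAlgebra k N) =
      ExteriorAlgebra.map f (x : ExteriorAlgebra k M) := by
  have h : (Submodule.subtype _ ∘ₗ exteriorPower.map n f : ⋀[k]^n M →ₗ[k] ExteriorAlgebra k N) =
      (ExteriorAlgebra.map f).toLinearMap ∘ₗ Submodule.subtype _ := by
    apply exteriorPower.linearMap_ext
    ext m
    simp
  exact LinearMap.congr_fun h x

/-- the wedge product, as a linear map -/
noncomputable def wedge (D j : ℕ) (hj : j ≤ D) :
    ⋀[k]^(D - j) M →ₗ[k] (⋀[k]^j M →ₗ[k] ⋀[k]^D M) :=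
  LinearMap.mk₂ k (fun ω η => ⟨(η : ExteriorAlgebra k M) * (ω : ExteriorAlgebra k M), by
      have h := Submodule.mul_mem_mul η.2 ω.2
      rw [← pow_add, Nat.add_sub_cancel' hj] at h
      exact h⟩)
    (fun a b c => Subtype.ext (mul_add _ _ _))
    (fun r a c => Subtype.ext (mul_smul_comm _ _ _))
    (fun a b c => Subtype.ext (add_mul _ _ _))
    (fun r a c => Subtype.ext (smul_mul_assoc _ _ _))

theorem coe_wedge (D j : ℕ) (hj : j ≤ D) (ω : ⋀[k]^(D - j) M) (η : ⋀[k]^j M) :
    ((wedge D j hj ω η : ⋀[k]^D M) : ExteriorAlgebra k M) =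
      (η : ExteriorAlgebra k M) * (ω : ExteriorAlgebra k M) := rfl

theorem wedge_inj {D : ℕ} (b : Basis (Fin D) k M) (j : ℕ) (hj : j ≤ D) :
    Function.Injective (wedge (k := k) (M := M) D j hj) := by
  rw [injective_iff_map_eq_zero]
  intro ω hω
  have hmul : ∀ η : ⋀[k]^j M, (η : ExteriorAlgebra k M) * (ω : ExteriorAlgebra k M) = 0 := by
    intro η
    have := congrArg (fun f : ⋀[k]^j M →ₗ[k] ⋀[k]^D M => ((f η : ⋀[k]^D M) :
      ExteriorAlgebra k M)) hω
    exact this
  apply (b.exteriorPower (D - j)).repr.injective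
  ext S
  rw [map_zero, Finsupp.zero_apply]
  let Sc : Set.powersetCard (Fin D) j := ⟨(S : Finset (Fin D))ᶜ, by
    rw [mem_iff, Finset.card_compl, Fintype.card_fin, card_eq]
    omega⟩
  have hexp : (ω : ExteriorAlgebra k M) = ∑ T : Set.powersetCard (Fin D) (D - j),
      (b.exteriorPower (D - j)).repr ω T • b.ExteriorAlgebra (T : Finset (Fin D)) := by
    conv_lhs => rw [← (b.exteriorPower (D - j)).sum_repr ω]
    rw [Submodule.coe_sum]
    refine Finset.sum_congr rfl fun T _ => ?_
    rw [Submodule.coe_smul, ExteriorAlgebra.basis_eq_coe_basis]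
  have h1 := hmul (b.exteriorPower j Sc)
  rw [← ExteriorAlgebra.basis_eq_coe_basis, hexp, Finset.mul_sum] at h1
  rw [Finset.sum_eq_single S] at h1
  · have hd : Disjoint (Sc : Finset (Fin D)) (S : Finset (Fin D)) := disjoint_compl_left
    rw [mul_smul_comm, ExteriorAlgebra.basis_mul_of_disjoint b Sc S hd] at h1
    have hne := b.ExteriorAlgebra.ne_zero ((disjUnion hd : Set.powersetCard (Fin D) (j + (D - j))) :
      Finset (Fin D))
    rcases smul_eq_zero.1 h1 with h2 | h2
    · exact h2
    · exfalso
      apply hne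
      rcases Int.units_eq_one_or (Equiv.Perm.sign (permOfDisjoint hd)) with h3 | h3
      · rw [h3] at h2
        simpa using h2
      · rw [h3] at h2
        simpa using h2
  · intro T _ hT
    have hd : ¬ Disjoint (Sc : Finset (Fin D)) (T : Finset (Fin D)) := by
      intro hd
      apply hT
      rw [eq_iff_subset]
      intro x hx
      by_contra hxS
      exact Finset.disjoint_left.1 hd (Finset.mem_compl.2 hxS) hx
    rw [mul_smul_comm, ExteriorAlgebra.basis_mul_of_not_disjoint b Sc T hd, smul_zero]
  · intro h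
    exact absurd (Finset.mem_univ S) h

end Wedge62

open Wedge62 in
theorem Md.wedge_dual (X : Md k G) (j : ℕ) (hj : j ≤ X.dim) :
    Md.Iso ((X.ext j).dual.tensor (X.ext X.dim)) (X.ext (X.dim - j)) := by
  have hinj := wedge_inj (Module.finBasis k X.carrier) j hj
  let W := wedge (k := k) (M := X.carrier) X.dim j hj
  have hW : ∀ (g : G) (ω : ⋀[k]^(X.dim - j) X.carrier),
      W ((X.ext (X.dim - j)).rep g ω) =
        Representation.linHom (X.ext j).rep (X.ext X.dim).rep g (W ω) := by
    intro g ω
    apply LinearMap.ext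
    intro η
    apply Subtype.ext
    change ((η : ExteriorAlgebra k X.carrier) *
        ((exteriorPower.map (X.dim - j) (X.rep g) ω : ⋀[k]^(X.dim - j) X.carrier) :
          ExteriorAlgebra k X.carrier)) =
      ((exteriorPower.map X.dim (X.rep g) (wedge X.dim j hj ω
        (exteriorPower.map j (X.rep g⁻¹) η)) : ⋀[k]^(X.dim) X.carrier) :
          ExteriorAlgebra k X.carrier)
    rw [coe_map, coe_map, coe_wedge, map_mul, ← coe_map j]
    congr 1
    rw [← LinearMap.comp_apply, ← exteriorPower.map_comp]
    have h : X.rep g ∘ₗ X.rep g⁻¹ = LinearMap.id := by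
      have := map_mul X.rep g g⁻¹
      rw [mul_inv_cancel, map_one] at this
      exact this.symm
    rw [h, exteriorPower.map_id]
    rfl
  let e2 := dualTensorHomEquiv k (⋀[k]^j X.carrier) (⋀[k]^(X.dim) X.carrier)
  have he2 : ∀ (g : G) (y : Module.Dual k (⋀[k]^j X.carrier) ⊗[k] ⋀[k]^(X.dim) X.carrier),
      e2 (((X.ext j).dual.tensor (X.ext X.dim)).rep g y) =
        Representation.linHom (X.ext j).rep (X.ext X.dim).rep g (e2 y) := by
    intro g y
    exact LinearMap.congr_fun
      (Representation.dualTensorHom_comm (X.ext j).rep (X.ext X.dim).rep g) y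
  let F : ⋀[k]^(X.dim - j) X.carrier →ₗ[k]
      Module.Dual k (⋀[k]^j X.carrier) ⊗[k] ⋀[k]^(X.dim) X.carrier := e2.symm.toLinearMap ∘ₗ W
  have hF : ∀ ω, e2 (F ω) = W ω := fun ω => e2.apply_symm_apply _
  have hFinj : Function.Injective F := e2.symm.injective.comp hinj
  have hdim : Module.finrank k (⋀[k]^(X.dim - j) X.carrier) =
      Module.finrank k (Module.Dual k (⋀[k]^j X.carrier) ⊗[k] ⋀[k]^(X.dim) X.carrier) := by
    rw [Module.finrank_tensorProduct, Subspace.dual_finrank_eq, exteriorPower.finrank_eq,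
      exteriorPower.finrank_eq, exteriorPower.finrank_eq]
    change X.dim.choose (X.dim - j) = X.dim.choose j * X.dim.choose X.dim
    rw [Nat.choose_self, mul_one, Nat.choose_symm hj]
  have hFsurj : Function.Surjective F := by
    have h := LinearMap.injective_iff_surjective_of_finrank_eq_finrank (K := k)
      (V := ⋀[k]^(X.dim - j) X.carrier)
      (V₂ := Module.Dual k (⋀[k]^j X.carrier) ⊗[k] ⋀[k]^(X.dim) X.carrier) (f := F)
    exact (h hdim).1 hFinj
  refine ⟨(LinearEquiv.ofBijective F ⟨hFinj, hFsurj⟩).symm, fun g y => ?_⟩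
  rw [LinearEquiv.symm_apply_eq]
  obtain ⟨ω, rfl⟩ := hFsurj y
  have h1 : (LinearEquiv.ofBijective F ⟨hFinj, hFsurj⟩).symm (F ω) = ω := by
    rw [LinearEquiv.symm_apply_eq]
    rfl
  rw [h1]
  apply e2.injective
  rw [he2, hF]
  change _ = e2 (F ((X.ext (X.dim - j)).rep g ω))
  rw [hF, hW]

theorem Md.dim_one_dual (L : Md k G) (hL : L.dim = 1) : Md.Iso (L.tensor L.dual) (Md.triv k G) := by
  have hL' : Module.finrank k L.carrier = 1 := hL
  obtain ⟨x, hx⟩ : ∃ x : L.carrier, x ≠ 0 := by
    have : Nontrivial L.carrier := Module.nontrivial_of_finrank_pos (R := k) (by rw [hL']; norm_num)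
    exact exists_ne 0
  obtain ⟨f, hf⟩ : ∃ f : Module.Dual k L.carrier, f x ≠ 0 := by
    by_contra hcon
    push Not at hcon
    exact hx ((Module.forall_dual_apply_eq_zero_iff k x).1 hcon)
  have hdim : Module.finrank k (L.carrier ⊗[k] Module.Dual k L.carrier) =
      Module.finrank k k := by
    rw [Module.finrank_tensorProduct, Subspace.dual_finrank_eq, hL', Module.finrank_self]
  have hsurj : Function.Surjective (contractRight k L.carrier) := by
    intro c
    refine ⟨x ⊗ₜ[k] ((c / f x) • f), ?_⟩
    rw [contractRight_apply]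
    simp [hf]
  have hinj : Function.Injective (contractRight k L.carrier) :=
    (LinearMap.injective_iff_surjective_of_finrank_eq_finrank hdim).2 hsurj
  refine ⟨LinearEquiv.ofBijective (contractRight k L.carrier) ⟨hinj, hsurj⟩, fun g y => ?_⟩
  rw [Md.triv_rep]
  change contractRight k L.carrier (TensorProduct.map (L.rep g) (L.rep.dual g) y) =
    contractRight k L.carrier y
  have h : contractRight k L.carrier ∘ₗ TensorProduct.map (L.rep g) (L.rep.dual g) =
      contractRight k L.carrier := by
    apply TensorProduct.ext'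
    intro y φ
    rw [LinearMap.comp_apply, TensorProduct.map_tmul, contractRight_apply, contractRight_apply]
    change φ (L.rep g⁻¹ (L.rep g y)) = φ y
    rw [← Module.End.mul_apply, ← map_mul, inv_mul_cancel, map_one]
    rfl
  exact LinearMap.congr_fun h y

end Pool.Agent.H80Green
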