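import Pool.Agent.Helper80.Green.PermSide
import Pool.Agent.Helper80.Green.ExtProd
import Pool.Agent.Helper80.Green.ExtMisc
import Pool.Agent.Helper80.Green.Wedge
import Pool.Agent.Helper80.Green.RootsPoly

/-!
The twisted trace of the cyclic tensor power is the `n`-th power sum of the exterior power roots.
-/

universe u v

open scoped TensorProduct

namespace Pool.Agent.H80Green

variable {k : Type u} [Field k] {G : Type v} [Group G]

lemma coe_prod_poly {ι : Type*} (S : Finset ι) (f : ι → Polynomial ℂ) :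
    ((∏ a ∈ S, f a : Polynomial ℂ) : PowerSeries ℂ) = ∏ a ∈ S, (f a : PowerSeries ℂ) := by
  simp only [← Polynomial.coeToPowerSeries.ringHom_apply, map_prod]

namespace Species

/-- The generating function of the values of `s` on the exterior powers. -/
noncomputable def eser (s : Species k G) (X : Md k G) : PowerSeries ℂ :=
  PowerSeries.mk fun j => s.val (X.ext j)

variable (s : Species k G)

lemma eser_iso (X Y : Md k G) (h : Md.Iso X Y) : s.eser X = s.eser Y := by
  unfold eser
  congr 1
  funext j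
  exact s.iso _ _ (Md.ext_iso h j)

lemma eser_prod (X Y : Md k G) : s.eser (X.prod Y) = s.eser X * s.eser Y := by
  ext N
  rw [PowerSeries.coeff_mul, eser, PowerSeries.coeff_mk, s.val_ext_prod]
  simp [eser]

lemma val_ext_of_lt (X : Md k G) (j : ℕ) (h : X.dim < j) : s.val (X.ext j) = 0 := by
  apply s.val_of_dim_zero
  rw [Md.dim_ext]
  exact Nat.choose_eq_zero_of_lt h

lemma val_ext_zero (X : Md k G) : s.val (X.ext 0) = 1 := by
  rw [s.iso _ _ (Md.ext_zero X), s.one]

lemma eser_zero (X : Md k G) (h : X.dim = 0) : s.eser X = 1 := by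
  ext N
  rw [eser, PowerSeries.coeff_mk, PowerSeries.coeff_one]
  split_ifs with hN
  · rw [hN, val_ext_zero]
  · exact s.val_ext_of_lt X N (by omega)

lemma eser_pi {ι : Type} [Fintype ι] (Y : ι → Md k G) :
    s.eser (Md.pi Y) = ∏ i, s.eser (Y i) :=
  prod_pi s.eser s.eser_iso s.eser_prod s.eser_zero Y

/-- The top exterior power has nonzero value. -/
lemma val_top_ne_zero (X : Md k G) : s.val (X.ext X.dim) ≠ 0 := by
  have h1 : (X.ext X.dim).dim = 1 := by
    rw [Md.dim_ext, Nat.choose_self]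
  have h2 := s.iso _ _ (Md.dim_one_dual _ h1)
  rw [s.mul, s.one] at h2
  intro h
  rw [h, zero_mul] at h2
  exact zero_ne_one h2

/-- The roots of a module. -/
lemma exists_eser (X : Md k G) :
    ∃ t : Fin X.dim → ℂ, (∀ a, t a ≠ 0) ∧
      s.eser X = ∏ a, (1 + PowerSeries.C (t a) * PowerSeries.X) := by
  obtain ⟨t, ht, h⟩ := exists_roots X.dim (fun j => s.val (X.ext j)) (s.val_ext_zero X)
    (s.val_top_ne_zero X)
  refine ⟨t, ht, ?_⟩
  have h1 : s.eser X = ((∑ j ∈ Finset.range (X.dim + 1),
      Polynomial.C (s.val (X.ext j)) * Polynomial.X ^ j : Polynomial ℂ) :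
      PowerSeries ℂ) := by
    ext N
    rw [eser, PowerSeries.coeff_mk, Polynomial.coeff_coe, Polynomial.finsetSum_coeff]
    simp only [Polynomial.coeff_C_mul_X_pow]
    rw [Finset.sum_ite_eq]
    split_ifs with hN
    · rfl
    · apply s.val_ext_of_lt
      rw [Finset.mem_range] at hN
      omega
  rw [h1, h, coe_prod_poly]
  refine Finset.prod_congr rfl fun a _ => ?_
  simp only [Polynomial.coe_add, Polynomial.coe_one, Polynomial.coe_mul, Polynomial.coe_C,
    Polynomial.coe_X]

lemma eser_infl {n : ℕ} [NeZero n] {ζ : k} (hζ : IsPrimitiveRoot ζ n) {ξ : ℂ}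
    (hξ : IsPrimitiveRoot ξ n) (X : Md k G) (i : ℕ) :
    (s.twist hζ hξ).eser (X.infl (ζ ^ i) (root_pow hζ i)) =
      PowerSeries.rescale (ξ ^ i) (s.eser X) := by
  ext j
  rw [PowerSeries.coeff_rescale, eser, eser, PowerSeries.coeff_mk, PowerSeries.coeff_mk,
    twist_val]
  have hc : ((ζ ^ i) ^ j) ^ n = 1 := by
    rw [← pow_mul ζ i j]
    exact root_pow hζ _
  rw [s.tw_iso ζ ξ _ _ (Md.ext_infl X (ζ ^ i) (root_pow hζ i) j hc),
    s.tw_infl' hζ hξ (X.ext j) (i * j) _ hc (pow_mul ζ i j).symm, pow_mul]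

/-- **The power sum identity.** -/
theorem tw_cpow {n : ℕ} [NeZero n] (hn : Odd n) {ζ : k}
    (hζ : IsPrimitiveRoot ζ n) {ξ : ℂ} (hξ : IsPrimitiveRoot ξ n) (X : Md k G)
    {ι : Type} [Fintype ι] (t : ι → ℂ)
    (ht : s.eser X = ∏ a, (1 + PowerSeries.C (t a) * PowerSeries.X)) :
    s.tw ζ ξ (X.cpow n) = ∑ a, t a ^ n := by
  rw [← s.tw_ind_ext hn hζ hξ X]
  have h1 : s.tw ζ ξ ((X.ind n).ext n) =
      PowerSeries.coeff n ((s.twist hζ hξ).eser (X.ind n)) := by
    rw [eser, PowerSeries.coeff_mk, twist_val]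
  have h2 : (s.twist hζ hξ).eser (X.ind n) =
      ∏ i : Fin n, PowerSeries.rescale (ξ ^ (i : ℕ)) (s.eser X) := by
    rw [(s.twist hζ hξ).eser_iso _ _ (Md.ind_iso_pi X hζ), eser_pi]
    exact Finset.prod_congr rfl fun i _ => s.eser_infl hζ hξ X i
  obtain e := Fintype.equivFin ι
  have h3 := coeff_cyc (fun a => t (e.symm a)) hn hξ
  have h4 : ∀ i : ℕ, PowerSeries.rescale (ξ ^ i) (s.eser X) =
      ((∏ a : Fin (Fintype.card ι), (1 + Polynomial.C (t (e.symm a) * ξ ^ i) * Polynomial.X) :
        Polynomial ℂ) : PowerSeries ℂ) := by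
    intro i
    rw [ht, map_prod, ← e.symm.prod_comp]
    have h5 : ∀ a : Fin (Fintype.card ι),
        PowerSeries.rescale (ξ ^ i) (1 + PowerSeries.C (t (e.symm a)) * PowerSeries.X) =
          ((1 + Polynomial.C (t (e.symm a) * ξ ^ i) * Polynomial.X : Polynomial ℂ) :
            PowerSeries ℂ) := by
      intro a
      rw [map_add, map_mul, map_one]
      have h6 : PowerSeries.rescale (ξ ^ i) (PowerSeries.C (t (e.symm a))) =
          PowerSeries.C (t (e.symm a)) := by
        ext N
        rw [PowerSeries.coeff_rescale, PowerSeries.coeff_C]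
        split_ifs with hN
        · rw [hN]; simp
        · simp
      rw [h6, PowerSeries.rescale_X]
      simp only [Polynomial.coe_add, Polynomial.coe_one, Polynomial.coe_mul, Polynomial.coe_C,
        Polynomial.coe_X, map_mul]
      ring
    rw [Finset.prod_congr rfl fun a _ => h5 a, coe_prod_poly]
  rw [h1, h2, Finset.prod_congr rfl (fun (i : Fin n) _ => h4 i)]
  have h7 : (∏ i : Fin n, ((∏ a : Fin (Fintype.card ι),
      (1 + Polynomial.C (t (e.symm a) * ξ ^ (i : ℕ)) * Polynomial.X) : Polynomial ℂ) :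
        PowerSeries ℂ)) = ((∏ i ∈ Finset.range n, ∏ a : Fin (Fintype.card ι),
      (1 + Polynomial.C (t (e.symm a) * ξ ^ i) * Polynomial.X) : Polynomial ℂ) :
        PowerSeries ℂ) := by
    rw [Finset.prod_range, coe_prod_poly]
  rw [h7, Polynomial.coeff_coe, h3, e.symm.sum_comp (fun a => t a ^ n)]

/-- The value of `s` is the sum of the roots. -/
lemma val_eq_sum (X : Md k G) {ι : Type} [Fintype ι] (t : ι → ℂ)
    (ht : s.eser X = ∏ a, (1 + PowerSeries.C (t a) * PowerSeries.X)) :
    s.val X = ∑ a, t a := by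
  classical
  have h1 : s.val X = PowerSeries.coeff 1 (s.eser X) := by
    rw [eser, PowerSeries.coeff_mk, s.iso _ _ (Md.ext_one X)]
  have key : ∀ S : Finset ι,
      PowerSeries.constantCoeff (∏ a ∈ S, (1 + PowerSeries.C (t a) * PowerSeries.X)) = 1 ∧
      PowerSeries.coeff 1 (∏ a ∈ S, (1 + PowerSeries.C (t a) * PowerSeries.X)) =
        ∑ a ∈ S, t a := by
    intro S
    induction S using Finset.induction_on with
    | empty => simp [PowerSeries.coeff_one]
    | insert a S ha ih =>
      rw [Finset.prod_insert ha, Finset.sum_insert ha]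
      constructor
      · rw [map_mul, ih.1]
        simp
      · rw [add_mul, one_mul, map_add, ih.2, mul_assoc, PowerSeries.coeff_C_mul,
          PowerSeries.coeff_succ_X_mul, PowerSeries.coeff_zero_eq_constantCoeff_apply, ih.1]
        ring
  rw [h1, ht]
  exact (key Finset.univ).2

end Species

end Pool.Agent.H80Green
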