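import Pool.Agent.Helper80.Green.Defs

/-!
# Twisted trace of a species (module GR-1)
-/

universe u v

open scoped TensorProduct

namespace Pool.Agent.H80Green

variable {k : Type u} [Field k] {G : Type v} [Group G]

theorem Md.eig_iso {n : ℕ} {V W : Md k (G × Cyc n)} (h : Md.Iso V W) (c : k) :
    Md.Iso (V.eig c) (W.eig c) := by
  obtain ⟨e, he⟩ := h
  have h1 : ∀ x ∈ Module.End.eigenspace V.sig c, e x ∈ Module.End.eigenspace W.sig c := by
    intro x hx
    rw [Module.End.mem_eigenspace_iff] at hx ⊢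
    change W.rep (1, cyc 1) (e x) = c • e x
    rw [← he]
    change e (V.sig x) = _
    rw [hx, map_smul]
  have h2 : ∀ y ∈ Module.End.eigenspace W.sig c, e.symm y ∈ Module.End.eigenspace V.sig c := by
    intro y hy
    rw [Module.End.mem_eigenspace_iff] at hy ⊢
    change V.rep (1, cyc 1) (e.symm y) = c • e.symm y
    apply e.injective
    rw [he, LinearEquiv.apply_symm_apply, map_smul, LinearEquiv.apply_symm_apply]
    exact hy
  refine ⟨LinearEquiv.ofLinearMap (e.toLinearMap.restrict h1) (e.symm.toLinearMap.restrict h2)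
    ?_ ?_, ?_⟩
  · ext y
    simp [LinearMap.restrict_apply]
  · ext y
    simp [LinearMap.restrict_apply]
  · intro g x
    apply Subtype.ext
    exact he (g, 1) x

theorem Md.eig_prod {n : ℕ} (V W : Md k (G × Cyc n)) (c : k) :
    Md.Iso ((V.prod W).eig c) ((V.eig c).prod (W.eig c)) := by
  have h1 : ∀ x : V.carrier × W.carrier, x ∈ Module.End.eigenspace (V.prod W).sig c ↔
      x.1 ∈ Module.End.eigenspace V.sig c ∧ x.2 ∈ Module.End.eigenspace W.sig c := by
    intro x
    rw [Module.End.mem_eigenspace_iff, Module.End.mem_eigenspace_iff,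
      Module.End.mem_eigenspace_iff]
    exact Prod.ext_iff
  refine ⟨LinearEquiv.ofLinearMap
    (((LinearMap.fst k V.carrier W.carrier).restrict fun x hx => ((h1 x).1 hx).1).prod
      ((LinearMap.snd k V.carrier W.carrier).restrict fun x hx => ((h1 x).1 hx).2))
    (LinearMap.codRestrict _ (LinearMap.prodMap
      (Submodule.subtype (Module.End.eigenspace V.sig c))
      (Submodule.subtype (Module.End.eigenspace W.sig c)))
      fun x => (h1 _).2 ⟨x.1.2, x.2.2⟩) ?_ ?_, ?_⟩
  · ext y <;> rfl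
  · ext y <;> rfl
  · intro g x
    rfl

theorem Species.tw_iso (s : Species k G) {n : ℕ} (ζ : k) (ξ : ℂ) (V W : Md k (G × Cyc n))
    (h : Md.Iso V W) : s.tw ζ ξ V = s.tw ζ ξ W := by
  unfold Species.tw
  refine Finset.sum_congr rfl fun i _ => ?_
  rw [s.iso _ _ (Md.eig_iso h _)]

theorem Species.tw_add (s : Species k G) {n : ℕ} (ζ : k) (ξ : ℂ) (V W : Md k (G × Cyc n)) :
    s.tw ζ ξ (V.prod W) = s.tw ζ ξ V + s.tw ζ ξ W := by
  unfold Species.tw
  rw [← Finset.sum_add_distrib]
  refine Finset.sum_congr rfl fun i _ => ?_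
  rw [s.iso _ _ (Md.eig_prod V W _), s.add, mul_add]

theorem Md.infl_sig {n : ℕ} [NeZero n] (U : Md k G) (c : k) (hc : c ^ n = 1) (x : U.carrier) :
    (U.infl c hc).sig x = c • x := by
  have h0 : (U.infl c hc).sig x = c ^ (1 : ZMod n).val • U.rep 1 x := rfl
  rw [h0, map_one, Module.End.one_apply]
  congr 1
  rcases eq_or_ne n 1 with rfl | hn
  · rw [pow_one] at hc
    rw [hc, one_pow]
  · have : Fact (1 < n) := ⟨by
      have := NeZero.pos n
      omega⟩
    rw [ZMod.val_one, pow_one]

theorem Species.tw_infl (s : Species k G) {n : ℕ} [NeZero n] {ζ : k} (hζ : IsPrimitiveRoot ζ n)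
    (ξ : ℂ) (U : Md k G) (i : ℕ) (hi : i < n) :
    s.tw ζ ξ (U.infl (ζ ^ i) (root_pow hζ i)) = ξ ^ i * s.val U := by
  unfold Species.tw
  rw [Finset.sum_eq_single i]
  · congr 1
    apply s.iso
    have h1 : ∀ x : U.carrier,
        x ∈ Module.End.eigenspace (U.infl (ζ ^ i) (root_pow hζ i)).sig (ζ ^ i) := fun x => by
      rw [Module.End.mem_eigenspace_iff]
      exact Md.infl_sig U _ _ x
    refine ⟨LinearEquiv.ofLinearMap (Submodule.subtype _) (LinearMap.codRestrict _ LinearMap.id h1)
      ?_ ?_, ?_⟩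
    · ext x; rfl
    · ext x; rfl
    · intro g x
      change ((ζ ^ i) ^ (0 : ZMod n).val • U.rep g x.1 : U.carrier) = U.rep g x.1
      rw [ZMod.val_zero, pow_zero, one_smul]
  · intro j hj hji
    rw [s.val_of_dim_zero, mul_zero]
    have hne : ζ ^ j ≠ ζ ^ i := fun h => hji (hζ.pow_inj (Finset.mem_range.1 hj) hi h)
    have : Module.End.eigenspace (U.infl (ζ ^ i) (root_pow hζ i)).sig (ζ ^ j) = ⊥ := by
      rw [eq_bot_iff]
      intro x hx
      rw [Module.End.mem_eigenspace_iff] at hx
      have h2 : (ζ ^ i) • (x : U.carrier) = (ζ ^ j) • x := (Md.infl_sig U _ _ x).symm.trans hx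
      have h3 : (ζ ^ j - ζ ^ i) • (x : U.carrier) = 0 := by rw [sub_smul, h2, sub_self]
      exact (smul_eq_zero.1 h3).resolve_left (sub_ne_zero.2 hne)
    have hs : Subsingleton (Module.End.eigenspace (U.infl (ζ ^ i) (root_pow hζ i)).sig (ζ ^ j)) := by
      rw [this]
      infer_instance
    exact Module.finrank_zero_of_subsingleton
  · intro h
    exact absurd (Finset.mem_range.2 hi) h

end Pool.Agent.H80Green
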