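import Pool.Agent.Helper80.Green.Defs

/-!
GR-2: a module over `G × C_n` is the direct sum of the eigenspaces of the generator of `C_n`.
-/

universe u v

open scoped TensorProduct

namespace Pool.Agent.H80Green

variable {k : Type u} [Field k] {G : Type v} [Group G]

set_option linter.unusedSectionVars false

section Tw2

variable {n : ℕ} [NeZero n]

lemma tw2_sig_pow (V : Md k (G × Cyc n)) (m : ℕ) :
    V.sig ^ m = V.rep (1, cyc (m : ZMod n)) := by
  unfold Md.sig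
  rw [← map_pow]
  congr 1
  rw [Prod.pow_mk, one_pow]
  congr 1
  rw [← ofAdd_nsmul, nsmul_one]

lemma tw2_sig_n (V : Md k (G × Cyc n)) : V.sig ^ n = 1 := by
  rw [tw2_sig_pow, ZMod.natCast_self]
  exact map_one V.rep

lemma tw2_rep (V : Md k (G × Cyc n)) (g : G) (c : Cyc n) (x : V.carrier) :
    V.rep (g, c) x = V.rep (g, 1) ((V.sig ^ (Multiplicative.toAdd c).val) x) := by
  rw [tw2_sig_pow, ZMod.natCast_zmod_val]
  have h : V.rep (g, c) = V.rep (g, 1) * V.rep (1, cyc (Multiplicative.toAdd c)) := by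
    rw [← map_mul]
    congr 1
    simp
  rw [h]
  rfl

/-- the projection onto the eigenspace for `ζ ^ i` -/
noncomputable def tw2_pr (V : Md k (G × Cyc n)) (ζ : k) (i : ℕ) : Module.End k V.carrier :=
  (n : k)⁻¹ • ∑ j ∈ Finset.range n, (ζ⁻¹ ^ (i * j)) • V.sig ^ j

lemma tw2_sig_pr (V : Md k (G × Cyc n)) {ζ : k} (hζ : IsPrimitiveRoot ζ n) (i : ℕ)
    (x : V.carrier) : V.sig (tw2_pr V ζ i x) = ζ ^ i • tw2_pr V ζ i x := by
  have hζ0 : ζ ≠ 0 := hζ.ne_zero (NeZero.ne n)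
  have h1 : V.sig * tw2_pr V ζ i = ζ ^ i • tw2_pr V ζ i := by
    unfold tw2_pr
    rw [mul_smul_comm, smul_comm (ζ ^ i)]
    congr 1
    rw [Finset.mul_sum, Finset.smul_sum]
    have h2 : ∀ j ∈ Finset.range n, V.sig * (ζ⁻¹ ^ (i * j)) • V.sig ^ j =
        (fun j : ℕ => (ζ ^ i * ζ⁻¹ ^ (i * j)) • V.sig ^ j) (j + 1) := by
      intro j _
      simp only
      rw [mul_smul_comm, ← pow_succ']
      congr 1
      rw [mul_add, mul_one, pow_add, inv_pow ζ i]
      field_simp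
    rw [Finset.sum_congr rfl h2]
    have h3 := Finset.sum_range_succ (fun j : ℕ => (ζ ^ i * ζ⁻¹ ^ (i * j)) • V.sig ^ j) n
    have h4 := Finset.sum_range_succ' (fun j : ℕ => (ζ ^ i * ζ⁻¹ ^ (i * j)) • V.sig ^ j) n
    have h5 : (ζ ^ i * ζ⁻¹ ^ (i * n)) • V.sig ^ n = (ζ ^ i * ζ⁻¹ ^ (i * 0)) • V.sig ^ 0 := by
      rw [tw2_sig_n, mul_zero, pow_zero, pow_zero, mul_comm i n, pow_mul, inv_pow, hζ.pow_eq_one]
      simp
    rw [h3, h5] at h4
    rw [← add_right_cancel h4]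
    apply Finset.sum_congr rfl
    intro j _
    rw [smul_smul]
  exact LinearMap.congr_fun h1 x

lemma tw2_geom {ζ : k} (hζ : IsPrimitiveRoot ζ n) (a b : ℕ) (ha : a < n) (hb : b < n) :
    ∑ j ∈ Finset.range n, (ζ⁻¹ ^ (a * j)) * ζ ^ (b * j) = if a = b then (n : k) else 0 := by
  have hζ0 : ζ ≠ 0 := hζ.ne_zero (NeZero.ne n)
  have h1 : ∀ j ∈ Finset.range n, (ζ⁻¹ ^ (a * j)) * ζ ^ (b * j) = (ζ⁻¹ ^ a * ζ ^ b) ^ j := by
    intro j _
    rw [mul_pow, ← pow_mul, ← pow_mul]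
  rw [Finset.sum_congr rfl h1]
  split_ifs with hab
  · subst hab
    have : ζ⁻¹ ^ a * ζ ^ a = 1 := by
      rw [← mul_pow, inv_mul_cancel₀ hζ0, one_pow]
    rw [this]
    simp
  · have hne : ζ⁻¹ ^ a * ζ ^ b ≠ 1 := by
      intro h
      apply hab
      rw [inv_pow, inv_mul_eq_one₀ (pow_ne_zero _ hζ0)] at h
      exact hζ.pow_inj ha hb h
    have hn1 : (ζ⁻¹ ^ a * ζ ^ b) ^ n = 1 := by
      rw [mul_pow, ← pow_mul, ← pow_mul, mul_comm a, mul_comm b, pow_mul, pow_mul, inv_pow,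
        hζ.pow_eq_one]
      simp
    have h2 := mul_geom_sum (ζ⁻¹ ^ a * ζ ^ b) n
    rw [hn1, sub_self] at h2
    exact (mul_eq_zero.1 h2).resolve_left (sub_ne_zero.2 hne)

lemma tw2_n_ne {ζ : k} (hζ : IsPrimitiveRoot ζ n) : (n : k) ≠ 0 := by
  have : NeZero ((n : ℕ) : k) := hζ.neZero'
  exact NeZero.ne _

lemma tw2_sum_pr (V : Md k (G × Cyc n)) {ζ : k} (hζ : IsPrimitiveRoot ζ n) (x : V.carrier) :
    ∑ i : Fin n, tw2_pr V ζ i x = x := by
  have hn := tw2_n_ne hζ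
  have h1 : ∑ i : Fin n, tw2_pr V ζ i = 1 := by
    unfold tw2_pr
    rw [← Finset.smul_sum, Fin.sum_univ_eq_sum_range
      (fun i => ∑ j ∈ Finset.range n, (ζ⁻¹ ^ (i * j)) • V.sig ^ j) n, Finset.sum_comm]
    have h2 : ∀ j ∈ Finset.range n, ∑ i ∈ Finset.range n, (ζ⁻¹ ^ (i * j)) • V.sig ^ j =
        (if j = 0 then (n : k) else 0) • V.sig ^ j := by
      intro j hj
      rw [← Finset.sum_smul]
      congr 1
      have := tw2_geom hζ j 0 (Finset.mem_range.1 hj) (Nat.pos_of_ne_zero (NeZero.ne n))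
      rw [← this]
      apply Finset.sum_congr rfl
      intro i _
      rw [zero_mul, pow_zero, mul_one, mul_comm]
    rw [Finset.sum_congr rfl h2, Finset.sum_eq_single 0]
    · rw [if_pos rfl, pow_zero, smul_smul, inv_mul_cancel₀ hn, one_smul]
    · intro j _ hj
      rw [if_neg hj, zero_smul]
    · intro h
      exact absurd (Finset.mem_range.2 (Nat.pos_of_ne_zero (NeZero.ne n))) h
  have h2 := LinearMap.congr_fun h1 x
  rw [LinearMap.sum_apply] at h2
  exact h2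

lemma tw2_sig_pow_apply (V : Md k (G × Cyc n)) (c : k) (x : V.carrier) (hx : V.sig x = c • x)
    (j : ℕ) : (V.sig ^ j) x = c ^ j • x := by
  induction j with
  | zero => simp
  | succ j ih =>
    rw [pow_succ', Module.End.mul_apply, ih, map_smul, hx, smul_smul, pow_succ]

lemma tw2_pr_eig (V : Md k (G × Cyc n)) {ζ : k} (hζ : IsPrimitiveRoot ζ n) (a b : ℕ)
    (ha : a < n) (hb : b < n) (x : V.carrier) (hx : V.sig x = ζ ^ b • x) :
    tw2_pr V ζ a x = if a = b then x else 0 := by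
  have hn := tw2_n_ne hζ
  unfold tw2_pr
  rw [LinearMap.smul_apply, LinearMap.sum_apply]
  have h1 : ∀ j ∈ Finset.range n, ((ζ⁻¹ ^ (a * j)) • V.sig ^ j) x =
      ((ζ⁻¹ ^ (a * j)) * ζ ^ (b * j)) • x := by
    intro j _
    rw [LinearMap.smul_apply, tw2_sig_pow_apply V _ x hx, smul_smul, ← pow_mul]
  rw [Finset.sum_congr rfl h1, ← Finset.sum_smul, tw2_geom hζ a b ha hb, smul_smul]
  split_ifs
  · rw [inv_mul_cancel₀ hn, one_smul]
  · rw [mul_zero, zero_smul]

lemma tw2_pr_comm (V : Md k (G × Cyc n)) (ζ : k) (i : ℕ) (g : G) (c : Cyc n) (x : V.carrier) :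
    tw2_pr V ζ i (V.rep (g, c) x) = V.rep (g, c) (tw2_pr V ζ i x) := by
  have h1 : ∀ (j : ℕ) (y : V.carrier),
      (V.sig ^ j) (V.rep (g, c) y) = V.rep (g, c) ((V.sig ^ j) y) := by
    intro j
    induction j with
    | zero => intro y; rfl
    | succ j ih =>
      intro y
      rw [pow_succ, Module.End.mul_apply, Md.sig_comm, ih, Module.End.mul_apply]
  unfold tw2_pr
  simp only [LinearMap.smul_apply, LinearMap.sum_apply, h1, map_smul, map_sum]

end Tw2

theorem Md.iso_pi_infl {n : ℕ} [NeZero n] {ζ : k} (hζ : IsPrimitiveRoot ζ n)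
    (V : Md k (G × Cyc n)) :
    Md.Iso V (Md.pi fun i : Fin n =>
      (V.eig (ζ ^ (i : ℕ))).infl (ζ ^ (i : ℕ)) (root_pow hζ i)) := by
  have hmem : ∀ (i : ℕ) (x : V.carrier),
      tw2_pr V ζ i x ∈ Module.End.eigenspace V.sig (ζ ^ i) := fun i x => by
    rw [Module.End.mem_eigenspace_iff]
    exact tw2_sig_pr V hζ i x
  let f : V.carrier →ₗ[k] ((i : Fin n) → Module.End.eigenspace V.sig (ζ ^ (i : ℕ))) :=
    LinearMap.pi fun i => LinearMap.codRestrict _ (tw2_pr V ζ i) (hmem i)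
  let h : ((i : Fin n) → Module.End.eigenspace V.sig (ζ ^ (i : ℕ))) →ₗ[k] V.carrier :=
    ∑ i : Fin n, (Module.End.eigenspace V.sig (ζ ^ (i : ℕ))).subtype ∘ₗ LinearMap.proj i
  have hf : ∀ (x : V.carrier) (i : Fin n), ((f x i : Module.End.eigenspace V.sig (ζ ^ (i : ℕ))) : V.carrier) =
      tw2_pr V ζ i x := fun x i => rfl
  have hh : ∀ y, h y = ∑ i : Fin n, ((y i : Module.End.eigenspace V.sig (ζ ^ (i : ℕ))) :
      V.carrier) := by
    intro y
    simp [h, LinearMap.sum_apply]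
  have hleft : ∀ x, h (f x) = x := by
    intro x
    rw [hh]
    simp only [hf]
    exact tw2_sum_pr V hζ x
  have hright : ∀ y, f (h y) = y := by
    intro y
    funext i
    apply Subtype.ext
    rw [hf, hh, map_sum]
    rw [Finset.sum_eq_single i]
    · rw [tw2_pr_eig V hζ i i i.2 i.2 _ (Module.End.mem_eigenspace_iff.1 (y i).2), if_pos rfl]
    · intro j _ hji
      rw [tw2_pr_eig V hζ i j i.2 j.2 _ (Module.End.mem_eigenspace_iff.1 (y j).2), if_neg]
      exact fun e => hji (Fin.ext e.symm)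
    · intro hi
      exact absurd (Finset.mem_univ i) hi
  refine ⟨LinearEquiv.ofLinearMap f h (LinearMap.ext hright) (LinearMap.ext hleft), ?_⟩
  rintro ⟨g, c⟩ x
  funext i
  apply Subtype.ext
  have e1 : ((f (V.rep (g, c) x) i : Module.End.eigenspace V.sig (ζ ^ (i : ℕ))) : V.carrier) =
      (ζ ^ (i : ℕ)) ^ (Multiplicative.toAdd c).val • V.rep (g, 1) (tw2_pr V ζ i x) := by
    rw [hf, tw2_pr_comm, tw2_rep,
      tw2_sig_pow_apply V (ζ ^ (i : ℕ)) _ (tw2_sig_pr V hζ i x), map_smul]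
  exact e1

end Pool.Agent.H80Green
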