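import Pool.Agent.Helper80.Green.Defs

/-!
# Tensor products of finite direct sums and of inflated modules (module GR-3)
-/

universe u v

open scoped TensorProduct

namespace Pool.Agent.H80Green

variable {k : Type u} [Field k] {G : Type v} [Group G]

theorem Md.pi_tensor_pi {ι κ : Type} [Fintype ι] [Fintype κ] (Y : ι → Md k G)
    (Z : κ → Md k G) :
    Md.Iso ((Md.pi Y).tensor (Md.pi Z)) (Md.pi fun p : ι × κ => (Y p.1).tensor (Z p.2)) := by
  classical
  let f : ((i : ι) → (Y i).carrier) ⊗[k] ((j : κ) → (Z j).carrier) →ₗ[k]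
      ((p : ι × κ) → (Y p.1).carrier ⊗[k] (Z p.2).carrier) :=
    LinearMap.pi fun p => TensorProduct.map (LinearMap.proj p.1) (LinearMap.proj p.2)
  let h : ((p : ι × κ) → (Y p.1).carrier ⊗[k] (Z p.2).carrier) →ₗ[k]
      ((i : ι) → (Y i).carrier) ⊗[k] ((j : κ) → (Z j).carrier) :=
    ∑ p : ι × κ, TensorProduct.map (LinearMap.single k (fun i => (Y i).carrier) p.1)
      (LinearMap.single k (fun j => (Z j).carrier) p.2) ∘ₗ LinearMap.proj p
  have hf : ∀ x y, f (x ⊗ₜ[k] y) = fun p : ι × κ => x p.1 ⊗ₜ[k] y p.2 := fun x y => rfl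
  have hhf : h ∘ₗ f = LinearMap.id := by
    refine TensorProduct.ext' fun x y => ?_
    rw [LinearMap.comp_apply, hf]
    have h1 : h (fun p => x p.1 ⊗ₜ[k] y p.2) = ∑ p : ι × κ,
        (Pi.single p.1 (x p.1) : (i : ι) → (Y i).carrier) ⊗ₜ[k]
          (Pi.single p.2 (y p.2) : (j : κ) → (Z j).carrier) := by
      simp only [h, LinearMap.sum_apply]
      rfl
    rw [h1, Fintype.sum_prod_type]
    simp_rw [← TensorProduct.tmul_sum, ← TensorProduct.sum_tmul]
    rw [Finset.univ_sum_single, Finset.univ_sum_single]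
    rfl
  have hfh : f ∘ₗ h = LinearMap.id := by
    refine LinearMap.pi_ext' fun p => TensorProduct.ext' fun a b => ?_
    have h1 : h (LinearMap.single k (fun p : ι × κ => (Y p.1).carrier ⊗[k] (Z p.2).carrier) p
        (a ⊗ₜ[k] b)) = (Pi.single p.1 a : (i : ι) → (Y i).carrier) ⊗ₜ[k]
          (Pi.single p.2 b : (j : κ) → (Z j).carrier) := by
      simp only [h, LinearMap.sum_apply, LinearMap.comp_apply, LinearMap.proj_apply,
        LinearMap.single_apply]
      rw [Finset.sum_eq_single p]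
      · rw [Pi.single_eq_same]
        rfl
      · intro q _ hq
        rw [Pi.single_eq_of_ne hq, map_zero]
      · intro hp
        exact absurd (Finset.mem_univ p) hp
    rw [LinearMap.comp_apply, LinearMap.comp_apply, h1, hf, LinearMap.comp_apply,
      LinearMap.id_apply, LinearMap.single_apply]
    funext q
    by_cases hq : q = p
    · subst hq
      rw [Pi.single_eq_same, Pi.single_eq_same, Pi.single_eq_same]
    · rw [Pi.single_eq_of_ne hq]
      have : q.1 ≠ p.1 ∨ q.2 ≠ p.2 := by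
        by_contra hcon
        push Not at hcon
        exact hq (Prod.ext hcon.1 hcon.2)
      rcases this with h2 | h2
      · rw [Pi.single_eq_of_ne h2, TensorProduct.zero_tmul]
      · rw [Pi.single_eq_of_ne h2, TensorProduct.tmul_zero]
  refine ⟨LinearEquiv.ofLinearMap f h hfh hhf, fun g z => ?_⟩
  change f (((Md.pi Y).tensor (Md.pi Z)).rep g z) = _
  refine TensorProduct.induction_on z ?_ ?_ ?_
  · simp only [map_zero]
  · intro x y
    rw [Md.tensor_rep]
    change f (((Md.pi Y).rep g x) ⊗ₜ[k] ((Md.pi Z).rep g y)) =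
      (Md.pi fun p : ι × κ => (Y p.1).tensor (Z p.2)).rep g (f (x ⊗ₜ[k] y))
    rw [hf, hf]
    rfl
  · intro a b ha hb
    rw [map_add, map_add, ha, hb, map_add, map_add]

theorem Md.infl_tensor (U U' : Md k G) {n : ℕ} [NeZero n] (c c' : k) (hc : c ^ n = 1)
    (hc' : c' ^ n = 1) (hcc' : (c * c') ^ n = 1) :
    Md.Iso ((U.infl c hc).tensor (U'.infl c' hc')) ((U.tensor U').infl (c * c') hcc') := by
  refine ⟨LinearEquiv.refl k _, ?_⟩
  rintro ⟨g, z⟩ x
  refine TensorProduct.induction_on x ?_ ?_ ?_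
  · simp only [map_zero]
  · intro a b
    change (c ^ (Multiplicative.toAdd z).val • U.rep g a) ⊗ₜ[k]
      (c' ^ (Multiplicative.toAdd z).val • U'.rep g b) =
      (c * c') ^ (Multiplicative.toAdd z).val • (U.rep g a ⊗ₜ[k] U'.rep g b)
    rw [TensorProduct.smul_tmul_smul, mul_pow]
  · intro a b ha hb
    rw [map_add, map_add, ha, hb, map_add, map_add]

theorem Md.pi_iso {ι : Type} [Fintype ι] (Y Z : ι → Md k G) (h : ∀ i, Md.Iso (Y i) (Z i)) :
    Md.Iso (Md.pi Y) (Md.pi Z) := by
  choose e he using h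
  refine ⟨LinearEquiv.piCongrRight e, fun g x => ?_⟩
  funext i
  exact he i g (x i)

theorem Md.tensor_iso {X X' Y Y' : Md k G} (h : Md.Iso X X') (h' : Md.Iso Y Y') :
    Md.Iso (X.tensor Y) (X'.tensor Y') := by
  obtain ⟨e, he⟩ := h
  obtain ⟨e', he'⟩ := h'
  refine ⟨TensorProduct.congr e e', fun g z => ?_⟩
  refine TensorProduct.induction_on z ?_ ?_ ?_
  · simp only [map_zero]
  · intro x y
    rw [Md.tensor_rep, TensorProduct.congr_tmul, TensorProduct.congr_tmul, Md.tensor_rep, he, he']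
  · intro a b ha hb
    rw [map_add, map_add, ha, hb, map_add, map_add]

end Pool.Agent.H80Green
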