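import Pool.Agent.Helper80.Green.Tw1
import Pool.Agent.Helper80.Green.Tw2
import Pool.Agent.Helper80.Green.Tw3

/-!
The twisted trace is a species of the group `G × C_n`; multiplicative functions on direct sums.
-/

universe u v

open scoped TensorProduct

namespace Pool.Agent.H80Green

variable {k : Type u} [Field k] {G : Type v} [Group G]

/-- A multiplicative isomorphism invariant of modules on a finite direct sum. -/
theorem prod_pi {M : Type*} [CommMonoid M] (f : Md k G → M)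
    (hiso : ∀ X Y : Md k G, Md.Iso X Y → f X = f Y)
    (hmul : ∀ X Y : Md k G, f (X.prod Y) = f X * f Y)
    (hone : ∀ X : Md k G, X.dim = 0 → f X = 1) {ι : Type} [Fintype ι] (Y : ι → Md k G) :
    f (Md.pi Y) = ∏ i, f (Y i) := by
  classical
  have key : ∀ (ι : Type) [Fintype ι], ∀ Y : ι → Md k G, f (Md.pi Y) = ∏ i, f (Y i) := by
    intro ι inst
    refine Fintype.induction_empty_option
      (P := fun ι [Fintype ι] => ∀ Y : ι → Md k G, f (Md.pi Y) = ∏ i, f (Y i))
      ?_ ?_ ?_ ι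
    · intro α β _ e h Y
      letI : Fintype α := Fintype.ofEquiv β e.symm
      have h2 := h (fun i => Y (e i))
      have h3 : ∏ i, f (Y i) = ∏ i, f (Y (e i)) := (e.prod_comp (fun i => f (Y i))).symm
      rw [h3]
      refine Eq.trans ?_ h2
      apply hiso
      refine ⟨(LinearEquiv.piCongrLeft k (fun i => (Y i).carrier) e).symm, fun g x => ?_⟩
      funext i
      rfl
    · intro Y
      simp only [Finset.univ_eq_empty, Finset.prod_empty]
      apply hone
      rw [Md.dim_pi]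
      simp
    · intro α _ h Y
      rw [Fintype.prod_option, ← h (fun i => Y (some i)), ← hmul]
      apply hiso
      refine ⟨⟨⟨⟨fun x => (x none, fun i => x (some i)), fun _ _ => rfl⟩, fun _ _ => rfl⟩,
        fun x i => Option.rec x.1 (fun j => x.2 j) i, ?_, ?_⟩, ?_⟩
      · intro x
        funext i
        cases i <;> rfl
      · intro x
        rfl
      · intro g x
        rfl
  exact key ι Y

/-- An additive isomorphism invariant of modules vanishes on zero. -/
theorem add_zero_dim (f : Md k G → ℂ) (hiso : ∀ X Y : Md k G, Md.Iso X Y → f X = f Y)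
    (hadd : ∀ X Y : Md k G, f (X.prod Y) = f X + f Y) (X : Md k G) (h : X.dim = 0) : f X = 0 := by
  have hs : Subsingleton X.carrier := Module.finrank_zero_iff.1 h
  have h1 : f (X.prod X) = f X := by
    apply hiso
    have hs2 : Subsingleton (X.carrier × X.carrier) := inferInstance
    refine ⟨⟨⟨⟨fun x => x.1, fun _ _ => rfl⟩, fun _ _ => rfl⟩, fun x => (x, x), ?_, ?_⟩, ?_⟩
    · intro x
      exact hs2.elim _ _
    · intro x
      exact hs.elim _ _
    · intro g x
      exact hs.elim _ _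
  rw [hadd] at h1
  have : f X + f X = f X + 0 := by rw [h1, add_zero]
  exact add_left_cancel this

/-- An additive isomorphism invariant of modules on a finite direct sum. -/
theorem add_pi (f : Md k G → ℂ)
    (hiso : ∀ X Y : Md k G, Md.Iso X Y → f X = f Y)
    (hadd : ∀ X Y : Md k G, f (X.prod Y) = f X + f Y) {ι : Type} [Fintype ι] (Y : ι → Md k G) :
    f (Md.pi Y) = ∑ i, f (Y i) := by
  have h := prod_pi (fun X => Multiplicative.ofAdd (f X)) (fun X Y h => by rw [hiso X Y h])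
    (fun X Y => by rw [hadd X Y]; rfl)
    (fun X h => by rw [add_zero_dim f hiso hadd X h]; rfl) Y
  have h2 := congrArg Multiplicative.toAdd h
  simpa using h2

namespace Species

variable (s : Species k G)

lemma infl_congr (U : Md k G) {n : ℕ} [NeZero n] (c c' : k) (hc : c ^ n = 1) (hc' : c' ^ n = 1)
    (h : c = c') : U.infl c hc = U.infl c' hc' := by
  subst h
  rfl

lemma tw_infl' {n : ℕ} [NeZero n] {ζ : k} (hζ : IsPrimitiveRoot ζ n) {ξ : ℂ}
    (hξ : IsPrimitiveRoot ξ n) (U : Md k G) (i : ℕ) (c : k) (hc : c ^ n = 1) (h : c = ζ ^ i) :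
    s.tw ζ ξ (U.infl c hc) = ξ ^ i * s.val U := by
  have h1 : c = ζ ^ (i % n) := by
    rw [h]
    exact pow_eq_pow_mod i hζ.pow_eq_one
  have h2 : ξ ^ i = ξ ^ (i % n) := pow_eq_pow_mod i hξ.pow_eq_one
  rw [infl_congr U c (ζ ^ (i % n)) hc (root_pow hζ _) h1,
    s.tw_infl hζ ξ U (i % n) (Nat.mod_lt _ (NeZero.pos n)), h2]

/-- The twisted trace as a species of `G × C_n`. -/
noncomputable def twist {n : ℕ} [NeZero n] {ζ : k} (hζ : IsPrimitiveRoot ζ n) {ξ : ℂ}
    (hξ : IsPrimitiveRoot ξ n) : Species k (G × Cyc n) where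
  val := s.tw ζ ξ
  iso := s.tw_iso ζ ξ
  add := s.tw_add ζ ξ
  mul V W := by
    have hV := Md.iso_pi_infl hζ V
    have hW := Md.iso_pi_infl hζ W
    have h1 := Md.tensor_iso hV hW
    have h2 := Md.pi_tensor_pi
      (fun i : Fin n => (V.eig (ζ ^ (i : ℕ))).infl (ζ ^ (i : ℕ)) (root_pow hζ i))
      (fun i : Fin n => (W.eig (ζ ^ (i : ℕ))).infl (ζ ^ (i : ℕ)) (root_pow hζ i))
    rw [s.tw_iso ζ ξ _ _ h1, s.tw_iso ζ ξ _ _ h2,
      add_pi (s.tw ζ ξ) (s.tw_iso ζ ξ) (s.tw_add ζ ξ)]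
    have h3 : ∀ p : Fin n × Fin n,
        s.tw ζ ξ (((V.eig (ζ ^ (p.1 : ℕ))).infl (ζ ^ (p.1 : ℕ)) (root_pow hζ p.1)).tensor
          ((W.eig (ζ ^ (p.2 : ℕ))).infl (ζ ^ (p.2 : ℕ)) (root_pow hζ p.2))) =
        (ξ ^ (p.1 : ℕ) * s.val (V.eig (ζ ^ (p.1 : ℕ)))) *
          (ξ ^ (p.2 : ℕ) * s.val (W.eig (ζ ^ (p.2 : ℕ)))) := by
      intro p
      have hcc : (ζ ^ (p.1 : ℕ) * ζ ^ (p.2 : ℕ)) ^ n = 1 := by
        rw [← pow_add]
        exact root_pow hζ _
      rw [s.tw_iso ζ ξ _ _ (Md.infl_tensor _ _ _ _ (root_pow hζ p.1) (root_pow hζ p.2) hcc),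
        s.tw_infl' hζ hξ _ ((p.1 : ℕ) + (p.2 : ℕ)) _ hcc (pow_add _ _ _).symm, s.mul]
      ring
    rw [Finset.sum_congr rfl (fun p _ => h3 p), Fintype.sum_prod_type]
    simp only [tw, Finset.sum_range, Finset.sum_mul_sum]
  one := by
    have h : Md.Iso (Md.triv k (G × Cyc n)) ((Md.triv k G).infl 1 (one_pow n)) := by
      refine ⟨LinearEquiv.refl k k, fun g x => ?_⟩
      simp
    rw [s.tw_iso ζ ξ _ _ h, s.tw_infl' hζ hξ (Md.triv k G) 0 1 (one_pow n) (pow_zero ζ).symm,
      pow_zero, s.one, one_mul]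

@[simp] lemma twist_val {n : ℕ} [NeZero n] {ζ : k} (hζ : IsPrimitiveRoot ζ n) {ξ : ℂ}
    (hξ : IsPrimitiveRoot ξ n) (V : Md k (G × Cyc n)) :
    (s.twist hζ hξ).val V = s.tw ζ ξ V := rfl

end Species

end Pool.Agent.H80Green
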